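import Pool.Agent.H61.CO.Hb

/-!
# The cabled words and the expansion of the antisymmetrizers (row CO C1)

Proofs.
`dsc_all`: the letters of `dsc c p l` are the `c i`, `p ≤ i < p + l`; `crs_all`: those of `crs c x p q` are
the `c i`, `x ≤ i`, `i + 1 < x + p + q`.  `cab_ok`: a letter of index `i`, `i + 1 < m`, is replaced by
letters of index `j` with `k i ≤ j`, `j + 1 < k i + 2 k ≤ k m`.  `perms_ok`: the letters of the words
have index `j`, `x ≤ j`, `j + 1 < x + k` (induction; `List.mem_flatMap`, `List.mem_map`).
`permsB_ok`: induction on `m`.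
`perms_sum`: `((perms x k).map fun p => r ^ p.1 • A.ev p.2).sum = Ap r A.sp x k`: induction on `k`:
the sum over a `flatMap` is a double sum; `r^(p.1+i) • ev (p.2 ++ dsc ..) =
(r^p.1 • ev p.2) * (r^i • Dp A.sp (x+k-i) i)` (`ev_append`, `ev_dsc`), and a sum over
`List.range (k+1)` is `∑ i ∈ Finset.range (k+1)` (`Finset.sum_range`, `List.sum_range` or
`Finset.sum_list_map..`; or prove it by induction).
`permsB_sum`: induction on `m`, in the same way.
-/

namespace CO

open ZM

lemma c1_dsc_mem {α : Type} {c : ℕ → α} {p l : ℕ} {a : α} (h : a ∈ dsc c p l) :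
    ∃ i, p ≤ i ∧ i < p + l ∧ a = c i := by
  induction l with
  | zero => simp [dsc] at h
  | succ l ih =>
    simp only [dsc, List.mem_cons] at h
    rcases h with h | h
    · exact ⟨p + l, by omega, by omega, h⟩
    · obtain ⟨i, h1, h2, h3⟩ := ih h
      exact ⟨i, h1, by omega, h3⟩

lemma c1_crs_mem {α : Type} {c : ℕ → α} {x p q : ℕ} {a : α} (h : a ∈ crs c x p q) :
    ∃ i, x ≤ i ∧ i + 1 < x + p + q + 1 ∧ i + 1 ≤ x + p + q - 1 ∧ a = c i := by
  induction q with
  | zero => simp [crs] at h
  | succ q ih =>
    simp only [crs, List.mem_append] at h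
    rcases h with h | h
    · obtain ⟨i, h1, h2, h3, h4⟩ := ih h
      exact ⟨i, h1, by omega, by omega, h4⟩
    · obtain ⟨i, h1, h2, h3⟩ := c1_dsc_mem h
      exact ⟨i, by omega, by omega, by omega, h3⟩

lemma cab_ok (k m : ℕ) {w : List BL} (hw : BOk m w) : BOk (k * m) (cab k w) := by
  intro a ha
  unfold cab at ha
  rw [List.mem_flatMap] at ha
  obtain ⟨b, hb, hab⟩ := ha
  have hm := hw b hb
  have key : ∀ i j : ℕ, i + 1 < m → j + 1 ≤ k * i + k + k - 1 → k * i ≤ j → j + 1 < k * m := by
    intro i j h1 h2 h3
    have h4 : k * (i + 2) ≤ k * m := Nat.mul_le_mul_left k (by omega)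
    have h5 : k * (i + 2) = k * i + k + k := by ring
    rcases Nat.eq_zero_or_pos k with h6 | h6
    · subst h6; omega
    · omega
  rcases b with ⟨i, s⟩ | i
  · obtain ⟨j, h1, h2, h3, h4⟩ := c1_crs_mem (c := fun j => BL.sg j s) hab
    rw [h4]
    exact key i j hm h3 h1
  · obtain ⟨j, h1, h2, h3, h4⟩ := c1_crs_mem (c := BL.ta) hab
    rw [h4]
    exact key i j hm h3 h1

lemma cab_classical (k : ℕ) {w : List BL} (hw : Classical w) : Classical (cab k w) := by
  intro a ha
  unfold cab at ha
  rw [List.mem_flatMap] at ha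
  obtain ⟨b, hb, hab⟩ := ha
  obtain ⟨i, s, rfl⟩ := hw b hb
  obtain ⟨j, h1, h2, h3, h4⟩ := c1_crs_mem (c := fun j => BL.sg j s) hab
  exact ⟨j, s, h4⟩

lemma perms_ok (x k : ℕ) : ∀ p ∈ perms x k, Classical p.2 ∧ ∀ a ∈ p.2, a.ix + 1 < x + k := by
  induction k with
  | zero =>
    intro p hp
    simp only [perms, List.mem_singleton] at hp
    subst hp
    exact ⟨fun a ha => by simp at ha, fun a ha => by simp at ha⟩
  | succ k ih =>
    intro p hp
    simp only [perms, List.mem_flatMap, List.mem_map, List.mem_range] at hp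
    obtain ⟨q, hq, i, hi, rfl⟩ := hp
    obtain ⟨h1, h2⟩ := ih q hq
    constructor
    · intro a ha
      rw [List.mem_append] at ha
      rcases ha with ha | ha
      · exact h1 a ha
      · obtain ⟨j, _, _, h3⟩ := c1_dsc_mem ha
        exact ⟨j, true, h3⟩
    · intro a ha
      rw [List.mem_append] at ha
      rcases ha with ha | ha
      · have := h2 a ha
        omega
      · obtain ⟨j, h4, h5, h3⟩ := c1_dsc_mem ha
        rw [h3]
        show j + 1 < _
        omega

lemma permsB_ok (k m : ℕ) : ∀ p ∈ permsB k m, Classical p.2 ∧ BOk (k * m) p.2 := by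
  induction m with
  | zero =>
    intro p hp
    simp only [permsB, List.mem_singleton] at hp
    subst hp
    exact ⟨fun a ha => by simp at ha, fun a ha => by simp at ha⟩
  | succ m ih =>
    intro p hp
    simp only [permsB, List.mem_flatMap, List.mem_map] at hp
    obtain ⟨q, hq, r, hr, rfl⟩ := hp
    obtain ⟨h1, h2⟩ := ih q hq
    obtain ⟨h3, h4⟩ := perms_ok (k * m) k r hr
    constructor
    · intro a ha
      rw [List.mem_append] at ha
      rcases ha with ha | ha
      · exact h1 a ha
      · exact h3 a ha
    · intro a ha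
      rw [List.mem_append] at ha
      have e : k * (m + 1) = k * m + k := by ring
      rw [e]
      rcases ha with ha | ha
      · have := h2 a ha
        omega
      · exact h4 a ha

lemma c1_sum_flatMap {α β R : Type} [AddMonoid R] (l : List α) (g : α → List β) (f : β → R) :
    ((l.flatMap g).map f).sum = (l.map fun a => ((g a).map f).sum).sum := by
  induction l with
  | nil => simp
  | cons a l ih => rw [List.flatMap_cons, List.map_append, List.sum_append, ih, List.map_cons,
      List.sum_cons]

lemma c1_range {R : Type} [AddCommMonoid R] (f : ℕ → R) (n : ℕ) :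
    ((List.range n).map f).sum = ∑ i ∈ Finset.range n, f i := by
  induction n with
  | zero => simp
  | succ n ih => rw [List.range_succ, List.map_append, List.sum_append, ih,
      Finset.sum_range_succ]; simp

lemma c1_mul_left {α R : Type} [Ring R] (l : List α) (f : α → R) (y : R) :
    (l.map fun a => y * f a).sum = y * (l.map f).sum := by
  induction l with
  | nil => simp
  | cons a l ih => simp only [List.map_cons, List.sum_cons, ih, mul_add]

lemma c1_mul_right {α R : Type} [Ring R] (l : List α) (f : α → R) (y : R) :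
    (l.map fun a => f a * y).sum = (l.map f).sum * y := by
  induction l with
  | nil => simp
  | cons a l ih => simp only [List.map_cons, List.sum_cons, ih, add_mul]

namespace VA

section

variable {L : Type} [Field L] {lam : L} {n : ℕ} (A : VA L lam n)

lemma perms_sum (r : L) (x k : ℕ) :
    ((perms x k).map fun p => r ^ p.1 • A.ev p.2).sum = Ap r A.sp x k := by
  induction k with
  | zero => simp [perms, Ap]
  | succ k ih =>
    rw [Ap_succ, ← ih, ← c1_mul_right]
    show (((perms x k).flatMap fun p => (List.range (k + 1)).map fun i =>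
      (p.1 + i, p.2 ++ dsc (fun j => BL.sg j true) (x + k - i) i)).map
        fun p => r ^ p.1 • A.ev p.2).sum = _
    rw [c1_sum_flatMap]
    congr 1
    refine List.map_congr_left fun p _ => ?_
    rw [List.map_map, ← c1_range, ← c1_mul_left]
    congr 1
    refine List.map_congr_left fun i _ => ?_
    show r ^ (p.1 + i) • A.ev (p.2 ++ dsc (fun j => BL.sg j true) (x + k - i) i) = _
    rw [A.ev_append, A.ev_dsc, smul_mul_smul_comm, pow_add]

lemma permsB_sum (r : L) (k m : ℕ) :
    ((permsB k m).map fun p => r ^ p.1 • A.ev p.2).sum = AA r A.sp k m := by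
  induction m with
  | zero => simp [permsB, AA]
  | succ m ih =>
    show (((permsB k m).flatMap fun p => (perms (k * m) k).map fun q =>
      (p.1 + q.1, p.2 ++ q.2)).map fun p => r ^ p.1 • A.ev p.2).sum
        = AA r A.sp k m * Ap r A.sp (k * m) k
    rw [← ih, ← c1_mul_right, c1_sum_flatMap]
    congr 1
    refine List.map_congr_left fun p _ => ?_
    rw [List.map_map, ← A.perms_sum, ← c1_mul_left]
    congr 1
    refine List.map_congr_left fun q _ => ?_
    show r ^ (p.1 + q.1) • A.ev (p.2 ++ q.2) = _
    rw [A.ev_append, smul_mul_smul_comm, pow_add]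

end

end VA

end CO
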