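import Pool.Agent.H61.CO.C1

/-!
# The coloured polynomial at the special parameters (row CO C2)

Proof.  `raw P (s * a) k m w = ∑_p (s a)^p.1 * P (k m) (cab k w ++ p.2)` with `a = lam^n`,
`s = - lam⁻¹`, so `s * a = cc lam n`, and by `hP` (the words are `BOk (k m)`: C1)
`P (k m) v = (qint lam n)⁻¹ * (qint lam n)^(k m) * A.tr (A.ev v)`.  So
`raw = (qint lam n)⁻¹ * (qint lam n)^(k m) * A.tr (A.bv k w * ∑_p cc^p.1 • ev p.2)`
(`ev_append`, `ev_cab`; a linear map commutes with list sums: induction on the list), and the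
sum is `A.YY k m` (`permsB_sum`).  Then unfold `col` and `G`.
-/

namespace CO

open ZM

private lemma c2_lin {L : Type} [Field L] {lam : L} {n : ℕ} (A : VA L lam n) (r q : L)
    (g : A.R) (l : List (ℕ × List BL)) :
    (l.map fun p => r ^ p.1 * (q * A.tr (g * A.ev p.2))).sum =
      q * A.tr (g * (l.map fun p => r ^ p.1 • A.ev p.2).sum) := by
  induction l with
  | nil => simp
  | cons p l ih =>
    rw [List.map_cons, List.sum_cons, List.map_cons, List.sum_cons, ih, mul_add, map_add,
      mul_smul_comm, map_smul, smul_eq_mul]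
    ring

theorem col_G {L : Type} [Field L] {lam : L} {n : ℕ} (A : VA L lam n) (P : ℕ → List BL → L)
    (hP : ∀ m w, BOk m w → P m w = (qint lam n)⁻¹ * ((qint lam n) ^ m * A.tr (A.ev w)))
    (k m : ℕ) {w : List BL} (hw : BOk m w) :
    col P (lam ^ n) (-lam⁻¹) k m w = (qint lam n)⁻¹ * A.G k (m, w) := by
  have h1 : raw P (-lam⁻¹ * lam ^ n) k m w = ((permsB k m).map fun p => (-lam⁻¹ * lam ^ n) ^ p.1 *
      (((qint lam n)⁻¹ * (qint lam n) ^ (k * m)) * A.tr (A.bv k w * A.ev p.2))).sum := by
    rw [raw]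
    congr 1
    refine List.map_congr_left fun p hp => ?_
    have hok : BOk (k * m) (cab k w ++ p.2) := by
      intro a ha
      rcases List.mem_append.mp ha with h | h
      · exact cab_ok k m hw a h
      · exact (permsB_ok k m p hp).2 a h
    rw [hP _ _ hok, A.ev_append, A.ev_cab]
    ring
  rw [col, h1, c2_lin, A.permsB_sum, VA.G, VA.YY, VA.cc]
  ring

end CO
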