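import Mathlib

/-!
# Density (row CO D1; Mathlib only)

Compare `Pool/Agent/H75/ZM/HoD.lean` (the same for three variables; its proof can be adapted).

Proof.  (1) For every `G` there are `D`, `E` and a polynomial `G'` in two variables over `ℤ`
(`Polynomial (Polynomial ℤ)`, outer variable `A`, inner variable `B`) with
`a^D * s^E * G(a, a⁻¹, s, s⁻¹) = G'(a, s)` for all fields and all `a, s ≠ 0`
(`MvPolynomial.induction_on`).
(2) In `L = RatFunc ℚ`, `t = RatFunc.X`, `σ = -t⁻¹`: `G'(t^n, σ) = 0` for all `n ≥ 2`.  The powers `t^n` are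
pairwise distinct, so the polynomial `G'(·, σ)` in one variable over the field `L` has infinitely many
roots and vanishes: each coefficient `g_i(σ) = 0`, `g_i ∈ ℤ[B]`; `σ` is transcendental over `ℚ`
(`g(-t⁻¹) = 0` with `g` of degree `d` gives `t^d g(-t⁻¹) = 0`, a polynomial in `t` with coefficients
`± g_i`), so all `g_i = 0` and `G' = 0`.
(3) So `a^D s^E G(a, a⁻¹, s, s⁻¹) = 0`, hence `G(a, a⁻¹, s, s⁻¹) = 0`.
-/

namespace CO

/-- Evaluation of a polynomial in two variables. -/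
noncomputable def d1_ev (K : Type) [Field K] (a z : K) (P : Polynomial (Polynomial ℤ)) : K :=
  Polynomial.eval₂ (Polynomial.eval₂RingHom (Int.castRingHom K) z) a P

theorem d1_red (G : MvPolynomial (Fin 4) ℤ) :
    ∃ (D E : ℕ) (P : Polynomial (Polynomial ℤ)), ∀ (K : Type) [Field K] (a s : K), a ≠ 0 → s ≠ 0 →
      a ^ D * s ^ E * MvPolynomial.eval₂ (Int.castRingHom K) ![a, a⁻¹, s, s⁻¹] G =
        d1_ev K a s P := by
  induction G using MvPolynomial.induction_on with
  | C c =>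
    refine ⟨0, 0, Polynomial.C (Polynomial.C c), ?_⟩
    intro K _ a s ha hs
    unfold d1_ev
    rw [Polynomial.eval₂_C, Polynomial.coe_eval₂RingHom, Polynomial.eval₂_C, pow_zero, pow_zero,
      one_mul, one_mul, MvPolynomial.eval₂_C]
  | add p q hp hq =>
    obtain ⟨D1, E1, P1, h1⟩ := hp
    obtain ⟨D2, E2, P2, h2⟩ := hq
    refine ⟨D1 + D2, E1 + E2, Polynomial.X ^ D2 * Polynomial.C (Polynomial.X ^ E2) * P1 +
      Polynomial.X ^ D1 * Polynomial.C (Polynomial.X ^ E1) * P2, ?_⟩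
    intro K _ a s ha hs
    have e1 := h1 K a s ha hs
    have e2 := h2 K a s ha hs
    unfold d1_ev at e1 e2 ⊢
    rw [Polynomial.eval₂_add, Polynomial.eval₂_mul, Polynomial.eval₂_mul, Polynomial.eval₂_mul,
      Polynomial.eval₂_mul, Polynomial.eval₂_pow, Polynomial.eval₂_C, Polynomial.eval₂_C,
      Polynomial.eval₂_pow, Polynomial.eval₂_X, ← e1, ← e2, MvPolynomial.eval₂_add]
    simp only [Polynomial.coe_eval₂RingHom, Polynomial.eval₂_X, Polynomial.eval₂_pow]
    ring
  | mul_X p i hp =>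
    obtain ⟨D, E, P, h⟩ := hp
    have hi : i = 0 ∨ i = 1 ∨ i = 2 ∨ i = 3 := by
      fin_cases i
      · exact Or.inl rfl
      · exact Or.inr (Or.inl rfl)
      · exact Or.inr (Or.inr (Or.inl rfl))
      · exact Or.inr (Or.inr (Or.inr rfl))
    rcases hi with rfl | rfl | rfl | rfl
    · refine ⟨D, E, Polynomial.X * P, ?_⟩
      intro K _ a s ha hs
      have e := h K a s ha hs
      unfold d1_ev at e ⊢
      rw [Polynomial.eval₂_mul, Polynomial.eval₂_X, ← e, MvPolynomial.eval₂_mul,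
        MvPolynomial.eval₂_X]
      have e0 : (![a, a⁻¹, s, s⁻¹] : Fin 4 → K) 0 = a := rfl
      rw [e0]
      ring
    · refine ⟨D + 1, E, P, ?_⟩
      intro K _ a s ha hs
      have e := h K a s ha hs
      rw [← e, MvPolynomial.eval₂_mul, MvPolynomial.eval₂_X]
      have e0 : (![a, a⁻¹, s, s⁻¹] : Fin 4 → K) 1 = a⁻¹ := rfl
      rw [e0, pow_succ]
      field_simp
    · refine ⟨D, E, Polynomial.C Polynomial.X * P, ?_⟩
      intro K _ a s ha hs
      have e := h K a s ha hs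
      unfold d1_ev at e ⊢
      rw [Polynomial.eval₂_mul, Polynomial.eval₂_C, ← e, MvPolynomial.eval₂_mul,
        MvPolynomial.eval₂_X]
      have e0 : (![a, a⁻¹, s, s⁻¹] : Fin 4 → K) 2 = s := rfl
      rw [e0]
      simp only [Polynomial.coe_eval₂RingHom, Polynomial.eval₂_X]
      ring
    · refine ⟨D, E + 1, P, ?_⟩
      intro K _ a s ha hs
      have e := h K a s ha hs
      rw [← e, MvPolynomial.eval₂_mul, MvPolynomial.eval₂_X]
      have e0 : (![a, a⁻¹, s, s⁻¹] : Fin 4 → K) 3 = s⁻¹ := rfl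
      rw [e0, pow_succ s]
      field_simp

theorem d1_X_not_algebraic : ¬ IsAlgebraic ℚ (RatFunc.X : RatFunc ℚ) := by
  intro h
  have e : (RatFunc.X : RatFunc ℚ) = algebraMap (Polynomial ℚ) (RatFunc ℚ) Polynomial.X :=
    (RatFunc.algebraMap_X).symm
  rw [isAlgebraic_iff_isIntegral, e] at h
  have h2 : IsIntegral ℚ (Polynomial.X : Polynomial ℚ) :=
    (isIntegral_algHom_iff (IsScalarTower.toAlgHom ℚ (Polynomial ℚ) (RatFunc ℚ))
      (RatFunc.algebraMap_injective ℚ)).mp h
  exact Polynomial.transcendental_X ℚ h2.isAlgebraic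

theorem d1_s_not_algebraic :
    ¬ IsAlgebraic ℚ (-(RatFunc.X : RatFunc ℚ)⁻¹) := by
  intro h
  apply d1_X_not_algebraic
  have h2 := h.inv.neg
  rw [inv_neg, inv_inv, neg_neg] at h2
  exact h2

theorem d1_inj (g : Polynomial ℤ)
    (hg : Polynomial.eval₂RingHom (Int.castRingHom (RatFunc ℚ))
      (-(RatFunc.X : RatFunc ℚ)⁻¹) g = 0) : g = 0 := by
  by_contra hne
  apply d1_s_not_algebraic
  refine ⟨g.map (Int.castRingHom ℚ), ?_, ?_⟩
  · rw [Ne, Polynomial.map_eq_zero_iff (RingHom.injective_int _)]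
    exact hne
  · rw [Polynomial.aeval_def, Polynomial.eval₂_map]
    rw [Polynomial.coe_eval₂RingHom] at hg
    have e : (algebraMap ℚ (RatFunc ℚ)).comp (Int.castRingHom ℚ) = Int.castRingHom (RatFunc ℚ) :=
      RingHom.ext_int _ _
    rw [e]
    exact hg

theorem d1_aeval (K : Type) [Field K] [Algebra ℤ K] (v : Fin 4 → K)
    (G : MvPolynomial (Fin 4) ℤ) :
    MvPolynomial.aeval v G = MvPolynomial.eval₂ (Int.castRingHom K) v G := by
  have e : algebraMap ℤ K = Int.castRingHom K := RingHom.ext_int _ _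
  rw [MvPolynomial.aeval_def, e]

theorem density4 (G : MvPolynomial (Fin 4) ℤ)
    (h : ∀ n : ℕ, 2 ≤ n → MvPolynomial.aeval
      ![(RatFunc.X : RatFunc ℚ) ^ n, ((RatFunc.X : RatFunc ℚ) ^ n)⁻¹, -(RatFunc.X : RatFunc ℚ)⁻¹,
        (-(RatFunc.X : RatFunc ℚ)⁻¹)⁻¹] G = 0)
    (K : Type) [Field K] (a s : K) (ha : a ≠ 0) (hs : s ≠ 0) :
    MvPolynomial.aeval ![a, a⁻¹, s, s⁻¹] G = 0 := by
  obtain ⟨D, E, P, hP⟩ := d1_red G
  have hX : (RatFunc.X : RatFunc ℚ) ≠ 0 := RatFunc.X_ne_zero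
  have hroot : ∀ n : ℕ, 2 ≤ n → (P.map (Polynomial.eval₂RingHom (Int.castRingHom (RatFunc ℚ))
      (-(RatFunc.X : RatFunc ℚ)⁻¹))).IsRoot ((RatFunc.X : RatFunc ℚ) ^ n) := by
    intro n hn
    have e := hP (RatFunc ℚ) ((RatFunc.X : RatFunc ℚ) ^ n) (-(RatFunc.X : RatFunc ℚ)⁻¹)
      (pow_ne_zero n hX) (neg_ne_zero.2 (inv_ne_zero hX))
    have h' := h n hn
    rw [d1_aeval] at h'
    rw [h', mul_zero] at e
    unfold d1_ev at e
    rw [Polynomial.IsRoot.def, Polynomial.eval_map]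
    exact e.symm
  have hinj : Function.Injective (fun n : ℕ => (RatFunc.X : RatFunc ℚ) ^ n) := by
    intro m n hmn
    have e : algebraMap (Polynomial ℚ) (RatFunc ℚ) (Polynomial.X ^ m) =
        algebraMap (Polynomial ℚ) (RatFunc ℚ) (Polynomial.X ^ n) := by
      rw [map_pow, map_pow, RatFunc.algebraMap_X]
      exact hmn
    have e2 := RatFunc.algebraMap_injective ℚ e
    have e3 := congrArg Polynomial.natDegree e2
    rw [Polynomial.natDegree_X_pow, Polynomial.natDegree_X_pow] at e3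
    exact e3
  have hzero : P.map (Polynomial.eval₂RingHom (Int.castRingHom (RatFunc ℚ))
      (-(RatFunc.X : RatFunc ℚ)⁻¹)) = 0 := by
    apply Polynomial.eq_zero_of_infinite_isRoot
    have hsub : Set.range (fun n : ℕ => (RatFunc.X : RatFunc ℚ) ^ (n + 2)) ⊆
        {x | (P.map (Polynomial.eval₂RingHom (Int.castRingHom (RatFunc ℚ))
          (-(RatFunc.X : RatFunc ℚ)⁻¹))).IsRoot x} := by
      rintro x ⟨n, rfl⟩
      exact hroot (n + 2) (by omega)
    refine Set.Infinite.mono hsub ?_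
    apply Set.infinite_range_of_injective
    intro m n hmn
    have e : m + 2 = n + 2 := hinj hmn
    omega
  have hP0 : P = 0 := by
    ext1 i
    rw [Polynomial.coeff_zero]
    apply d1_inj
    rw [← Polynomial.coeff_map, hzero, Polynomial.coeff_zero]
  have e := hP K a s ha hs
  rw [hP0] at e
  unfold d1_ev at e
  rw [Polynomial.eval₂_zero] at e
  rw [d1_aeval]
  rcases mul_eq_zero.mp e with e1 | e1
  · rcases mul_eq_zero.mp e1 with e2 | e2
    · exact absurd e2 (pow_ne_zero D ha)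
    · exact absurd e2 (pow_ne_zero E hs)
  · exact e1

end CO
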