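import Pool.Agent.H75.ZM.BrDefs

/-!
# Coloured HOMFLY polynomials of closures of braid words: definitions

`col P a s k m w` is the HOMFLY functional `P` with parameters `a`, `z = s - s⁻¹` evaluated on the
`k`-cable of the closure of the classical braid word `w` on `m` strands, with the symmetrizer of the
Hecke algebra (eigenvalue `s`) inserted in each of the `m` bundles of `k` strands, corrected for the
framing.  Replacing `s` by `-s⁻¹` (which does not change `z`) gives the antisymmetrizer.
-/

namespace CO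

open ZM

section Words

variable {α : Type}

/-- The descending run `c (p + l - 1), ..., c (p + 1), c p`. -/
def dsc (c : ℕ → α) (p : ℕ) : ℕ → List α
  | 0 => []
  | l + 1 => c (p + l) :: dsc c p l

/-- `p` strands cross `q` strands: the runs `dsc c x p`, `dsc c (x + 1) p`, ...,
`dsc c (x + q - 1) p`. -/
def crs (c : ℕ → α) (x p : ℕ) : ℕ → List α
  | 0 => []
  | q + 1 => crs c x p q ++ dsc c (x + q) p

/-- The `k`-cable of a letter: `k` parallel strands cross `k` parallel strands. -/
def cabL (k : ℕ) : BL → List BL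
  | .sg i b => crs (fun j => .sg j b) (k * i) k k
  | .ta i => crs .ta (k * i) k k

/-- The `k`-cable of a braid word. -/
def cab (k : ℕ) (w : List BL) : List BL := w.flatMap (cabL k)

/-- For each of the `k!` permutations of the strands in the positions `x, ..., x + k - 1`: its
length and a positive braid word of this length for it. -/
def perms (x : ℕ) : ℕ → List (ℕ × List BL)
  | 0 => [(0, [])]
  | k + 1 => (perms x k).flatMap fun p => (List.range (k + 1)).map fun i =>
      (p.1 + i, p.2 ++ dsc (fun j => BL.sg j true) (x + k - i) i)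

/-- The same for the products of `m` permutations of the `m` bundles of `k` strands. -/
def permsB (k : ℕ) : ℕ → List (ℕ × List BL)
  | 0 => [(0, [])]
  | m + 1 => (permsB k m).flatMap fun p => (perms (k * m) k).map fun q =>
      (p.1 + q.1, p.2 ++ q.2)

/-- The number of positive minus the number of negative crossings. -/
def wr : List BL → ℤ
  | [] => 0
  | .sg _ true :: w => wr w + 1
  | .sg _ false :: w => wr w - 1
  | .ta _ :: w => wr w

variable {K : Type} [Field K]

/-- The sum over the `m`-tuples of permutations of `c ^ (length)` times the value of `P` on the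
`k`-cable of `w` followed by the braid words of the permutations. -/
def raw (P : ℕ → List BL → K) (c : K) (k m : ℕ) (w : List BL) : K :=
  ((permsB k m).map fun p => c ^ p.1 * P (k * m) (cab k w ++ p.2)).sum

/-- The sum of `(s ^ 2) ^ (length)` over the permutations of `k` letters. -/
def nk (s : K) (k : ℕ) : K := ∏ j ∈ Finset.range k, ∑ i ∈ Finset.range (j + 1), (s ^ 2) ^ i

/-- The coloured HOMFLY polynomial. -/
noncomputable def col (P : ℕ → List BL → K) (a s : K) (k m : ℕ) (w : List BL) : K :=
  ((nk s k) ^ m)⁻¹ * ((a * s⁻¹) ^ (k * (k - 1))) ^ (wr w) * raw P (s * a) k m w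

end Words

/-! ### generic products in a ring -/

section Gen

variable {R : Type} [Ring R]

/-- `c (p + l - 1) * ... * c (p + 1) * c p`. -/
def Dp (c : ℕ → R) (p : ℕ) : ℕ → R
  | 0 => 1
  | l + 1 => c (p + l) * Dp c p l

/-- `c p * c (p + 1) * ... * c (p + l - 1)`. -/
def Up (c : ℕ → R) (p : ℕ) : ℕ → R
  | 0 => 1
  | l + 1 => Up c p l * c (p + l)

/-- The crossing of `p` strands and `q` strands: `Dp c x p * Dp c (x + 1) p * ... *
Dp c (x + q - 1) p`. -/
def Xp (c : ℕ → R) (x p : ℕ) : ℕ → R
  | 0 => 1
  | q + 1 => Xp c x p q * Dp c (x + q) p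

/-- The half twist on `k` strands. -/
def Hp (c : ℕ → R) (x : ℕ) : ℕ → R
  | 0 => 1
  | k + 1 => Hp c x k * Dp c x k

variable {K : Type} [Field K] [Algebra K R]

/-- The symmetrizer on `k` strands, as a product whose factors are sums of descending runs. -/
def Ap (r : K) (c : ℕ → R) (x : ℕ) : ℕ → R
  | 0 => 1
  | k + 1 => Ap r c x k * ∑ i ∈ Finset.range (k + 1), r ^ i • Dp c (x + k - i) i

/-- The symmetrizer, with ascending runs on the left. -/
def Bp (r : K) (c : ℕ → R) (x : ℕ) : ℕ → R
  | 0 => 1
  | k + 1 => (∑ i ∈ Finset.range (k + 1), r ^ i • Up c (x + k - i) i) * Bp r c x k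

/-- The letters `c` can be moved across the letters `y`. -/
structure Cmp (c y : ℕ → R) : Prop where
  far : ∀ i j, i + 2 ≤ j ∨ j + 2 ≤ i → c i * y j = y j * c i
  b1 : ∀ i, c (i + 1) * c i * y (i + 1) = y i * (c (i + 1) * c i)
  b2 : ∀ i, c i * c (i + 1) * y i = y (i + 1) * (c i * c (i + 1))

/-- The product of the symmetrizers of the bundles `0, ..., m - 1`. -/
def AA (r : K) (c : ℕ → R) (k : ℕ) : ℕ → R
  | 0 => 1
  | m + 1 => AA r c k m * Ap r c (k * m) k

/-- The product of the symmetrizers of the bundles `1, ..., m`. -/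
def AB (r : K) (c : ℕ → R) (k : ℕ) : ℕ → R
  | 0 => 1
  | m + 1 => AB r c k m * Ap r c (k * (m + 1)) k

end Gen

/-! ### the algebra of virtual webs with its normalized trace -/

/-- The generators without the label `b`. -/
def frGen {R : Type} (E S : ℕ → ℕ → R) (b : ℕ) : Set R :=
  {r | ∃ i j, i ≠ b ∧ j ≠ b ∧ ((i ≠ j ∧ r = E i j) ∨ r = S i j)}

/-- Algebras with wide edges `E i j`, exchanges `S i j` and a normalized trace. -/
structure VA (L : Type) [Field L] (lam : L) (n : ℕ) where
  R : Type
  [ring : Ring R]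
  [alg : Algebra L R]
  E : ℕ → ℕ → R
  S : ℕ → ℕ → R
  tr : R →ₗ[L] L
  one : tr 1 = 1
  cyc : ∀ x y, tr (x * y) = tr (y * x)
  ss : ∀ i j, S i j * S i j = 1
  sS : ∀ i j a b, S i j * S a b = S (Equiv.swap i j a) (Equiv.swap i j b) * S i j
  sE : ∀ i j a b, a ≠ b → S i j * E a b = E (Equiv.swap i j a) (Equiv.swap i j b) * S i j
  ee : ∀ i j a b, i ≠ j → a ≠ b → i ≠ a → i ≠ b → j ≠ a → j ≠ b →
    E i j * E a b = E a b * E i j
  es : ∀ i j, i ≠ j → E i j * S i j = E i j
  esym : ∀ i j, i ≠ j → E i j = E j i
  ssym : ∀ i j, S i j = S j i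
  e2 : ∀ i j, i ≠ j → E i j * E i j = (lam + lam⁻¹) • E i j
  tri : ∀ i j l, i ≠ j → i ≠ l → j ≠ l →
    E i j * E j l * E i j + E j l = E j l * E i j * E j l + E i j
  trS : ∀ b j x, j ≠ b → x ∈ Algebra.adjoin L (frGen E S b) →
    tr (x * S j b) = (qint lam n)⁻¹ * tr x
  trE : ∀ b j x, j ≠ b → x ∈ Algebra.adjoin L (frGen E S b) →
    tr (x * E j b) = (qint lam n)⁻¹ * qint lam (n - 1) * tr x
  exch : ∀ b p x y, p ≠ b → x ∈ Algebra.adjoin L (frGen E S b) →
    y ∈ Algebra.adjoin L (frGen E S b) →
    tr (x * E p b * y * E p b) =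
      (qint lam n)⁻¹ * qint lam (n - 2) * tr (x * y) + tr (x * S p b * y * S p b)

attribute [instance] VA.ring VA.alg

namespace VA

variable {L : Type} [Field L] {lam : L} {n : ℕ} (A : VA L lam n)

/-- The elements which do not involve the label `b`. -/
def Fr (b : ℕ) : Subalgebra L A.R := Algebra.adjoin L (frGen A.E A.S b)

/-- The positive crossing of `i`, `j` (without exchange). -/
def cr (i j : ℕ) : A.R := (lam⁻¹) ^ n • (lam • (1 : A.R) - A.E i j)

/-- The negative crossing of `i`, `j` (without exchange). -/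
def ci (i j : ℕ) : A.R := lam ^ n • (lam⁻¹ • (1 : A.R) - A.E i j)

/-- The pure crossing. -/
def rr (i j : ℕ) : A.R := A.cr i j * A.S i j

/-- The inverse of the pure crossing. -/
def ri (i j : ℕ) : A.R := A.S i j * A.ci i j

/-- The positive crossing of the strands in the positions `i`, `i + 1`. -/
def sp (i : ℕ) : A.R := A.cr i (i + 1)

/-- The negative crossing of the strands in the positions `i`, `i + 1`. -/
def sn (i : ℕ) : A.R := A.ci i (i + 1)

/-- The virtual crossing of the strands in the positions `i`, `i + 1`. -/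
def vt (i : ℕ) : A.R := A.S i (i + 1)

/-- The value of a letter. -/
def lt : BL → A.R
  | .sg i true => A.sp i
  | .sg i false => A.sn i
  | .ta i => A.vt i

/-- The value of a braid word. -/
def ev (w : List BL) : A.R := (w.map A.lt).prod

/-- The value of the cable of a letter. -/
def bl (k : ℕ) : BL → A.R
  | .sg i true => Xp A.sp (k * i) k k
  | .sg i false => Xp A.sn (k * i) k k
  | .ta i => Xp A.vt (k * i) k k

/-- The value of the cable of a word. -/
def bv (k : ℕ) (w : List BL) : A.R := (w.map (A.bl k)).prod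

/-- The weight of the length in the antisymmetrizer. -/
def cc (lam : L) (n : ℕ) : L := -lam⁻¹ * lam ^ n

/-- The eigenvalue of a positive crossing on the antisymmetrizer. -/
def mu (lam : L) (n : ℕ) : L := -lam⁻¹ * (lam⁻¹) ^ n

/-- The antisymmetrizer of the strands `x, ..., x + k - 1`. -/
def Y (x k : ℕ) : A.R := Ap (cc lam n) A.sp x k

/-- The antisymmetrizers of the bundles `0, ..., m - 1`. -/
def YY (k m : ℕ) : A.R := AA (cc lam n) A.sp k m

/-- The antisymmetrizers of the bundles `1, ..., m`. -/
def YB (k m : ℕ) : A.R := AB (cc lam n) A.sp k m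

/-- The coloured invariant of virtual braid closures. -/
noncomputable def G (k : ℕ) (D : ℕ × List BL) : L :=
  ((nk (-lam⁻¹) k) ^ D.1)⁻¹ * (qint lam n) ^ (k * D.1) *
    ((lam ^ n * (-lam⁻¹)⁻¹) ^ (k * (k - 1))) ^ (wr D.2) * A.tr (A.bv k D.2 * A.YY k D.1)

end VA

end CO
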