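import Pool.Agent.H61.CO.T2

/-!
# The algebra of virtual webs (row CO T3)

Proof.  Let `F = MonoidAlgebra K (FreeMonoid Lt)` and `T : F →ₗ[K] K` the linear extension of
`w ↦ t0 S w` (words are elements of the free monoid).  Define the ring congruence
`x ~ y ↔ ∀ u v : F, T (u * x * v) = T (u * y * v)` (`RingCon F`; it is an equivalence relation
compatible with `+` and `*`: `T (u (x x') v) = T (u x (x' v)) = T (u y (x' v)) = T ((u y) x' v) =
T ((u y) y' v)`), and let `R` be the quotient (a `K`-algebra).  By linearity (induction on
`u`, `v`) `x ~ y` follows from the equality for all words `u`, `v`.  `T` descends to `tr : R → K`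
(`u = v = 1`).  `E i j`, `S i j` are the classes of the letters.  All relations are then
`t0_ss`, `t0_sS`, ... of T1.  `cyc`: bilinear, for words it is `t0_cyc`.
`trS`, `trE`, `exch`: for `x` in `Algebra.adjoin K (frGen E S b)`:
`Algebra.adjoin_eq_span` : it is the span of the products of generators (`Submonoid.closure`), i.e.
of the classes of the words whose letters satisfy `frL b` (valid letters `E`); both sides are linear in
`x` (and `y`): `Submodule.span_induction`, and for words it is T2.
(If it is more convenient one can take for `R` any other realization, e.g. the algebra of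
operators on the quotient of `F` by `{x | ∀ u, T (u * x) = 0}`, or a quotient by a two-sided ideal.)
-/

namespace CO

open ZM

section T3Abs

variable {K : Type} [Field K]

/-- The element of a word. -/
noncomputable def t3_wd (K : Type) [Field K] (w : List Lt) : MonoidAlgebra K (FreeMonoid Lt) :=
  MonoidAlgebra.of K _ (FreeMonoid.ofList w)

lemma t3_wd_nil : t3_wd K [] = 1 := map_one _

lemma t3_wd_app (u v : List Lt) : t3_wd K (u ++ v) = t3_wd K u * t3_wd K v := by
  unfold t3_wd
  rw [FreeMonoid.ofList_append, map_mul]

/-- The linear extension of a functional on words. -/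
noncomputable def t3_T (t : List Lt → K) : MonoidAlgebra K (FreeMonoid Lt) →ₗ[K] K :=
  (Finsupp.linearCombination K (fun w : FreeMonoid Lt => t (FreeMonoid.toList w))) ∘ₗ
    (MonoidAlgebra.coeffLinearEquiv K).toLinearMap

lemma t3_T_wd (t : List Lt → K) (w : List Lt) : t3_T t (t3_wd K w) = t w := by
  simp [t3_T, t3_wd]

/-- The ring congruence. -/
def t3_con (t : List Lt → K) : RingCon (MonoidAlgebra K (FreeMonoid Lt)) where
  r x y := ∀ u v, t3_T t (u * x * v) = t3_T t (u * y * v)
  iseqv := ⟨fun _ _ _ => rfl, fun h u v => (h u v).symm, fun h h' u v => (h u v).trans (h' u v)⟩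
  mul' := by
    intro x y x' y' h h' u v
    calc t3_T t (u * (x * x') * v) = t3_T t (u * x * (x' * v)) := by simp only [mul_assoc]
      _ = t3_T t (u * y * (x' * v)) := h _ _
      _ = t3_T t ((u * y) * x' * v) := by simp only [mul_assoc]
      _ = t3_T t ((u * y) * y' * v) := h' _ _
      _ = t3_T t (u * (y * y') * v) := by simp only [mul_assoc]
  add' := by
    intro x y x' y' h h' u v
    simp only [mul_add, add_mul, map_add, h u v, h' u v]

/-- The trace on the quotient. -/
noncomputable def t3_tr (t : List Lt → K) : (t3_con t).Quotient →ₗ[K] K where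
  toFun q := Quotient.liftOn' q (t3_T t) (fun x y h => by simpa using h 1 1)
  map_add' := by rintro ⟨x⟩ ⟨y⟩; exact map_add (t3_T t) x y
  map_smul' := by rintro c ⟨x⟩; exact map_smul (t3_T t) c x

/-- The class of a word. -/
noncomputable def t3_q (t : List Lt → K) (w : List Lt) : (t3_con t).Quotient :=
  (t3_con t).mkₐ (α := K) (t3_wd K w)

lemma t3_tr_p (t : List Lt → K) (x : MonoidAlgebra K (FreeMonoid Lt)) :
    t3_tr t ((t3_con t).mkₐ (α := K) x) = t3_T t x := rfl

lemma t3_tr_q (t : List Lt → K) (w : List Lt) : t3_tr t (t3_q t w) = t w := by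
  unfold t3_q
  rw [t3_tr_p, t3_T_wd]

lemma t3_q_nil (t : List Lt → K) : t3_q t [] = 1 := by
  unfold t3_q
  rw [t3_wd_nil, map_one]

lemma t3_q_app (t : List Lt → K) (u v : List Lt) : t3_q t (u ++ v) = t3_q t u * t3_q t v := by
  unfold t3_q
  rw [t3_wd_app, map_mul]

lemma t3_span0 (x : MonoidAlgebra K (FreeMonoid Lt)) :
    x ∈ Submodule.span K (Set.range (t3_wd K)) := by
  induction x using MonoidAlgebra.induction_on with
  | of m => exact Submodule.subset_span ⟨FreeMonoid.toList m, rfl⟩
  | add x y hx hy => exact Submodule.add_mem _ hx hy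
  | smul r x hx => exact Submodule.smul_mem _ r hx

lemma t3_span (t : List Lt → K) (x : (t3_con t).Quotient) :
    x ∈ Submodule.span K (Set.range (t3_q t)) := by
  obtain ⟨y, rfl⟩ := RingCon.mkₐ_surjective (α := K) (t3_con t) x
  have h := Submodule.mem_map_of_mem (f := ((t3_con t).mkₐ (α := K)).toLinearMap) (t3_span0 y)
  rw [Submodule.map_span] at h
  refine Submodule.span_mono ?_ h
  rintro _ ⟨_, ⟨w, rfl⟩, rfl⟩
  exact ⟨w, rfl⟩

lemma t3_rel (t : List Lt → K) (x y : (t3_con t).Quotient)
    (h : ∀ u v : List Lt, t3_tr t (t3_q t u * x * t3_q t v) = t3_tr t (t3_q t u * y * t3_q t v)) :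
    x = y := by
  have h1 : ∀ a b : (t3_con t).Quotient, t3_tr t (a * x * b) = t3_tr t (a * y * b) := by
    intro a b
    induction t3_span t a using Submodule.span_induction with
    | mem a ha =>
      obtain ⟨u, rfl⟩ := ha
      induction t3_span t b using Submodule.span_induction with
      | mem b hb =>
        obtain ⟨v, rfl⟩ := hb
        exact h u v
      | zero => simp
      | add b b' _ _ hb hb' => simp only [mul_add, map_add, hb, hb']
      | smul c b _ hb => simp only [mul_smul_comm, map_smul, hb]
    | zero => simp
    | add a a' _ _ ha ha' => simp only [add_mul, map_add, ha, ha']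
    | smul c a _ ha => simp only [smul_mul_assoc, map_smul, ha]
  obtain ⟨x', rfl⟩ := RingCon.mkₐ_surjective (α := K) (t3_con t) x
  obtain ⟨y', rfl⟩ := RingCon.mkₐ_surjective (α := K) (t3_con t) y
  refine Quotient.sound' ?_
  intro u v
  have h2 := h1 ((t3_con t).mkₐ (α := K) u) ((t3_con t).mkₐ (α := K) v)
  simpa only [← map_mul, t3_tr_p] using h2

lemma t3_cyc (t : List Lt → K) (ht : ∀ u v, t (u ++ v) = t (v ++ u))
    (x y : (t3_con t).Quotient) : t3_tr t (x * y) = t3_tr t (y * x) := by
  induction t3_span t x using Submodule.span_induction with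
  | mem a ha =>
    obtain ⟨u, rfl⟩ := ha
    induction t3_span t y using Submodule.span_induction with
    | mem b hb =>
      obtain ⟨v, rfl⟩ := hb
      rw [← t3_q_app, ← t3_q_app, t3_tr_q, t3_tr_q, ht]
    | zero => simp
    | add b b' _ _ hb hb' => simp only [mul_add, add_mul, map_add, hb, hb']
    | smul c b _ hb => simp only [mul_smul_comm, smul_mul_assoc, map_smul, hb]
  | zero => simp
  | add a a' _ _ ha ha' => simp only [mul_add, add_mul, map_add, ha, ha']
  | smul c a _ ha => simp only [mul_smul_comm, smul_mul_assoc, map_smul, ha]

lemma t3_adj (t : List Lt → K) (b : ℕ) (x : (t3_con t).Quotient)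
    (hx : x ∈ Algebra.adjoin K (frGen (fun i j => t3_q t [.E i j]) (fun i j => t3_q t [.S i j]) b)) :
    x ∈ Submodule.span K {r | ∃ w : List Lt, (∀ a ∈ w, frL b a) ∧ r = t3_q t w} := by
  rw [← Subalgebra.mem_toSubmodule, Algebra.adjoin_eq_span] at hx
  refine Submodule.span_mono ?_ hx
  intro y hy
  induction hy using Submonoid.closure_induction with
  | mem y hy =>
    obtain ⟨i, j, hi, hj, h⟩ := hy
    rcases h with ⟨_, rfl⟩ | rfl
    · refine ⟨[.E i j], ?_, rfl⟩
      intro a ha
      rw [List.mem_singleton] at ha
      subst ha
      exact ⟨hi, hj⟩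
    · refine ⟨[.S i j], ?_, rfl⟩
      intro a ha
      rw [List.mem_singleton] at ha
      subst ha
      exact ⟨hi, hj⟩
  | one => exact ⟨[], by simp, (t3_q_nil t).symm⟩
  | mul y z _ _ hy hz =>
    obtain ⟨u, hu, rfl⟩ := hy
    obtain ⟨v, hv, rfl⟩ := hz
    refine ⟨u ++ v, ?_, (t3_q_app t u v).symm⟩
    intro a ha
    rcases List.mem_append.1 ha with ha | ha
    · exact hu a ha
    · exact hv a ha

end T3Abs

theorem va_mk {K : Type} [Field K] {lam : K} {n : ℕ} (S : TraceSys K lam n)
    (hd : qint lam n ≠ 0) :
    ∃ A : VA K lam n, ∀ w : List Lt, A.tr ((w.map A.lL).prod) = t0 S w := by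
  let A : VA K lam n :=
    { R := (t3_con (t0 S)).Quotient
      E := fun i j => t3_q (t0 S) [.E i j]
      S := fun i j => t3_q (t0 S) [.S i j]
      tr := t3_tr (t0 S)
      one := by rw [← t3_q_nil, t3_tr_q, t0_nil]
      cyc := t3_cyc (t0 S) (t0_cyc S hd)
      ss := by
        intro i j
        refine t3_rel _ _ _ fun u v => ?_
        have h := t0_ss S hd u v i j
        rw [← t3_q_nil]
        simp only [← t3_q_app, t3_tr_q]
        simpa using h
      sS := by
        intro i j a b
        refine t3_rel _ _ _ fun u v => ?_
        have h := t0_sS S hd u v i j a b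
        simp only [← t3_q_app, t3_tr_q]
        simpa using h
      sE := by
        intro i j a b hab
        refine t3_rel _ _ _ fun u v => ?_
        have h := t0_sE S hd u v i j a b hab
        simp only [← t3_q_app, t3_tr_q]
        simpa using h
      ee := by
        intro i j a b h1 h2 h3 h4 h5 h6
        refine t3_rel _ _ _ fun u v => ?_
        have h := t0_ee S hd u v i j a b h1 h2 h3 h4 h5 h6
        simp only [← t3_q_app, t3_tr_q]
        simpa using h
      es := by
        intro i j hij
        refine t3_rel _ _ _ fun u v => ?_
        have h := t0_es S hd u v i j hij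
        simp only [← t3_q_app, t3_tr_q]
        simpa using h
      esym := by
        intro i j hij
        refine t3_rel _ _ _ fun u v => ?_
        have h := t0_esym S hd u v i j hij
        simp only [← t3_q_app, t3_tr_q]
        simpa using h
      ssym := by
        intro i j
        refine t3_rel _ _ _ fun u v => ?_
        have h := t0_ssym S hd u v i j
        simp only [← t3_q_app, t3_tr_q]
        simpa using h
      e2 := by
        intro i j hij
        refine t3_rel _ _ _ fun u v => ?_
        have h := t0_e2 S hd u v i j hij
        simp only [mul_smul_comm, smul_mul_assoc, map_smul, ← t3_q_app, t3_tr_q, smul_eq_mul]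
        simpa using h
      tri := by
        intro i j l h1 h2 h3
        refine t3_rel _ _ _ fun u v => ?_
        have h := t0_tri S hd u v i j l h1 h2 h3
        simp only [mul_add, add_mul, map_add, ← t3_q_app, t3_tr_q]
        simpa using h
      trS := by
        intro b j x hj hx
        have hx' := t3_adj _ b x hx
        clear hx
        induction hx' using Submodule.span_induction with
        | mem a ha =>
          obtain ⟨w, hw, rfl⟩ := ha
          rw [← t3_q_app, t3_tr_q, t3_tr_q]
          exact t0_trS S hd b j w hj hw
        | zero => simp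
        | add a a' _ _ ha ha' => rw [add_mul, map_add, map_add, ha, ha']; ring
        | smul c a _ ha =>
          rw [smul_mul_assoc, map_smul, map_smul, ha, smul_eq_mul, smul_eq_mul]; ring
      trE := by
        intro b j x hj hx
        have hx' := t3_adj _ b x hx
        clear hx
        induction hx' using Submodule.span_induction with
        | mem a ha =>
          obtain ⟨w, hw, rfl⟩ := ha
          rw [← t3_q_app, t3_tr_q, t3_tr_q]
          exact t0_trE S hd b j w hj hw
        | zero => simp
        | add a a' _ _ ha ha' => rw [add_mul, map_add, map_add, ha, ha']; ring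
        | smul c a _ ha =>
          rw [smul_mul_assoc, map_smul, map_smul, ha, smul_eq_mul, smul_eq_mul]; ring
      exch := by
        intro b p x y hp hx hy
        have hx' := t3_adj _ b x hx
        have hy' := t3_adj _ b y hy
        clear hx hy
        induction hx' using Submodule.span_induction with
        | mem a ha =>
          obtain ⟨w, hw, rfl⟩ := ha
          induction hy' using Submodule.span_induction with
          | mem a' ha' =>
            obtain ⟨w', hw', rfl⟩ := ha'
            simp only [← t3_q_app, t3_tr_q]
            exact t0_exch S hd b p w w' hp hw hw'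
          | zero => simp
          | add a a' _ _ ha ha' =>
            simp only [add_mul, mul_add, map_add] at ha ha' ⊢
            rw [ha, ha']; ring
          | smul c a _ ha =>
            simp only [smul_mul_assoc, mul_smul_comm, map_smul, smul_eq_mul] at ha ⊢
            rw [ha]; ring
        | zero => simp
        | add a a' _ _ ha ha' =>
          simp only [add_mul, mul_add, map_add] at ha ha' ⊢
          rw [ha, ha']; ring
        | smul c a _ ha =>
          simp only [smul_mul_assoc, mul_smul_comm, map_smul, smul_eq_mul] at ha ⊢
          rw [ha]; ring }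
  refine ⟨A, fun w => ?_⟩
  have h : (w.map A.lL).prod = t3_q (t0 S) w := by
    induction w with
    | nil => exact (t3_q_nil _).symm
    | cons a w ih =>
      rw [List.map_cons, List.prod_cons, ih]
      have h2 : t3_q (t0 S) (a :: w) = t3_q (t0 S) [a] * t3_q (t0 S) w := t3_q_app _ [a] w
      rw [h2]
      cases a <;> rfl
  rw [h]
  exact t3_tr_q _ w

end CO
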