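import Pool.Agent.H61.CO.Defs

/-!
# Basic lemmas on the products `Dp`, `Up`, `Xp`, `Hp`, `Ap` (proved)
-/

namespace CO

open ZM

lemma dsc_map {α β : Type} (f : α → β) (c : ℕ → α) (p l : ℕ) :
    (dsc c p l).map f = dsc (fun i => f (c i)) p l := by
  induction l with
  | zero => rfl
  | succ l ih => simp only [dsc, List.map_cons, ih]

lemma crs_map {α β : Type} (f : α → β) (c : ℕ → α) (x p q : ℕ) :
    (crs c x p q).map f = crs (fun i => f (c i)) x p q := by
  induction q with
  | zero => rfl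
  | succ q ih => simp only [crs, List.map_append, ih, dsc_map]

section Gen

variable {R : Type} [Ring R]

lemma dsc_prod (c : ℕ → R) (p l : ℕ) : (dsc c p l).prod = Dp c p l := by
  induction l with
  | zero => rfl
  | succ l ih => simp only [dsc, Dp, List.prod_cons, ih]

lemma crs_prod (c : ℕ → R) (x p q : ℕ) : (crs c x p q).prod = Xp c x p q := by
  induction q with
  | zero => rfl
  | succ q ih => simp only [crs, Xp, List.prod_append, ih, dsc_prod]

@[simp] lemma Dp_zero (c : ℕ → R) (p : ℕ) : Dp c p 0 = 1 := rfl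

@[simp] lemma Up_zero (c : ℕ → R) (p : ℕ) : Up c p 0 = 1 := rfl

@[simp] lemma Xp_zero (c : ℕ → R) (x p : ℕ) : Xp c x p 0 = 1 := rfl

lemma Dp_succ (c : ℕ → R) (p l : ℕ) : Dp c p (l + 1) = c (p + l) * Dp c p l := rfl

lemma Up_succ (c : ℕ → R) (p l : ℕ) : Up c p (l + 1) = Up c p l * c (p + l) := rfl

lemma Xp_succ (c : ℕ → R) (x p q : ℕ) : Xp c x p (q + 1) = Xp c x p q * Dp c (x + q) p := rfl

lemma Hp_succ (c : ℕ → R) (x k : ℕ) : Hp c x (k + 1) = Hp c x k * Dp c x k := rfl

lemma Dp_succ' (c : ℕ → R) (p l : ℕ) : Dp c p (l + 1) = Dp c (p + 1) l * c p := by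
  induction l with
  | zero => simp [Dp]
  | succ l ih =>
    rw [Dp_succ c p (l + 1), ih, Dp_succ c (p + 1) l, ← mul_assoc,
      show p + (l + 1) = p + 1 + l by omega]

lemma Up_succ' (c : ℕ → R) (p l : ℕ) : Up c p (l + 1) = c p * Up c (p + 1) l := by
  induction l with
  | zero => simp [Up]
  | succ l ih =>
    rw [Up_succ c p (l + 1), ih, Up_succ c (p + 1) l, ← mul_assoc,
      show p + (l + 1) = p + 1 + l by omega]

lemma Dp_add (c : ℕ → R) (p l m : ℕ) : Dp c p (l + m) = Dp c (p + l) m * Dp c p l := by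
  induction m with
  | zero => simp
  | succ m ih =>
    rw [← Nat.add_assoc, Dp_succ, ih, Dp_succ, ← mul_assoc, show p + (l + m) = p + l + m by omega]

lemma Dp_shift (c : ℕ → R) (d p l : ℕ) : Dp (fun i => c (i + d)) p l = Dp c (p + d) l := by
  induction l with
  | zero => rfl
  | succ l ih => rw [Dp_succ, Dp_succ, ih, show p + l + d = p + d + l by omega]

lemma Up_shift (c : ℕ → R) (d p l : ℕ) : Up (fun i => c (i + d)) p l = Up c (p + d) l := by
  induction l with
  | zero => rfl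
  | succ l ih => rw [Up_succ, Up_succ, ih, show p + l + d = p + d + l by omega]

lemma Xp_shift (c : ℕ → R) (d x p q : ℕ) :
    Xp (fun i => c (i + d)) x p q = Xp c (x + d) p q := by
  induction q with
  | zero => rfl
  | succ q ih => rw [Xp_succ, Xp_succ, ih, Dp_shift, show x + q + d = x + d + q by omega]

lemma Hp_shift (c : ℕ → R) (d x k : ℕ) : Hp (fun i => c (i + d)) x k = Hp c (x + d) k := by
  induction k with
  | zero => rfl
  | succ k ih => rw [Hp_succ, Hp_succ, ih, Dp_shift]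

lemma Dp_congr {c c' : ℕ → R} {p l : ℕ} (h : ∀ i, p ≤ i → i < p + l → c i = c' i) :
    Dp c p l = Dp c' p l := by
  induction l with
  | zero => rfl
  | succ l ih =>
    rw [Dp_succ, Dp_succ, h (p + l) (by omega) (by omega), ih fun i h1 h2 => h i h1 (by omega)]

lemma Xp_zero_left (c : ℕ → R) (x q : ℕ) : Xp c x 0 q = 1 := by
  induction q with
  | zero => rfl
  | succ q ih => rw [Xp_succ, ih, Dp_zero, mul_one]

/-! transport: `g * y1 i = y2 i * g` for all `i` with `lo ≤ i < hi` -/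

variable {g : R} {y1 y2 : ℕ → R} {lo hi : ℕ}

lemma tw_D (h : ∀ i, lo ≤ i → i < hi → g * y1 i = y2 i * g) (p l : ℕ) (h1 : lo ≤ p)
    (h2 : p + l ≤ hi) : g * Dp y1 p l = Dp y2 p l * g := by
  induction l with
  | zero => simp
  | succ l ih =>
    rw [Dp_succ, Dp_succ, ← mul_assoc, h (p + l) (by omega) (by omega), mul_assoc,
      ih (by omega), mul_assoc]

lemma tw_U (h : ∀ i, lo ≤ i → i < hi → g * y1 i = y2 i * g) (p l : ℕ) (h1 : lo ≤ p)
    (h2 : p + l ≤ hi) : g * Up y1 p l = Up y2 p l * g := by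
  induction l with
  | zero => simp
  | succ l ih =>
    rw [Up_succ, Up_succ, ← mul_assoc, ih (by omega), mul_assoc, h (p + l) (by omega) (by omega),
      ← mul_assoc]

lemma tw_X (h : ∀ i, lo ≤ i → i < hi → g * y1 i = y2 i * g) (x p q : ℕ) (h1 : lo ≤ x)
    (h2 : x + p + q ≤ hi + 1) : g * Xp y1 x p q = Xp y2 x p q * g := by
  induction q with
  | zero => simp
  | succ q ih =>
    rw [Xp_succ, Xp_succ, ← mul_assoc, ih (by omega), mul_assoc,
      tw_D h (x + q) p (by omega) (by omega), ← mul_assoc]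

lemma tw_H (h : ∀ i, lo ≤ i → i < hi → g * y1 i = y2 i * g) (x k : ℕ) (h1 : lo ≤ x)
    (h2 : x + k ≤ hi + 1) : g * Hp y1 x k = Hp y2 x k * g := by
  induction k with
  | zero => simp [Hp]
  | succ k ih =>
    rw [Hp_succ, Hp_succ, ← mul_assoc, ih (by omega), mul_assoc,
      tw_D h x k (by omega) (by omega), ← mul_assoc]

variable {K : Type} [Field K] [Algebra K R]

lemma Ap_succ (r : K) (c : ℕ → R) (x k : ℕ) : Ap r c x (k + 1) =
    Ap r c x k * ∑ i ∈ Finset.range (k + 1), r ^ i • Dp c (x + k - i) i := rfl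

lemma Bp_succ (r : K) (c : ℕ → R) (x k : ℕ) : Bp r c x (k + 1) =
    (∑ i ∈ Finset.range (k + 1), r ^ i • Up c (x + k - i) i) * Bp r c x k := rfl

lemma tw_A (r : K) (h : ∀ i, lo ≤ i → i < hi → g * y1 i = y2 i * g) (x k : ℕ) (h1 : lo ≤ x)
    (h2 : x + k ≤ hi + 1) : g * Ap r y1 x k = Ap r y2 x k * g := by
  induction k with
  | zero => simp [Ap]
  | succ k ih =>
    have e : g * ∑ i ∈ Finset.range (k + 1), r ^ i • Dp y1 (x + k - i) i =
        (∑ i ∈ Finset.range (k + 1), r ^ i • Dp y2 (x + k - i) i) * g := by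
      rw [Finset.mul_sum, Finset.sum_mul]
      refine Finset.sum_congr rfl fun i hi => ?_
      have hi' : i ≤ k := Nat.lt_succ_iff.mp (Finset.mem_range.mp hi)
      rw [mul_smul_comm, smul_mul_assoc, tw_D h (x + k - i) i (by omega) (by omega)]
    rw [Ap_succ, Ap_succ, ← mul_assoc, ih (by omega), mul_assoc, e, ← mul_assoc]

lemma Ap_shift (r : K) (c : ℕ → R) (d x k : ℕ) :
    Ap r (fun i => c (i + d)) x k = Ap r c (x + d) k := by
  induction k with
  | zero => rfl
  | succ k ih =>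
    rw [Ap_succ, Ap_succ, ih]
    congr 1
    refine Finset.sum_congr rfl fun i hi => ?_
    have hi' : i ≤ k := Nat.lt_succ_iff.mp (Finset.mem_range.mp hi)
    rw [Dp_shift, show x + k - i + d = x + d + k - i by omega]

end Gen

/-! ### values of words -/

namespace VA

variable {L : Type} [Field L] {lam : L} {n : ℕ} (A : VA L lam n)

@[simp] lemma ev_nil : A.ev [] = 1 := rfl

lemma ev_cons (a : BL) (w : List BL) : A.ev (a :: w) = A.lt a * A.ev w := by
  simp [ev]

lemma ev_append (u v : List BL) : A.ev (u ++ v) = A.ev u * A.ev v := by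
  simp [ev]

@[simp] lemma bv_nil (k : ℕ) : A.bv k [] = 1 := rfl

lemma bv_cons (k : ℕ) (a : BL) (w : List BL) : A.bv k (a :: w) = A.bl k a * A.bv k w := by
  simp [bv]

lemma bv_append (k : ℕ) (u v : List BL) : A.bv k (u ++ v) = A.bv k u * A.bv k v := by
  simp [bv]

lemma ev_cabL (k : ℕ) (a : BL) : A.ev (cabL k a) = A.bl k a := by
  rcases a with ⟨i, s⟩ | i
  · cases s
    · exact (congrArg List.prod (crs_map _ _ _ _ _)).trans (crs_prod _ _ _ _)
    · exact (congrArg List.prod (crs_map _ _ _ _ _)).trans (crs_prod _ _ _ _)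
  · exact (congrArg List.prod (crs_map _ _ _ _ _)).trans (crs_prod _ _ _ _)

lemma ev_cab (k : ℕ) (w : List BL) : A.ev (cab k w) = A.bv k w := by
  induction w with
  | nil => rfl
  | cons a w ih =>
    rw [bv_cons, ← ih, ← ev_cabL, ← ev_append]
    rfl

lemma ev_dsc (x i : ℕ) : A.ev (dsc (fun j => BL.sg j true) x i) = Dp A.sp x i :=
  (congrArg List.prod (dsc_map _ _ _ _)).trans (dsc_prod _ _ _)

end VA

end CO
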