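import Pool.Agent.H61.CO.T1
import Pool.Agent.H61.CO.Hb
import Pool.Agent.H75.ZM.BrLoc

/-!
# The values of braid words (row CO T4)

Proof of `ext_va`: for every linear `φ : A.R →ₗ[K] K`,
`ext lam n (fun x => φ ((x.map A.lL).prod)) w = φ (A.ev w)`: induction on `w` for all `φ`, with
`ext` of `Pool/Agent/H75/ZM/BrExt.lean`: e.g. for the first letter `sg i true` the left side is
`(lam⁻¹)^n * (lam * φ (ev w) - φ (E i (i+1) * ev w))`, where the second term is the induction
hypothesis for `φ' r = φ (E i (i+1) * r)`, and this is `φ (sp i * ev w)`.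
`bP_va`: `bP S (m, w) = ext lam n (S.tr m) w`, `ext_congr` with `S.tr m x = (qint lam n)^m * t0 S x`
for `Ok m x` (`t0_ok`), `= (qint lam n)^m * A.tr ((x.map A.lL).prod)`, and `ext_va`.
-/

namespace CO

open ZM

section

variable {K : Type} [Field K] {lam : K} {n : ℕ} (A : VA K lam n)

lemma ext_va (φ : A.R →ₗ[K] K) (w : List BL) :
    ext lam n (fun x => φ ((x.map A.lL).prod)) w = φ (A.ev w) := by
  induction w generalizing φ with
  | nil => simp [ext]
  | cons a w ih =>
    have hE : ∀ i, ext lam n (fun x => φ (((Lt.E i (i + 1) :: x).map A.lL).prod)) w =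
        φ (A.E i (i + 1) * A.ev w) := by
      intro i
      have := ih (φ.comp (LinearMap.mulLeft K (A.E i (i + 1))))
      simpa [VA.lL] using this
    have hS : ∀ i, ext lam n (fun x => φ (((Lt.S i (i + 1) :: x).map A.lL).prod)) w =
        φ (A.S i (i + 1) * A.ev w) := by
      intro i
      have := ih (φ.comp (LinearMap.mulLeft K (A.S i (i + 1))))
      simpa [VA.lL] using this
    rw [A.ev_cons]
    rcases a with ⟨i, s⟩ | i
    · cases s
      · rw [ext, hE, ih φ]
        show _ = φ (A.ci i (i + 1) * A.ev w)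
        rw [VA.ci, smul_mul_assoc, sub_mul, smul_mul_assoc, one_mul, map_smul, map_sub, map_smul]
        rfl
      · rw [ext, hE, ih φ]
        show _ = φ (A.cr i (i + 1) * A.ev w)
        rw [VA.cr, smul_mul_assoc, sub_mul, smul_mul_assoc, one_mul, map_smul, map_sub, map_smul]
        rfl
    · rw [ext, hS]
      rfl

theorem bP_va (S : TraceSys K lam n) (hd : qint lam n ≠ 0)
    (hA : ∀ w : List Lt, A.tr ((w.map A.lL).prod) = t0 S w) {m : ℕ} {w : List BL}
    (hw : BOk m w) : bP S (m, w) = (qint lam n) ^ m * A.tr (A.ev w) := by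
  have h1 : bP S (m, w) = ext lam n (fun x => (qint lam n) ^ m *
      A.tr ((x.map A.lL).prod)) w := by
    refine ext_congr hw fun x hx => ?_
    rw [hA, t0_ok S hd hx, ← mul_assoc, mul_inv_cancel₀ (pow_ne_zero _ hd), one_mul]
  rw [h1, ext_mul, ext_va]

end

end CO
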