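import Pool.Agent.H61.CO.C1
import Pool.Agent.H75.ZM.HoU

/-!
# The coloured polynomial is a universal Laurent polynomial (row CO U1)

Proof of `raw_univ`.  For each `p` in the list `permsB k m` the word `cab k w ++ p.2` is classical and
`BOk (k m)` (C1), `1 ≤ k m`; so `homfly_unique` gives `N_p`, `F_p` (three variables) with
`z^N_p * P (k m) (cab k w ++ p.2) = F_p (a, a⁻¹, z)`, `z = s - s⁻¹`.  Substituting
`z = s - s⁻¹` (`MvPolynomial.aeval`/`bind₁` with `![X 0, X 1, X 2 - X 3]`) gives a polynomial in the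
four variables `a, a⁻¹, s, s⁻¹`.  The predicate on lists `l` of pairs
`∃ N F, ∀ K a s P, ... z^N * ∑_{p ∈ l} (s a)^p.1 * P (k m) (cab k w ++ p.2) = F (a, a⁻¹, s, s⁻¹)` is
proved by induction on the list: `N = N_1 + N_2`, `F = (X 2 - X 3)^N_2 * (X 2 * X 0)^p.1 * F_1 +
(X 2 - X 3)^N_1 * F_2`.
-/

namespace CO

open ZM

lemma u1_sub (F : MvPolynomial (Fin 3) ℤ) :
    ∃ G : MvPolynomial (Fin 4) ℤ, ∀ (K : Type) [Field K] (a s : K),
      MvPolynomial.aeval ![a, a⁻¹, s - s⁻¹] F = MvPolynomial.aeval ![a, a⁻¹, s, s⁻¹] G := by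
  refine ⟨MvPolynomial.bind₁ ![MvPolynomial.X 0, MvPolynomial.X 1,
    MvPolynomial.X 2 - MvPolynomial.X 3] F, ?_⟩
  intro K _ a s
  rw [MvPolynomial.aeval_bind₁]
  have h : (fun i => (MvPolynomial.aeval ![a, a⁻¹, s, s⁻¹])
      ((![MvPolynomial.X 0, MvPolynomial.X 1, MvPolynomial.X 2 - MvPolynomial.X 3] :
        Fin 3 → MvPolynomial (Fin 4) ℤ) i)) = ![a, a⁻¹, s - s⁻¹] := by
    funext i
    fin_cases i <;> simp
  rw [h]

lemma u1_list {k m : ℕ} (hkm : 1 ≤ k * m) (u : List BL) : ∀ l : List (ℕ × List BL),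
    (∀ p ∈ l, Classical (u ++ p.2) ∧ BOk (k * m) (u ++ p.2)) →
    ∃ (N : ℕ) (F : MvPolynomial (Fin 4) ℤ), ∀ (K : Type) [Field K] (a s : K)
      (P : ℕ → List BL → K), a ≠ 0 → Homfly K a (s - s⁻¹) P →
        (s - s⁻¹) ^ N * (l.map fun p => (s * a) ^ p.1 * P (k * m) (u ++ p.2)).sum =
          MvPolynomial.aeval ![a, a⁻¹, s, s⁻¹] F
  | [], _ => ⟨0, 0, fun K _ a s P _ _ => by simp⟩
  | p :: l, h => by
    obtain ⟨N2, F2, h2⟩ := u1_list hkm u l fun q hq => h q (List.mem_cons_of_mem _ hq)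
    obtain ⟨hc, hb⟩ := h p List.mem_cons_self
    obtain ⟨N1, F0, h0⟩ := homfly_unique hkm hc hb
    obtain ⟨F1, h1⟩ := u1_sub F0
    refine ⟨N1 + N2, (MvPolynomial.X 2 - MvPolynomial.X 3) ^ N2 *
      (MvPolynomial.X 2 * MvPolynomial.X 0) ^ p.1 * F1 +
      (MvPolynomial.X 2 - MvPolynomial.X 3) ^ N1 * F2, ?_⟩
    intro K _ a s P ha hP
    have e0 := h0 K a (s - s⁻¹) P ha hP
    rw [h1 K a s] at e0
    have e2 := h2 K a s P ha hP
    have x0 : MvPolynomial.aeval (R := ℤ) ![a, a⁻¹, s, s⁻¹] (MvPolynomial.X 0) = a := by simp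
    have x2 : MvPolynomial.aeval (R := ℤ) ![a, a⁻¹, s, s⁻¹] (MvPolynomial.X 2) = s := by simp
    have x3 : MvPolynomial.aeval (R := ℤ) ![a, a⁻¹, s, s⁻¹] (MvPolynomial.X 3) = s⁻¹ := by simp
    rw [map_add, map_mul, map_mul, map_mul, map_pow, map_pow, map_pow, map_sub, map_mul,
      x0, x2, x3, ← e0, ← e2, List.map_cons, List.sum_cons]
    ring

theorem raw_univ {k m : ℕ} (hk : 1 ≤ k) (hm : 1 ≤ m) {w : List BL} (hc : Classical w)
    (hw : BOk m w) :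
    ∃ (N : ℕ) (F : MvPolynomial (Fin 4) ℤ), ∀ (K : Type) [Field K] (a s : K)
      (P : ℕ → List BL → K), a ≠ 0 → Homfly K a (s - s⁻¹) P →
        (s - s⁻¹) ^ N * raw P (s * a) k m w = MvPolynomial.aeval ![a, a⁻¹, s, s⁻¹] F := by
  have hkm : 1 ≤ k * m := Nat.one_le_iff_ne_zero.mpr (Nat.mul_ne_zero (by omega) (by omega))
  refine u1_list hkm (cab k w) (permsB k m) ?_
  intro p hp
  obtain ⟨h1, h2⟩ := permsB_ok k m p hp
  refine ⟨?_, ?_⟩
  · intro x hx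
    rcases List.mem_append.mp hx with h | h
    · exact cab_classical k hc x h
    · exact h1 x h
  · intro x hx
    rcases List.mem_append.mp hx with h | h
    · exact cab_ok k m hw x h
    · exact h2 x h

end CO
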