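import Pool.Agent.H61.CO.W4
import Pool.Agent.H61.CO.T3
import Pool.Agent.H61.CO.T4
import Pool.Agent.H61.CO.C2
import Pool.Agent.H61.CO.U1
import Pool.Agent.H61.CO.D1
import Pool.Agent.H75.ZM.HoM

/-!
# Coloured HOMFLY polynomials are invariant under crossing virtualization
-/

namespace CO

open ZM

private lemma fin_X_pow {r : ℕ} (hr : 1 ≤ r) : (RatFunc.X : RatFunc ℚ) ^ r ≠ 1 := by
  intro h
  have e : algebraMap (Polynomial ℚ) (RatFunc ℚ) (Polynomial.X ^ r) =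
      algebraMap (Polynomial ℚ) (RatFunc ℚ) 1 := by
    rw [map_pow, RatFunc.algebraMap_X, map_one, h]
  have e2 := RatFunc.algebraMap_injective ℚ e
  have e3 := congrArg Polynomial.natDegree e2
  rw [Polynomial.natDegree_X_pow, Polynomial.natDegree_one] at e3
  omega

private lemma fin_two : (RatFunc.X : RatFunc ℚ) + (RatFunc.X)⁻¹ ≠ 0 := by
  intro h
  have hX : (RatFunc.X : RatFunc ℚ) ≠ 0 := RatFunc.X_ne_zero
  have e : (RatFunc.X : RatFunc ℚ) ^ 2 = -1 := by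
    have e1 : (RatFunc.X : RatFunc ℚ) * ((RatFunc.X : RatFunc ℚ) + (RatFunc.X)⁻¹) = 0 := by
      rw [h, mul_zero]
    rw [mul_add, mul_inv_cancel₀ hX] at e1
    linear_combination e1
  exact fin_X_pow (r := 4) (by norm_num) (by
    calc (RatFunc.X : RatFunc ℚ) ^ 4 = ((RatFunc.X : RatFunc ℚ) ^ 2) ^ 2 := by ring
      _ = 1 := by rw [e]; ring)

private lemma fin_nk (k : ℕ) : nk (-(RatFunc.X : RatFunc ℚ)⁻¹) k ≠ 0 := by
  have hX : (RatFunc.X : RatFunc ℚ) ≠ 0 := RatFunc.X_ne_zero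
  rw [nk, Finset.prod_ne_zero_iff]
  intro j _ h
  have e := geom_sum_mul ((-(RatFunc.X : RatFunc ℚ)⁻¹) ^ 2) (j + 1)
  rw [h, zero_mul] at e
  have e1 : ((-(RatFunc.X : RatFunc ℚ)⁻¹) ^ 2) ^ (j + 1) = 1 := by linear_combination -e
  have e2 : ((RatFunc.X : RatFunc ℚ) ^ (2 * (j + 1)))⁻¹ = 1 := by
    rw [← e1, neg_sq, ← pow_mul, inv_pow]
  exact fin_X_pow (r := 2 * (j + 1)) (by omega) (inv_eq_one.mp e2)

/-- The polynomial of `nk`. -/
private noncomputable def fin_np (k : ℕ) : MvPolynomial (Fin 4) ℤ :=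
  ∏ j ∈ Finset.range k, ∑ i ∈ Finset.range (j + 1), (MvPolynomial.X 2 ^ 2) ^ i

private lemma fin_np_aeval {K : Type} [Field K] [Algebra ℤ K] (a b s t : K) (k : ℕ) :
    MvPolynomial.aeval ![a, b, s, t] (fin_np k) = nk s k := by
  unfold fin_np nk
  rw [map_prod]
  refine Finset.prod_congr rfl fun j _ => ?_
  rw [map_sum]
  refine Finset.sum_congr rfl fun i _ => ?_
  rw [map_pow, map_pow, MvPolynomial.aeval_X]
  rfl

/-- The cross-multiplied difference. -/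
private noncomputable def fin_G (k m m' u v N N' : ℕ) (F F' : MvPolynomial (Fin 4) ℤ) :
    MvPolynomial (Fin 4) ℤ :=
  fin_np k ^ m' * ((MvPolynomial.X 0 * MvPolynomial.X 3) ^ (k * (k - 1))) ^ u *
      (MvPolynomial.X 2 - MvPolynomial.X 3) ^ N' * F -
    fin_np k ^ m * ((MvPolynomial.X 0 * MvPolynomial.X 3) ^ (k * (k - 1))) ^ v *
      (MvPolynomial.X 2 - MvPolynomial.X 3) ^ N * F'

private lemma fin_hod {K : Type} [Field K] [Algebra ℤ K] (v : Fin 4 → K)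
    (G : MvPolynomial (Fin 4) ℤ) :
    MvPolynomial.aeval v G = MvPolynomial.eval₂ (Int.castRingHom K) v G := by
  have e : algebraMap ℤ K = Int.castRingHom K := RingHom.ext_int _ _
  rw [MvPolynomial.aeval_def, e]

private lemma fin_G_aeval {K : Type} [Field K] [Algebra ℤ K] (a b s t : K)
    (k m m' u v N N' : ℕ) (F F' : MvPolynomial (Fin 4) ℤ) :
    MvPolynomial.aeval ![a, b, s, t] (fin_G k m m' u v N N' F F') =
      nk s k ^ m' * ((a * t) ^ (k * (k - 1))) ^ u * (s - t) ^ N' *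
          MvPolynomial.aeval ![a, b, s, t] F -
        nk s k ^ m * ((a * t) ^ (k * (k - 1))) ^ v * (s - t) ^ N *
          MvPolynomial.aeval ![a, b, s, t] F' := by
  unfold fin_G
  simp only [map_sub, map_mul, map_pow, fin_np_aeval, MvPolynomial.aeval_X]
  rfl

private lemma fin_sln (K : Type) [Field K] (lam : K) (n : ℕ) (hne : lam ≠ 0) (hn : 2 ≤ n)
    (S : TraceSys K lam n) : SlnZ K lam n (bP S) := by
  refine ⟨?_, ?_, ?_⟩
  · rintro D D' ⟨-, -, h1, h2, h | h⟩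
    · exact hom_move hne hn S h1 h2 h
    · exact (hom_move hne hn S h2 h1 h).symm
  · intro m u v i h
    exact bP_skein hne S h
  · intro m
    exact bP_unlink S m

/-- From `col` to the cross-multiplied form and back. -/
private lemma fin_cross {K : Type} [Field K] {κ N0 r r' : K} (hκ : κ ≠ 0) (hN : N0 ≠ 0)
    {m m' M u v : ℕ} {x y : ℤ} (hu : (u : ℤ) = x + M) (hv : (v : ℤ) = y + M) :
    (N0 ^ m)⁻¹ * κ ^ x * r = (N0 ^ m')⁻¹ * κ ^ y * r' ↔
      N0 ^ m' * κ ^ u * r = N0 ^ m * κ ^ v * r' := by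
  have e1 : κ ^ u = κ ^ x * κ ^ M := by
    rw [← zpow_natCast κ u, hu, zpow_add₀ hκ, zpow_natCast]
  have e2 : κ ^ v = κ ^ y * κ ^ M := by
    rw [← zpow_natCast κ v, hv, zpow_add₀ hκ, zpow_natCast]
  have hM : κ ^ M ≠ 0 := pow_ne_zero _ hκ
  have h1 : N0 ^ m ≠ 0 := pow_ne_zero _ hN
  have h2 : N0 ^ m' ≠ 0 := pow_ne_zero _ hN
  rw [e1, e2]
  constructor
  · intro h
    calc N0 ^ m' * (κ ^ x * κ ^ M) * r = (N0 ^ m * N0 ^ m' * κ ^ M) * ((N0 ^ m)⁻¹ * κ ^ x * r) := by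
          field_simp
      _ = (N0 ^ m * N0 ^ m' * κ ^ M) * ((N0 ^ m')⁻¹ * κ ^ y * r') := by rw [h]
      _ = N0 ^ m * (κ ^ y * κ ^ M) * r' := by field_simp
  · intro h
    have h3 : N0 ^ m * N0 ^ m' * κ ^ M ≠ 0 := mul_ne_zero (mul_ne_zero h1 h2) hM
    apply mul_left_cancel₀ h3
    calc (N0 ^ m * N0 ^ m' * κ ^ M) * ((N0 ^ m)⁻¹ * κ ^ x * r) = N0 ^ m' * (κ ^ x * κ ^ M) * r := by
          field_simp
      _ = N0 ^ m * (κ ^ y * κ ^ M) * r' := h
      _ = (N0 ^ m * N0 ^ m' * κ ^ M) * ((N0 ^ m')⁻¹ * κ ^ y * r') := by field_simp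

theorem coloured (K : Type) [Field K] (a s : K) (ha : a ≠ 0) (hs : s ≠ 0) (hs1 : s ^ 2 ≠ 1)
    (P : ℕ → List BL → K) (hP : Homfly K a (s - s⁻¹) P) {k : ℕ} (hk : 1 ≤ k)
    (hN : nk s k ≠ 0) {m m' : ℕ} {w w' : List BL} (hm : 1 ≤ m)
    (hw : BOk m w) (hw' : BOk m' w') (hc : Classical w) (hc' : Classical w')
    (h : ZEquiv (m, w) (m', w')) : col P a s k m w = col P a s k m' w' := by
  have hm' : 1 ≤ m' := hom_one h hm
  obtain ⟨N, F, hF⟩ := raw_univ hk hm hc hw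
  obtain ⟨N', F', hF'⟩ := raw_univ hk hm' hc' hw'
  have hF2 : ∀ (K : Type) [Field K] (a s : K) (P : ℕ → List BL → K), a ≠ 0 →
      Homfly K a (s - s⁻¹) P → (s - s⁻¹) ^ N * raw P (s * a) k m w =
        MvPolynomial.eval₂ (Int.castRingHom K) ![a, a⁻¹, s, s⁻¹] F := by
    intro K _ a s P h1 h2
    rw [hF K a s P h1 h2, fin_hod]
  have hF2' : ∀ (K : Type) [Field K] (a s : K) (P : ℕ → List BL → K), a ≠ 0 →
      Homfly K a (s - s⁻¹) P → (s - s⁻¹) ^ N' * raw P (s * a) k m' w' =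
        MvPolynomial.eval₂ (Int.castRingHom K) ![a, a⁻¹, s, s⁻¹] F' := by
    intro K _ a s P h1 h2
    rw [hF' K a s P h1 h2, fin_hod]
  obtain ⟨M, hM1, hM2⟩ : ∃ M : ℕ, 0 ≤ wr w + M ∧ 0 ≤ wr w' + M :=
    ⟨(wr w).natAbs + (wr w').natAbs, by omega, by omega⟩
  obtain ⟨u, hu⟩ := Int.eq_ofNat_of_zero_le hM1
  obtain ⟨v, hv⟩ := Int.eq_ofNat_of_zero_le hM2
  have hG : MvPolynomial.aeval ![a, a⁻¹, s, s⁻¹] (fin_G k m m' u v N N' F F') = 0 := by
    refine density4 _ ?_ K a s ha hs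
    intro n hn
    have hX : (RatFunc.X : RatFunc ℚ) ≠ 0 := RatFunc.X_ne_zero
    have hchar : CharZero (RatFunc ℚ) := algebraRat.charZero (RatFunc ℚ)
    obtain ⟨S, -⟩ := traceSys (RatFunc ℚ) RatFunc.X n hX hn (Nat.cast_add_one_ne_zero n)
    have hq := hom_qint (n := n) (by omega)
    obtain ⟨A, hA⟩ := va_mk S hq
    have hQ := fin_sln (RatFunc ℚ) RatFunc.X n hX hn S
    have hH := hom_homfly hQ hq
    have hz : (RatFunc.X : RatFunc ℚ) - (RatFunc.X)⁻¹ =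
        -(RatFunc.X : RatFunc ℚ)⁻¹ - (-(RatFunc.X : RatFunc ℚ)⁻¹)⁻¹ := by
      rw [inv_neg, inv_inv]
      ring
    rw [hz] at hH
    have hPn : ∀ m w, BOk m w → (fun m w => (qint (RatFunc.X : RatFunc ℚ) n)⁻¹ * bP S (m, w)) m w =
        (qint (RatFunc.X : RatFunc ℚ) n)⁻¹ *
          ((qint (RatFunc.X : RatFunc ℚ) n) ^ m * A.tr (A.ev w)) := by
      intro m w hw
      show _ * _ = _
      rw [bP_va A S hq hA hw]
    have e1 := col_G A _ hPn k m hw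
    have e2 := col_G A _ hPn k m' hw'
    have e3 := VA.G_step A hX fin_two hn hq k hk (fin_nk k) h
    have e4 := e1.trans ((congrArg _ e3).trans e2.symm)
    have hκ : (((RatFunc.X : RatFunc ℚ) ^ n) * (-(RatFunc.X : RatFunc ℚ)⁻¹)⁻¹) ^ (k * (k - 1)) ≠ 0 := by
      refine pow_ne_zero _ (mul_ne_zero (pow_ne_zero _ hX) ?_)
      rw [inv_neg, inv_inv]
      exact neg_ne_zero.mpr hX
    unfold col at e4
    rw [fin_cross hκ (fin_nk k) (m := m) (m' := m') hu.symm hv.symm] at e4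
    have f1 := hF2 (RatFunc ℚ) (RatFunc.X ^ n) (-(RatFunc.X)⁻¹) _ (pow_ne_zero n hX) hH
    have f2 := hF2' (RatFunc ℚ) (RatFunc.X ^ n) (-(RatFunc.X)⁻¹) _ (pow_ne_zero n hX) hH
    rw [fin_G_aeval, fin_hod, fin_hod, ← f1, ← f2]
    linear_combination (-(RatFunc.X : RatFunc ℚ)⁻¹ - (-(RatFunc.X : RatFunc ℚ)⁻¹)⁻¹) ^ (N + N') * e4
  have hz : s - s⁻¹ ≠ 0 := by
    intro h0
    apply hs1
    have : s * (s - s⁻¹) = 0 := by rw [h0, mul_zero]
    rw [mul_sub, mul_inv_cancel₀ hs] at this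
    linear_combination this
  have hκ : (a * s⁻¹) ^ (k * (k - 1)) ≠ 0 :=
    pow_ne_zero _ (mul_ne_zero ha (inv_ne_zero hs))
  unfold col
  rw [fin_cross hκ hN (m := m) (m' := m') hu.symm hv.symm]
  rw [fin_G_aeval, ← hF K a s P ha hP, ← hF' K a s P ha hP] at hG
  have e : (s - s⁻¹) ^ (N + N') * (nk s k ^ m' * ((a * s⁻¹) ^ (k * (k - 1))) ^ u *
      raw P (s * a) k m w - nk s k ^ m * ((a * s⁻¹) ^ (k * (k - 1))) ^ v *
      raw P (s * a) k m' w') = 0 := by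
    rw [← hG]
    ring
  rcases mul_eq_zero.1 e with e1 | e1
  · exact absurd e1 (pow_ne_zero _ hz)
  · exact sub_eq_zero.1 e1

end CO
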