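import Pool.Agent.H61.CO.X1

/-!
# The half twist (row CO H1; pure ring theory)

`Hp t x k = Dp t x 0 * Dp t x 1 * ... * Dp t x (k-1)`.

Proofs.
`H_J`, by induction on `k` for all `x`: `k = 0`: both sides are `t x`.  Step: by `Up_succ'` and
`Dp_succ'` the left side for `k + 1` is `t x * (left side for (x+1), k) * t x` (note
`x + (k+1) = (x+1) + k`), which by induction is
`t x * (Dp t (x+2) k * t (x+1) * Up t (x+2) k) * t x`; `t x` commutes with `Dp t (x+2) k` and
`Up t (x+2) k` (`Dp_far`, `Up_far` with `j + 2 ≤ x`), so it is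
`Dp t (x+2) k * (t x * t (x+1) * t x) * Up t (x+2) k =
Dp t (x+2) k * (t (x+1) * t x * t (x+1)) * Up t (x+2) k` (the braid relation is `Cmp.b2` or `b1` for
`y = t`), and `Dp t (x+1) (k+1) = Dp t (x+2) k * t (x+1)`,
`Up t (x+1) (k+1) = t (x+1) * Up t (x+2) k` again by `Dp_succ'`, `Up_succ'`.
`Hp_left`, by induction on `k` for all `x`: `k = 0` trivial.  Step:
`Hp t x (k+2) = Hp t x (k+1) * Dp t x (k+1) = Hp t (x+1) k * (Up t x k * Dp t x (k+1))` and
`Up t x k * Dp t x (k+1) = Up t x k * t (x+k) * Dp t x k = Dp t (x+1) k * t x * Up t (x+1) k =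
Dp t (x+1) k * Up t x (k+1)`; and `Hp t (x+1) k * Dp t (x+1) k = Hp t (x+1) (k+1)`.
`Hp_mv`, by induction on `k` (all `x i j`); `k = 0` is impossible.  For `k + 1`: if `i = i' + 1`
then `Dp t x k * y (x+i'+1) = y (x+i') * Dp t x k` by `Dp_mv` (`i' + 1 < k` as `i' + 1 + j + 2 = k + 1`),
then the induction hypothesis with `i', j`.  If `i = 0`, `j + 1 = k`: if `k = 1`: `Hp t x 2 = t x` and
`j = 0`: this is `hz`.  If `k ≥ 2`, `k = k' + 2`..: by `Hp_left`,
`Hp t x (k+1) * y x = Hp t (x+1) k * (Up t x k * y x) = Hp t (x+1) k * y (x+1) * Up t x k` by `Up_mv`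
(`x + 1 < x + k`), and the induction hypothesis for `x + 1`, `i = 0`, `j = k - 2` gives
`Hp t (x+1) k * y (x+1+0) = y (x+1+(k-2)) * Hp t (x+1) k`, and `x + 1 + (k - 2) = x + j`.
`Hp_add`: induction on `q`.  `Hp t x (p+q+1) = Hp t x (p+q) * Dp t x (p+q)`;
`Dp t x (q+p) = Dp t (x+q) p * Dp t x q` (`Dp_add`), `Hp t x q` commutes with `Dp t (x+q) p`
(`tw_H` with `g = Dp t (x+q) p`, `y1 = y2 = t`, `lo = x`, `hi = x + q - 1` and `Dp_far`; for `q = 0` it is
`1`), so with the induction hypothesis it is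
`Hp t x p * Xp t x p q * (Dp t (x+q) p * Hp t x q) * Dp t x q = Hp t x p * Xp t x p (q+1) *
Hp t x (q+1)`.
-/

namespace CO

section

variable {R : Type} [Ring R] {t y : ℕ → R}

lemma H_J (ht : Cmp t t) (x k : ℕ) :
    Up t x k * t (x + k) * Dp t x k = Dp t (x + 1) k * t x * Up t (x + 1) k := by
  induction k generalizing x with
  | zero => simp
  | succ k ih =>
    have e1 := ih (x + 1)
    have hD : Dp t (x + 1 + 1) k * t x = t x * Dp t (x + 1 + 1) k :=
      Dp_far ht (x + 1 + 1) k x (Or.inr (by omega))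
    have hU : Up t (x + 1 + 1) k * t x = t x * Up t (x + 1 + 1) k :=
      Up_far ht (x + 1 + 1) k x (Or.inr (by omega))
    have hb : t x * t (x + 1) * t x = t (x + 1) * (t x * t (x + 1)) := ht.b2 x
    calc Up t x (k + 1) * t (x + (k + 1)) * Dp t x (k + 1)
        = t x * Up t (x + 1) k * t (x + 1 + k) * (Dp t (x + 1) k * t x) := by
          rw [Up_succ', Dp_succ', show x + (k + 1) = x + 1 + k by omega]
      _ = t x * (Up t (x + 1) k * t (x + 1 + k) * Dp t (x + 1) k) * t x := by
          simp only [mul_assoc]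
      _ = t x * (Dp t (x + 1 + 1) k * t (x + 1) * Up t (x + 1 + 1) k) * t x := by rw [e1]
      _ = (t x * Dp t (x + 1 + 1) k) * t (x + 1) * (Up t (x + 1 + 1) k * t x) := by
          simp only [mul_assoc]
      _ = (Dp t (x + 1 + 1) k * t x) * t (x + 1) * (t x * Up t (x + 1 + 1) k) := by
          rw [hD, hU]
      _ = Dp t (x + 1 + 1) k * (t x * t (x + 1) * t x) * Up t (x + 1 + 1) k := by
          simp only [mul_assoc]
      _ = Dp t (x + 1 + 1) k * (t (x + 1) * (t x * t (x + 1))) * Up t (x + 1 + 1) k := by rw [hb]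
      _ = (Dp t (x + 1 + 1) k * t (x + 1)) * t x * (t (x + 1) * Up t (x + 1 + 1) k) := by
          simp only [mul_assoc]
      _ = Dp t (x + 1) (k + 1) * t x * Up t (x + 1) (k + 1) := by
          rw [Up_succ' t (x + 1), Dp_succ' t (x + 1)]

lemma Hp_left (ht : Cmp t t) (x k : ℕ) : Hp t x (k + 1) = Hp t (x + 1) k * Up t x k := by
  induction k with
  | zero => simp [Hp]
  | succ k ih =>
    have hJ := H_J ht x k
    calc Hp t x (k + 1 + 1) = Hp t (x + 1) k * Up t x k * (t (x + k) * Dp t x k) := by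
          rw [Hp_succ, ih, Dp_succ]
      _ = Hp t (x + 1) k * (Up t x k * t (x + k) * Dp t x k) := by simp only [mul_assoc]
      _ = Hp t (x + 1) k * (Dp t (x + 1) k * t x * Up t (x + 1) k) := by rw [hJ]
      _ = Hp t (x + 1) k * Dp t (x + 1) k * (t x * Up t (x + 1) k) := by simp only [mul_assoc]
      _ = Hp t (x + 1) (k + 1) * Up t x (k + 1) := by rw [Hp_succ, Up_succ']

lemma Hp_mv (ht : Cmp t t) (hy : Cmp t y) (hz : ∀ i, t i * y i = y i * t i) (x k i j : ℕ)
    (hij : i + j + 2 = k) : Hp t x k * y (x + i) = y (x + j) * Hp t x k := by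
  induction k generalizing x i j with
  | zero => omega
  | succ k ih =>
    rcases i with _ | i
    · rcases j with _ | j
      · obtain rfl : k = 1 := by omega
        simp only [Hp, Dp, one_mul, mul_one, add_zero]
        exact hz x
      · have h1 := Up_mv hy x k x le_rfl (by omega)
        have h2 := ih (x + 1) 0 j (by omega)
        rw [add_zero] at h2
        calc Hp t x (k + 1) * y (x + 0) = Hp t (x + 1) k * (Up t x k * y x) := by
              rw [Hp_left ht, add_zero, mul_assoc]
          _ = (Hp t (x + 1) k * y (x + 1)) * Up t x k := by rw [h1, mul_assoc]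
          _ = y (x + (j + 1)) * (Hp t (x + 1) k * Up t x k) := by
              rw [h2, mul_assoc, show x + 1 + j = x + (j + 1) by omega]
          _ = y (x + (j + 1)) * Hp t x (k + 1) := by rw [Hp_left ht]
    · have h1 := Dp_mv hy x k (x + i) (by omega) (by omega)
      have h2 := ih x i j (by omega)
      calc Hp t x (k + 1) * y (x + (i + 1)) = Hp t x k * (Dp t x k * y (x + i + 1)) := by
            rw [Hp_succ, mul_assoc, ← add_assoc]
        _ = (Hp t x k * y (x + i)) * Dp t x k := by rw [h1, mul_assoc]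
        _ = y (x + j) * Hp t x (k + 1) := by rw [h2, Hp_succ, mul_assoc]

lemma Hp_add (ht : Cmp t t) (x p q : ℕ) :
    Hp t x (p + q) = Hp t x p * Xp t x p q * Hp t x q := by
  induction q with
  | zero => simp [Hp]
  | succ q ih =>
    have hc : Dp t (x + q) p * Hp t x q = Hp t x q * Dp t (x + q) p :=
      tw_H (lo := x) (hi := x + q - 1) (g := Dp t (x + q) p) (y1 := t) (y2 := t)
        (fun i _ hi => Dp_far ht (x + q) p i (Or.inr (by omega))) x q le_rfl (by omega)
    calc Hp t x (p + (q + 1)) = Hp t x (p + q) * Dp t x (q + p) := by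
          rw [← add_assoc, Hp_succ, add_comm q p]
      _ = Hp t x p * Xp t x p q * Hp t x q * (Dp t (x + q) p * Dp t x q) := by
          rw [ih, Dp_add]
      _ = Hp t x p * Xp t x p q * (Hp t x q * Dp t (x + q) p) * Dp t x q := by
          simp only [mul_assoc]
      _ = Hp t x p * Xp t x p q * (Dp t (x + q) p * Hp t x q) * Dp t x q := by rw [hc]
      _ = Hp t x p * (Xp t x p q * Dp t (x + q) p) * (Hp t x q * Dp t x q) := by
          simp only [mul_assoc]
      _ = Hp t x p * Xp t x p (q + 1) * Hp t x (q + 1) := by rw [Xp_succ, Hp_succ t x q]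

end

end CO
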