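import Pool.Agent.H61.CO.X2
import Pool.Agent.H61.CO.H1

/-!
# Crossing virtualization of a bundle crossing (row CO H2; pure ring theory)

Proof.  Write `T = Xp t x k k`, `S = Xp s x k k`, `h = Hp t x k * Hp t (x+k) k`,
`H = Hp t x (k + k)`, `Q = A0 * A1`.
(1) `T * T = 1` (`Xp_inv` with `c = c' = t`).
(2) `H = h * T`: `Hp_add` gives `H = Hp t x k * T * Hp t x k`, and
`T * Hp t x k = Hp t (x+k) k * T` by `tw_H` (with `y1 = t`, `y2 = fun i => t (i + k)`, `Xp_mv2`) and
`Hp_shift`.
(3) `T * h = h * T`: `T * Hp t x k = Hp t (x+k) k * T` as in (2) and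
`T * Hp t (x+k) k = Hp t x k * T` by `Xp_mv1` (`tw_H` with `y1 = fun i => t (i + k)`, `y2 = t`),
and `Hp t x k`, `Hp t (x+k) k` commute (`tw_H` twice, far letters commute; careful with the ranges:
the letters of `Hp t x k` are in `[x, x+k-1)`, those of `Hp t (x+k) k` in `[x+k, x+2k-1)`).
(4) `H * S = S * H`: by `Hp_mv` (with `2k` strands, `y = s`) `H * s i = s' i * H` for
`x ≤ i < x + 2k - 1`, `s' i = s (2x + 2k - 2 - i)`; by `tw_X` `H * S = Xp s' x k k * H`, and
`Xp s' x k k = S` by `Xp_flip`.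
(5) `h * Q = Q`: `Hp t (x+k) k * A0 * A1 = Hp t (x+k) k * A1 * A0 = A1 * A0 = A0 * A1`, then
`Hp t x k * A0 = A0`.
(6) `T * S * T * Q = T * S * T * h * Q = T * S * H * Q = T * H * S * Q = T * T * h * S * Q =
h * S * Q = h * Q * S = Q * S = S * Q` using `T h = h T = H`, `T H = T T h`.
-/

namespace CO

section

variable {R : Type} [Ring R] {t s : ℕ → R}

private lemma h2_lo (htt : Cmp t t) (k x : ℕ) :
    Xp t x k k * Hp t x k = Hp t (x + k) k * Xp t x k k := by
  have h := tw_H (g := Xp t x k k) (y1 := t) (y2 := fun i => t (i + k)) (lo := x)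
    (hi := x + k - 1) (fun i h1 h2 => Xp_mv2 htt htt x k k i h1 (by omega)) x k le_rfl (by omega)
  rwa [Hp_shift] at h

private lemma h2_hi (htt : Cmp t t) (k x : ℕ) :
    Xp t x k k * Hp t (x + k) k = Hp t x k * Xp t x k k := by
  have h := tw_H (g := Xp t x k k) (y1 := fun i => t (i + k)) (y2 := t) (lo := x)
    (hi := x + k - 1) (fun i h1 h2 => Xp_mv1 htt x k k i h1 (by omega)) x k le_rfl (by omega)
  rwa [Hp_shift] at h

private lemma h2_comm (htt : Cmp t t) (k x : ℕ) :
    Hp t x k * Hp t (x + k) k = Hp t (x + k) k * Hp t x k := by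
  refine tw_H (g := Hp t x k) (y1 := t) (y2 := t) (lo := x + k) (hi := x + k + k - 1)
    (fun j h1 h2 => ?_) (x + k) k le_rfl (by omega)
  exact (tw_H (g := t j) (y1 := t) (y2 := t) (lo := x) (hi := x + k - 1)
    (fun i h3 h4 => htt.far j i (by omega)) x k le_rfl (by omega)).symm

private lemma h2_HS (htt : Cmp t t) (hts : Cmp t s) (hss : Cmp s s)
    (hz : ∀ i, t i * s i = s i * t i) (k x : ℕ) :
    Hp t x (k + k) * Xp s x k k = Xp s x k k * Hp t x (k + k) := by
  have h := tw_X (g := Hp t x (k + k)) (y1 := s) (y2 := fun i => s (2 * x + 2 * k - 2 - i))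
    (lo := x) (hi := x + k + k - 1) (fun i h1 h2 => by
      have h3 := Hp_mv htt hts hz x (k + k) (i - x) (2 * k - 2 - (i - x)) (by omega)
      rwa [show x + (i - x) = i by omega,
        show x + (2 * k - 2 - (i - x)) = 2 * x + 2 * k - 2 - i by omega] at h3) x k k le_rfl
    (by omega)
  rw [h, Xp_flip hss x k k fun i j h1 h2 h3 => ?_]
  show s (2 * x + 2 * k - 2 - i) = s j
  rw [show 2 * x + 2 * k - 2 - i = j by omega]

theorem zblock (htt : Cmp t t) (hts : Cmp t s) (hss : Cmp s s) (h1 : ∀ i, t i * t i = 1)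
    (hz : ∀ i, t i * s i = s i * t i) {A0 A1 : R} (k x : ℕ)
    (hA0 : Hp t x k * A0 = A0) (hA1 : Hp t (x + k) k * A1 = A1) (hA : A0 * A1 = A1 * A0)
    (hS : Xp s x k k * (A0 * A1) = A0 * A1 * Xp s x k k) :
    Xp t x k k * Xp s x k k * Xp t x k k * (A0 * A1) = Xp s x k k * (A0 * A1) := by
  have hlo := h2_lo htt k x
  have hhi := h2_hi htt k x
  have hcm := h2_comm htt k x
  have hHS := h2_HS htt hts hss hz k x
  have hTT := Xp_inv htt h1 x k k
  have hadd := Hp_add htt x k k
  generalize Xp t x k k = T at *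
  generalize Xp s x k k = S at *
  generalize Hp t x (k + k) = H at *
  generalize Hp t x k = a at *
  generalize Hp t (x + k) k = b at *
  -- `H = a * b * T = T * (a * b)`
  have hH : H = T * (a * b) := by
    rw [hadd, ← hhi, mul_assoc, hcm]
  have hQ : a * b * (A0 * A1) = A0 * A1 := by
    rw [mul_assoc, hA, ← mul_assoc b, hA1, ← hA, ← mul_assoc, hA0]
  calc T * S * T * (A0 * A1) = T * S * T * (a * b * (A0 * A1)) := by rw [hQ]
    _ = T * (S * (T * (a * b))) * (A0 * A1) := by simp only [mul_assoc]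
    _ = T * (H * S) * (A0 * A1) := by rw [← hH, hHS]
    _ = (T * T) * (a * b) * (S * (A0 * A1)) := by rw [hH]; simp only [mul_assoc]
    _ = a * b * (A0 * A1) * S := by rw [hTT, one_mul, hS]; simp only [mul_assoc]
    _ = S * (A0 * A1) := by rw [hQ, hS]

end

end CO
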