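import Pool.Agent.H61.CO.V5

/-!
# The action of the virtual crossings on the labels (row CO PA)

`Dp A.vt y p = S (y+p-1) (y+p) * ... * S y (y+1)` acts on the labels (the right factor first) by
`cyl y p`: `y + i + 1 ↦ y + i` for `i < p`, `y ↦ y + p`, all others fixed.
`Xp A.vt x p q = Dp A.vt x p * ... * Dp A.vt (x+q-1) p` acts by `cx x p q`.

Proofs.
`Dp_E`, `Dp_S`: induction on `p`, with `sE`, `sS` and
`Equiv.swap (y+p) (y+p+1) (cyl y p l) = cyl y (p+1) l` (`Equiv.swap_apply_def`, unfold `cyl`,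
`split_ifs`, `omega`), `cyl y 0 l = l`; `cyl y p` is injective.
`Xp_E`, `Xp_S`: induction on `q`: `Xp (q+1) * E a b = Xp q * (Dp (x+q) p * E a b) = Xp q *
E (cyl (x+q) p a) (cyl (x+q) p b) * Dp (x+q) p`.
`Xp_rr`: `rr a b = lam^-n (lam - E a b) * S a b`.
`cx_hi`: `x + q + i ↦ x + i` for `i < p`: induction on `q`
(`cyl (x+q) p (x+(q+1)+i) = x+q+i`).  `cx_lo`: `x + j ↦ x + p + j` for `j < q`: induction on `q`: for
`j = q`: `cyl (x+q) p (x+q) = x+q+p`, which is fixed by `cx x p q` (`cx_fix`); for `j < q`: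
`cyl (x+q) p (x+j) = x+j`.  `cx_fix`: labels `≥ x + p + q` (and `< x`) are fixed.
`conj_T`: with `T = Xp A.vt x k k`, `T * T = 1` (`hT`): conjugation by `T` is multiplicative and maps
the generators without `b` to generators without `cx x k k b`; `Algebra.adjoin_induction`.
-/

namespace CO

/-- The action of a descending run. -/
def cyl (y p l : ℕ) : ℕ := if l = y then y + p else if y < l ∧ l ≤ y + p then l - 1 else l

/-- The action of a crossing of `p` and `q` strands. -/
def cx (x p : ℕ) : ℕ → ℕ → ℕ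
  | 0, l => l
  | q + 1, l => cx x p q (cyl (x + q) p l)

lemma cyl_inj (y p : ℕ) : Function.Injective (cyl y p) := by
  intro a b h
  unfold cyl at h
  split_ifs at h <;> omega

lemma cx_inj (x p q : ℕ) : Function.Injective (cx x p q) := by
  induction q with
  | zero => intro a b h; exact h
  | succ q ih =>
    intro a b h
    exact cyl_inj _ _ (ih h)

lemma cx_fix (x p q l : ℕ) (h : l < x ∨ x + p + q ≤ l) : cx x p q l = l := by
  induction q with
  | zero => rfl
  | succ q ih =>
    have h1 : cyl (x + q) p l = l := by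
      unfold cyl
      split_ifs <;> omega
    change cx x p q (cyl (x + q) p l) = l
    rw [h1]
    exact ih (by omega)

lemma cx_hi (x p q i : ℕ) (h : i < p) : cx x p q (x + q + i) = x + i := by
  induction q with
  | zero => rfl
  | succ q ih =>
    have h1 : cyl (x + q) p (x + (q + 1) + i) = x + q + i := by
      unfold cyl
      split_ifs <;> omega
    change cx x p q (cyl (x + q) p (x + (q + 1) + i)) = _
    rw [h1]
    exact ih

lemma cx_lo (x p q j : ℕ) (h : j < q) : cx x p q (x + j) = x + p + j := by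
  induction q with
  | zero => omega
  | succ q ih =>
    change cx x p q (cyl (x + q) p (x + j)) = _
    rcases Nat.lt_or_ge j q with h1 | h1
    · have h2 : cyl (x + q) p (x + j) = x + j := by
        unfold cyl
        split_ifs <;> omega
      rw [h2]
      exact ih h1
    · have h2 : cyl (x + q) p (x + j) = x + p + j := by
        unfold cyl
        split_ifs <;> omega
      rw [h2]
      exact cx_fix x p q _ (by omega)

lemma pa_swap (y p l : ℕ) : Equiv.swap (y + p) (y + p + 1) (cyl y p l) = cyl y (p + 1) l := by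
  rw [Equiv.swap_apply_def]
  unfold cyl
  split_ifs <;> omega

lemma pa_cyl_zero (y l : ℕ) : cyl y 0 l = l := by
  unfold cyl
  split_ifs <;> omega

namespace VA

section

variable {L : Type} [Field L] {lam : L} {n : ℕ} (A : VA L lam n)

lemma Dp_E (y p a b : ℕ) (h : a ≠ b) :
    Dp A.vt y p * A.E a b = A.E (cyl y p a) (cyl y p b) * Dp A.vt y p := by
  induction p with
  | zero =>
    rw [pa_cyl_zero, pa_cyl_zero]
    change 1 * A.E a b = A.E a b * 1
    rw [one_mul, mul_one]
  | succ p ih =>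
    change A.S (y + p) (y + p + 1) * Dp A.vt y p * A.E a b =
      A.E (cyl y (p + 1) a) (cyl y (p + 1) b) * (A.S (y + p) (y + p + 1) * Dp A.vt y p)
    rw [mul_assoc, ih, ← mul_assoc, A.sE _ _ _ _ (fun h' => h (cyl_inj y p h')), pa_swap, pa_swap,
      mul_assoc]

lemma Dp_S (y p a b : ℕ) :
    Dp A.vt y p * A.S a b = A.S (cyl y p a) (cyl y p b) * Dp A.vt y p := by
  induction p with
  | zero =>
    rw [pa_cyl_zero, pa_cyl_zero]
    change 1 * A.S a b = A.S a b * 1
    rw [one_mul, mul_one]
  | succ p ih =>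
    change A.S (y + p) (y + p + 1) * Dp A.vt y p * A.S a b =
      A.S (cyl y (p + 1) a) (cyl y (p + 1) b) * (A.S (y + p) (y + p + 1) * Dp A.vt y p)
    rw [mul_assoc, ih, ← mul_assoc, A.sS, pa_swap, pa_swap, mul_assoc]

lemma Xp_E (x p q a b : ℕ) (h : a ≠ b) :
    Xp A.vt x p q * A.E a b = A.E (cx x p q a) (cx x p q b) * Xp A.vt x p q := by
  induction q generalizing a b with
  | zero =>
    change 1 * A.E a b = A.E a b * 1
    rw [one_mul, mul_one]
  | succ q ih =>
    change Xp A.vt x p q * Dp A.vt (x + q) p * A.E a b =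
      A.E (cx x p q (cyl (x + q) p a)) (cx x p q (cyl (x + q) p b)) *
        (Xp A.vt x p q * Dp A.vt (x + q) p)
    rw [mul_assoc, A.Dp_E _ _ _ _ h, ← mul_assoc,
      ih _ _ (fun h' => h (cyl_inj (x + q) p h')), mul_assoc]

lemma Xp_S (x p q a b : ℕ) :
    Xp A.vt x p q * A.S a b = A.S (cx x p q a) (cx x p q b) * Xp A.vt x p q := by
  induction q generalizing a b with
  | zero =>
    change 1 * A.S a b = A.S a b * 1
    rw [one_mul, mul_one]
  | succ q ih =>
    change Xp A.vt x p q * Dp A.vt (x + q) p * A.S a b =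
      A.S (cx x p q (cyl (x + q) p a)) (cx x p q (cyl (x + q) p b)) *
        (Xp A.vt x p q * Dp A.vt (x + q) p)
    rw [mul_assoc, A.Dp_S, ← mul_assoc, ih, mul_assoc]

lemma Xp_rr (x p q a b : ℕ) (h : a ≠ b) :
    Xp A.vt x p q * A.rr a b = A.rr (cx x p q a) (cx x p q b) * Xp A.vt x p q := by
  have h1 : Xp A.vt x p q * A.cr a b = A.cr (cx x p q a) (cx x p q b) * Xp A.vt x p q := by
    unfold cr
    rw [mul_smul_comm, smul_mul_assoc, mul_sub, sub_mul, A.Xp_E x p q a b h, mul_smul_comm,
      smul_mul_assoc, mul_one, one_mul]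
  unfold rr
  rw [← mul_assoc, h1, mul_assoc, A.Xp_S, mul_assoc]

lemma conj_T (x k b : ℕ) (hT : Xp A.vt x k k * Xp A.vt x k k = 1) {U : A.R}
    (hU : U ∈ A.Fr b) : Xp A.vt x k k * U * Xp A.vt x k k ∈ A.Fr (cx x k k b) := by
  unfold Fr at hU ⊢
  induction hU using Algebra.adjoin_induction with
  | mem U hU =>
    obtain ⟨i, j, hi, hj, hU⟩ := hU
    refine Algebra.subset_adjoin ⟨cx x k k i, cx x k k j, fun h => hi (cx_inj _ _ _ h),
      fun h => hj (cx_inj _ _ _ h), ?_⟩
    rcases hU with ⟨hij, rfl⟩ | rfl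
    · left
      refine ⟨fun h => hij (cx_inj _ _ _ h), ?_⟩
      rw [A.Xp_E _ _ _ _ _ hij, mul_assoc, hT, mul_one]
    · right
      rw [A.Xp_S, mul_assoc, hT, mul_one]
  | algebraMap r =>
    rw [← Algebra.commutes, mul_assoc, hT, mul_one]
    exact Subalgebra.algebraMap_mem _ r
  | add U V _ _ h1 h2 =>
    rw [mul_add, add_mul]
    exact Subalgebra.add_mem _ h1 h2
  | mul U V _ _ h1 h2 =>
    have e : Xp A.vt x k k * (U * V) * Xp A.vt x k k =
        (Xp A.vt x k k * U * Xp A.vt x k k) * (Xp A.vt x k k * V * Xp A.vt x k k) := by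
      calc _ = Xp A.vt x k k * U * 1 * V * Xp A.vt x k k := by simp only [mul_one, mul_assoc]
        _ = _ := by rw [← hT]; simp only [mul_assoc]
    rw [e]
    exact Subalgebra.mul_mem _ h1 h2

end

end VA

end CO
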