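import Pool.Agent.H61.CO.V1

/-!
# Compatibility of the letters (row CO V6)

`Cmp c y` is defined in Defs (far commutation and two relations on three strands).

Proofs.
`cmp_vt_sp` etc.: `far`: `sp i` and `sp j` with `|i-j| ≥ 2`: `ee`; `vt i` and `sp j`:
`S i (i+1) * E j (j+1) = E j (j+1) * S i (i+1)` by `sE` as the swap fixes `j`, `j+1`; `vt`, `vt` by
`sS`.
Braid relation for `E`: `tri` with `i, i+1, i+2` says `E1 E2 E1 + E2 = E2 E1 E2 + E1`
(`E1 = E i (i+1)`, `E2 = E (i+1) (i+2)`).  For `σ = lam - E` (scalar factors aside):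
`σ1 σ2 σ1 = lam^3 - lam^2 (2 E1 + E2) + lam (E1 E2 + E2 E1 + E1^2) - E1 E2 E1`, with
`E1^2 = (lam + lam⁻¹) E1`: the difference of `σ1 σ2 σ1` and `σ2 σ1 σ2` is
`- lam^2 (E1 - E2) + (lam^2 + 1) (E1 - E2) - (E1 - E2) = 0`.  The relations with `sn` follow from
those with `sp`: `a = sp (i+1) * sp i`, `a * sp (i+1) = sp i * a`, so (multiply with the inverses
`sn (i+1)`, `sn i`) `a * sn (i+1) = sn i * a`; etc.; for `c = sn` take the inverse of the relations.
A general tool: `Cmp c y` and `y y' = 1 = y' y` imply `Cmp c y'`; `Cmp c y` with `c c' = 1 = c' c`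
implies `Cmp c' y` (from `c(i+1) c i y(i+1) = y i c(i+1) c i` get
`c' i c'(i+1) y i = y(i+1) c' i c'(i+1)`, which is `b2` for `c'`).
`vt` relations: `vt (i+1) * vt i * sp (i+1) = sp i * (vt (i+1) * vt i)`: apply `S_cr` twice:
`S i (i+1)` maps the labels `i+1, i+2` to `i, i+2`, then `S (i+1) (i+2)` maps `i, i+2` to `i, i+1`.
The same for `b2` and for `y = sn`, `y = vt` (use `sS`; labels as above).
-/

namespace CO

section

variable {R : Type} [Ring R]

lemma v6_inv {a y0 y1 y0' y1' : R} (h : a * y1 = y0 * a) (h1 : y1 * y1' = 1) (h0 : y0' * y0 = 1) :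
    a * y1' = y0' * a := by
  calc a * y1' = (y0' * y0) * a * y1' := by rw [h0, one_mul]
    _ = y0' * (y0 * a) * y1' := by simp only [mul_assoc]
    _ = y0' * (a * y1) * y1' := by rw [h]
    _ = y0' * a * (y1 * y1') := by simp only [mul_assoc]
    _ = y0' * a := by rw [h1, mul_one]

lemma v6_inv' {X X' a b : R} (h : X * a = b * X) (h1 : X' * X = 1) (h2 : X * X' = 1) :
    X' * b = a * X' := by
  calc X' * b = X' * b * (X * X') := by rw [h2, mul_one]
    _ = X' * (b * X) * X' := by simp only [mul_assoc]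
    _ = X' * (X * a) * X' := by rw [h]
    _ = (X' * X) * a * X' := by simp only [mul_assoc]
    _ = a * X' := by rw [h1, one_mul]

lemma v6_cmp_y {c y y' : ℕ → R} (h : Cmp c y) (h1 : ∀ i, y i * y' i = 1)
    (h2 : ∀ i, y' i * y i = 1) : Cmp c y' where
  far i j hij := v6_inv (h.far i j hij) (h1 j) (h2 j)
  b1 i := v6_inv (h.b1 i) (h1 (i + 1)) (h2 i)
  b2 i := v6_inv (h.b2 i) (h1 i) (h2 (i + 1))

lemma v6_cmp_c {c c' y : ℕ → R} (h : Cmp c y) (h1 : ∀ i, c i * c' i = 1)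
    (h2 : ∀ i, c' i * c i = 1) : Cmp c' y where
  far i j hij := v6_inv' (h.far i j hij) (h2 i) (h1 i)
  b1 i := by
    refine v6_inv' (X := c i * c (i + 1)) (h.b2 i) ?_ ?_
    · calc c' (i + 1) * c' i * (c i * c (i + 1)) = c' (i + 1) * (c' i * c i) * c (i + 1) := by
            simp only [mul_assoc]
        _ = 1 := by rw [h2, mul_one, h2]
    · calc c i * c (i + 1) * (c' (i + 1) * c' i) = c i * (c (i + 1) * c' (i + 1)) * c' i := by
            simp only [mul_assoc]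
        _ = 1 := by rw [h1, mul_one, h1]
  b2 i := by
    refine v6_inv' (X := c (i + 1) * c i) (h.b1 i) ?_ ?_
    · calc c' i * c' (i + 1) * (c (i + 1) * c i) = c' i * (c' (i + 1) * c (i + 1)) * c i := by
            simp only [mul_assoc]
        _ = 1 := by rw [h2, mul_one, h2]
    · calc c (i + 1) * c i * (c' i * c' (i + 1)) = c (i + 1) * (c i * c' i) * c' (i + 1) := by
            simp only [mul_assoc]
        _ = 1 := by rw [h1, mul_one, h1]

end

namespace VA

section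

variable {L : Type} [Field L] {lam : L} {n : ℕ} (A : VA L lam n)

/-- The braid relation. -/
lemma v6_braid (hl : lam ≠ 0) (i : ℕ) :
    A.sp i * A.sp (i + 1) * A.sp i = A.sp (i + 1) * A.sp i * A.sp (i + 1) := by
  obtain ⟨e, he⟩ : ∃ e, e = A.E i (i + 1) := ⟨_, rfl⟩
  obtain ⟨f, hf⟩ : ∃ f, f = A.E (i + 1) (i + 1 + 1) := ⟨_, rfl⟩
  have h1 : e * e = (lam + lam⁻¹) • e := by
    rw [he]; exact A.e2 i (i + 1) (by omega)
  have h2 : f * f = (lam + lam⁻¹) • f := by
    rw [hf]; exact A.e2 (i + 1) (i + 1 + 1) (by omega)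
  have h3 : e * f * e = f * e * f + e - f := by
    have := A.tri i (i + 1) (i + 1 + 1) (by omega) (by omega) (by omega)
    rw [← he, ← hf] at this
    rw [← this, add_sub_cancel_right]
  show ((lam⁻¹) ^ n • (lam • (1 : A.R) - A.E i (i + 1))) *
      ((lam⁻¹) ^ n • (lam • (1 : A.R) - A.E (i + 1) (i + 1 + 1))) *
      ((lam⁻¹) ^ n • (lam • (1 : A.R) - A.E i (i + 1))) =
    ((lam⁻¹) ^ n • (lam • (1 : A.R) - A.E (i + 1) (i + 1 + 1))) *
      ((lam⁻¹) ^ n • (lam • (1 : A.R) - A.E i (i + 1))) *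
      ((lam⁻¹) ^ n • (lam • (1 : A.R) - A.E (i + 1) (i + 1 + 1)))
  rw [← he, ← hf]
  simp only [smul_mul_assoc, mul_smul_comm]
  congr 3
  have g1 : (lam • (1 : A.R) - e) * (lam • (1 : A.R) - f) * (lam • (1 : A.R) - e) =
      lam ^ 3 • (1 : A.R) - lam ^ 2 • (2 • e + f) + lam • (e * f + f * e + e * e) - e * f * e := by
    simp only [sub_mul, mul_sub, smul_mul_assoc, mul_smul_comm, one_mul, mul_one, mul_assoc]
    module
  have g2 : (lam • (1 : A.R) - f) * (lam • (1 : A.R) - e) * (lam • (1 : A.R) - f) =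
      lam ^ 3 • (1 : A.R) - lam ^ 2 • (2 • f + e) + lam • (f * e + e * f + f * f) - f * e * f := by
    simp only [sub_mul, mul_sub, smul_mul_assoc, mul_smul_comm, one_mul, mul_one, mul_assoc]
    module
  rw [g1, g2, h3, h1, h2]
  match_scalars <;> field_simp <;> ring

lemma v6_far (i j : ℕ) (h : i + 2 ≤ j ∨ j + 2 ≤ i) : A.sp i * A.sp j = A.sp j * A.sp i := by
  have h1 : Commute (A.E i (i + 1)) (A.E j (j + 1)) :=
    A.ee i (i + 1) j (j + 1) (by omega) (by omega) (by omega) (by omega) (by omega) (by omega)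
  have h2 : Commute (lam • (1 : A.R) - A.E i (i + 1)) (lam • (1 : A.R) - A.E j (j + 1)) := by
    refine Commute.sub_left ((Commute.one_left _).smul_left lam) ?_
    exact Commute.sub_right ((Commute.one_right _).smul_right lam) h1
  exact ((h2.smul_left ((lam⁻¹) ^ n)).smul_right ((lam⁻¹) ^ n)).eq

/-- Relations with the exchanges. -/
lemma v6_vt (F : ℕ → ℕ → A.R)
    (hF : ∀ i j a b, a ≠ b → A.S i j * F a b = F (Equiv.swap i j a) (Equiv.swap i j b) * A.S i j) :
    Cmp A.vt (fun i => F i (i + 1)) where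
  far i j h := by
    show A.S i (i + 1) * F j (j + 1) = F j (j + 1) * A.S i (i + 1)
    rw [hF i (i + 1) j (j + 1) (by omega), Equiv.swap_apply_of_ne_of_ne (by omega) (by omega),
      Equiv.swap_apply_of_ne_of_ne (by omega) (by omega)]
  b1 i := by
    show A.S (i + 1) (i + 1 + 1) * A.S i (i + 1) * F (i + 1) (i + 1 + 1) =
      F i (i + 1) * (A.S (i + 1) (i + 1 + 1) * A.S i (i + 1))
    have e1 : A.S i (i + 1) * F (i + 1) (i + 1 + 1) = F i (i + 1 + 1) * A.S i (i + 1) := by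
      rw [hF i (i + 1) (i + 1) (i + 1 + 1) (by omega), Equiv.swap_apply_right,
        Equiv.swap_apply_of_ne_of_ne (by omega) (by omega)]
    have e2 : A.S (i + 1) (i + 1 + 1) * F i (i + 1 + 1) = F i (i + 1) * A.S (i + 1) (i + 1 + 1) := by
      rw [hF (i + 1) (i + 1 + 1) i (i + 1 + 1) (by omega), Equiv.swap_apply_right,
        Equiv.swap_apply_of_ne_of_ne (by omega) (by omega)]
    rw [mul_assoc, e1, ← mul_assoc, e2, mul_assoc]
  b2 i := by
    show A.S i (i + 1) * A.S (i + 1) (i + 1 + 1) * F i (i + 1) =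
      F (i + 1) (i + 1 + 1) * (A.S i (i + 1) * A.S (i + 1) (i + 1 + 1))
    have e1 : A.S (i + 1) (i + 1 + 1) * F i (i + 1) = F i (i + 1 + 1) * A.S (i + 1) (i + 1 + 1) := by
      rw [hF (i + 1) (i + 1 + 1) i (i + 1) (by omega), Equiv.swap_apply_left,
        Equiv.swap_apply_of_ne_of_ne (by omega) (by omega)]
    have e2 : A.S i (i + 1) * F i (i + 1 + 1) = F (i + 1) (i + 1 + 1) * A.S i (i + 1) := by
      rw [hF i (i + 1) i (i + 1 + 1) (by omega), Equiv.swap_apply_left,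
        Equiv.swap_apply_of_ne_of_ne (by omega) (by omega)]
    rw [mul_assoc, e1, ← mul_assoc, e2, mul_assoc]

end

end VA

namespace VA

section

variable {L : Type} [Field L] {lam : L} {n : ℕ} (A : VA L lam n)

lemma cmp_sp_sp (hl : lam ≠ 0) : Cmp A.sp A.sp := by
  refine ⟨A.v6_far, fun i => ?_, fun i => ?_⟩
  · rw [← A.v6_braid hl i, mul_assoc]
  · rw [A.v6_braid hl i, mul_assoc]

lemma cmp_sp_sn (hl : lam ≠ 0) : Cmp A.sp A.sn := by
  exact v6_cmp_y (A.cmp_sp_sp hl) (A.sp_sn hl) (A.sn_sp hl)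

lemma cmp_sn_sp (hl : lam ≠ 0) : Cmp A.sn A.sp := by
  exact v6_cmp_c (A.cmp_sp_sp hl) (A.sp_sn hl) (A.sn_sp hl)

lemma cmp_sn_sn (hl : lam ≠ 0) : Cmp A.sn A.sn := by
  exact v6_cmp_c (A.cmp_sp_sn hl) (A.sp_sn hl) (A.sn_sp hl)

lemma cmp_vt_sp : Cmp A.vt A.sp := by
  exact A.v6_vt A.cr (fun i j a b h => A.S_cr i j a b h)

lemma cmp_vt_sn : Cmp A.vt A.sn := by
  exact A.v6_vt A.ci (fun i j a b h => A.S_ci i j a b h)

lemma cmp_vt_vt : Cmp A.vt A.vt := by
  exact A.v6_vt A.S (fun i j a b _ => A.sS i j a b)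

lemma sp_vt_far (i j : ℕ) (h : i + 2 ≤ j ∨ j + 2 ≤ i) : A.sp i * A.vt j = A.vt j * A.sp i := by
  exact (A.cmp_vt_sp.far j i (by omega)).symm

lemma sn_vt_far (i j : ℕ) (h : i + 2 ≤ j ∨ j + 2 ≤ i) : A.sn i * A.vt j = A.vt j * A.sn i := by
  exact (A.cmp_vt_sn.far j i (by omega)).symm

end

end VA

end CO
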