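import Pool.Agent.H61.CO.X1

/-!
# The other factorization of a crossing, inverses, the flip (row CO X2; pure ring theory)

Proofs.
`Xp_left`: induction on `q`.  `q = 0`: all factors are `1`.
`Xp c x (p+1) (q+1) = Xp c x (p+1) q * Dp c (x+q) (p+1) =
Up c (x+p) q * Xp c x p q * (c (x+q+p) * Dp c (x+q) p)`; `c (x+q+p)` commutes with `Xp c x p q` by
`Xp_far` (`x + p + q ≤ x + q + p`), so this is
`Up c (x+p) q * c (x+p+q) * (Xp c x p q * Dp c (x+q) p) = Up c (x+p) (q+1) * Xp c x p (q+1)`.
`Up_Dp`, `Dp_Up`: induction on `l` (`Up_succ`, `Dp_succ` for the first,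
`Dp_succ'`, `Up_succ'` or again `succ` for the second).
`Xp_inv`: induction on `p` (all `x q`): `p = 0`: `Xp_zero_left` and `Xp c' x q 0 = 1`.  Step:
`Xp c x (p+1) q * Xp c' x q (p+1) = Up c (x+p) q * (Xp c x p q * Xp c' x q p) * Dp c' (x+p) q = 1`.
`Xp_inv'`: `Xp c' x q (p+1) * Xp c x (p+1) q = Xp c' x q p * (Dp c' (x+p) q * Up c (x+p) q) *
Xp c x p q = 1`.
`Xp_flip`: `Dp c' (x+j) p = Up c (x+q-1-j) p` for `j < q` (induction on `p` or, more generally: if
`c' i = c j` whenever `i + j = s` and `u ≤ i < u + l`, then `Dp c' u l = Up c (s + 1 - u - l) l`; with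
`Dp_succ` and `Up_succ'`).  So `Xp c' x p q` is the product over `j = 0, ..., q-1` of
`Up c (x+q-1-j) p`, which is `Xp c x q p` by `Xp_left` used `q` times.  For the induction it is
convenient to prove for `r ≤ q`: `Xp c x q p = Xp c' x p r * Xp c x (q - r) p`
(step: `Xp c x (q-r) p = Up c (x+(q-r-1)) p * Xp c x (q-r-1) p`), and to take `r = q`.
-/

namespace CO

section

variable {R : Type} [Ring R] {c c' : ℕ → R}

lemma Xp_left (hc : Cmp c c) (x p q : ℕ) :
    Xp c x (p + 1) q = Up c (x + p) q * Xp c x p q := by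
  induction q with
  | zero => simp
  | succ q ih =>
    rw [Xp_succ, ih, Xp_succ, Up_succ, Dp_succ, mul_assoc, ← mul_assoc (Xp c x p q),
      Xp_far hc x p q (x + q + p) (Or.inl (by omega)), show x + p + q = x + q + p by omega]
    simp only [mul_assoc]

lemma Up_Dp (h : ∀ i, c i * c' i = 1) (x l : ℕ) : Up c x l * Dp c' x l = 1 := by
  induction l with
  | zero => simp
  | succ l ih =>
    rw [Up_succ, Dp_succ, mul_assoc, ← mul_assoc (c (x + l)), h, one_mul, ih]

lemma Dp_Up (h : ∀ i, c' i * c i = 1) (x l : ℕ) : Dp c' x l * Up c x l = 1 := by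
  induction l generalizing x with
  | zero => simp
  | succ l ih =>
    rw [Up_succ', Dp_succ', mul_assoc, ← mul_assoc (c' x), h, one_mul, ih]

lemma Xp_inv (hc : Cmp c c) (h : ∀ i, c i * c' i = 1) (x p q : ℕ) :
    Xp c x p q * Xp c' x q p = 1 := by
  induction p with
  | zero => rw [Xp_zero_left, Xp_zero, mul_one]
  | succ p ih =>
    rw [Xp_left hc, Xp_succ, mul_assoc, ← mul_assoc (Xp c x p q), ih, one_mul, Up_Dp h]

lemma Xp_inv' (hc : Cmp c c) (h : ∀ i, c' i * c i = 1) (x p q : ℕ) :
    Xp c' x q p * Xp c x p q = 1 := by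
  induction p with
  | zero => rw [Xp_zero_left, Xp_zero, mul_one]
  | succ p ih =>
    rw [Xp_left hc, Xp_succ, mul_assoc, ← mul_assoc (Dp c' (x + p) q), Dp_Up h, one_mul, ih]

private lemma x2_flip (u s l : ℕ) (hs : u + l ≤ s + 1)
    (h : ∀ i j, u ≤ i → i < u + l → i + j = s → c' i = c j) :
    Dp c' u l = Up c (s + 1 - u - l) l := by
  induction l with
  | zero => simp
  | succ l ih =>
    rw [Dp_succ, Up_succ', ih (by omega) fun i j h1 h2 h3 => h i j h1 (by omega) h3,
      h (u + l) (s + 1 - u - (l + 1)) (by omega) (by omega) (by omega),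
      show s + 1 - u - (l + 1) + 1 = s + 1 - u - l by omega]

lemma Xp_flip (hc : Cmp c c) (x p q : ℕ)
    (h : ∀ i j, x ≤ i → x ≤ j → i + j + 2 = 2 * x + p + q → c' i = c j) :
    Xp c' x p q = Xp c x q p := by
  have key : ∀ r, r ≤ q → Xp c x q p = Xp c' x p r * Xp c x (q - r) p := by
    intro r
    induction r with
    | zero => intro _; simp
    | succ r ih =>
      intro hr
      rw [ih (by omega), Xp_succ, show q - r = (q - (r + 1)) + 1 by omega, Xp_left hc, mul_assoc]
      congr 2
      rcases Nat.eq_zero_or_pos p with hp | hp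
      · subst hp; simp
      · rw [x2_flip (c := c) (c' := c') (x + r) (2 * x + p + q - 2) p (by omega)
          fun i j h1 h2 h3 => h i j (by omega) (by omega) (by omega)]
        congr 1
        omega
  have := key q le_rfl
  rw [Nat.sub_self, Xp_zero_left, mul_one] at this
  exact this.symm

end

end CO
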