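import Pool.Agent.H61.CO.PDefs
import Pool.Agent.H61.CO.PA
import Pool.Agent.H61.CO.X2
import Pool.Agent.H61.CO.V6

/-!
# The pure form of the crossing of two bundles (row CO PB)

Proofs.
`qd_qi`, `qi_qd`: induction on `p` with `rr_ri`, `ri_rr`.  `RR_RI`, `RI_RR`: induction on `q`.
`vt_qd`: `vt (y+p) * qd y (y+p) p = qd y (y+p+1) p * vt (y+p)`: for `p' ≤ p` prove
`vt (y+p) * qd y (y+p) p' = qd y (y+p+1) p' * vt (y+p)` by induction on `p'` with `S_rr`: the swap of
`y+p`, `y+p+1` fixes `y+p'` (`p' < p`) and maps `y+p` to `y+p+1`.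
`Dp_pure`: induction on `p`: `Dp A.sp y (p+1) = sp (y+p) * Dp A.sp y p =
rr (y+p) (y+p+1) * vt (y+p) * qd y (y+p) p * Dp A.vt y p` as `sp = cr = rr * S` (`rr = cr * S`,
`S * S = 1`), then `vt_qd`.
`Xp_pure`: induction on `q`: `Xp A.sp x p (q+1) = RR x p (x+p) q * Xp A.vt x p q *
(qd (x+q) (x+q+p) p * Dp A.vt (x+q) p)` and `Xp A.vt x p q * qd (x+q) (x+q+p) p =
qd x (x+p+q) p * Xp A.vt x p q` (for `p' ≤ p` factors by induction, with `Xp_rr`, `cx_hi`, `cx_fix`).
`T_T`: `Xp_inv` with `c = c' = vt`.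
`Xn_pure`: `Xp A.sp x k k * Xp A.sn x k k = 1` (`Xp_inv`), `Xp A.sp x k k = RR * T`, `T * T = 1`; so
`Xp A.sn x k k = T * RI` (multiply `RR * T * Xn = 1` from the left by `T * RI`).
-/

namespace CO

namespace VA

section

variable {L : Type} [Field L] {lam : L} {n : ℕ} (A : VA L lam n)

lemma qd_qi (hl : lam ≠ 0) (y b p : ℕ) (h : b < y ∨ y + p ≤ b) :
    A.qd y b p * A.qi y b p = 1 := by
  induction p with
  | zero => simp [qd, qi]
  | succ p ih =>
    have h1 : A.rr (y + p) b * A.ri (y + p) b = 1 := A.rr_ri hl _ _ (by omega)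
    calc A.qd y b (p + 1) * A.qi y b (p + 1)
        = A.rr (y + p) b * (A.qd y b p * A.qi y b p) * A.ri (y + p) b := by
          simp only [qd, qi, mul_assoc]
      _ = 1 := by rw [ih (by omega), mul_one, h1]

lemma qi_qd (hl : lam ≠ 0) (y b p : ℕ) (h : b < y ∨ y + p ≤ b) :
    A.qi y b p * A.qd y b p = 1 := by
  induction p with
  | zero => simp [qd, qi]
  | succ p ih =>
    have h1 : A.ri (y + p) b * A.rr (y + p) b = 1 := A.ri_rr hl _ _ (by omega)
    calc A.qi y b (p + 1) * A.qd y b (p + 1)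
        = A.qi y b p * (A.ri (y + p) b * A.rr (y + p) b) * A.qd y b p := by
          simp only [qd, qi, mul_assoc]
      _ = 1 := by rw [h1, mul_one, ih (by omega)]

lemma RR_RI (hl : lam ≠ 0) (x p b q : ℕ) (h : x + p ≤ b) :
    A.RR x p b q * A.RI x p b q = 1 := by
  induction q with
  | zero => simp [RR, RI]
  | succ q ih =>
    calc A.RR x p b (q + 1) * A.RI x p b (q + 1)
        = A.RR x p b q * (A.qd x (b + q) p * A.qi x (b + q) p) * A.RI x p b q := by
          simp only [RR, RI, mul_assoc]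
      _ = 1 := by rw [A.qd_qi hl _ _ _ (by omega), mul_one, ih]

lemma RI_RR (hl : lam ≠ 0) (x p b q : ℕ) (h : x + p ≤ b) :
    A.RI x p b q * A.RR x p b q = 1 := by
  induction q with
  | zero => simp [RR, RI]
  | succ q ih =>
    calc A.RI x p b (q + 1) * A.RR x p b (q + 1)
        = A.qi x (b + q) p * (A.RI x p b q * A.RR x p b q) * A.qd x (b + q) p := by
          simp only [RR, RI, mul_assoc]
      _ = 1 := by rw [ih, mul_one, A.qi_qd hl _ _ _ (by omega)]

lemma vt_qd_aux (y p p' : ℕ) (h : p' ≤ p) :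
    A.vt (y + p) * A.qd y (y + p) p' = A.qd y (y + p + 1) p' * A.vt (y + p) := by
  induction p' with
  | zero => simp [qd]
  | succ r ih =>
    have h1 : A.vt (y + p) * A.rr (y + r) (y + p) = A.rr (y + r) (y + p + 1) * A.vt (y + p) := by
      have := A.S_rr (y + p) (y + p + 1) (y + r) (y + p) (by omega)
      rw [Equiv.swap_apply_of_ne_of_ne (by omega) (by omega), Equiv.swap_apply_left] at this
      exact this
    calc A.vt (y + p) * A.qd y (y + p) (r + 1)
        = (A.vt (y + p) * A.rr (y + r) (y + p)) * A.qd y (y + p) r := by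
          simp only [qd, mul_assoc]
      _ = A.rr (y + r) (y + p + 1) * (A.vt (y + p) * A.qd y (y + p) r) := by
          rw [h1, mul_assoc]
      _ = A.qd y (y + p + 1) (r + 1) * A.vt (y + p) := by
          rw [ih (by omega)]; simp only [qd, mul_assoc]

lemma sp_eq (i : ℕ) : A.sp i = A.rr i (i + 1) * A.vt i := by
  unfold sp rr vt
  rw [mul_assoc, A.ss, mul_one]

lemma Dp_pure (y p : ℕ) : Dp A.sp y p = A.qd y (y + p) p * Dp A.vt y p := by
  induction p with
  | zero => simp [qd]
  | succ p ih =>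
    calc Dp A.sp y (p + 1) = A.rr (y + p) (y + p + 1) * (A.vt (y + p) * A.qd y (y + p) p) *
          Dp A.vt y p := by
          rw [Dp_succ, ih, sp_eq]; simp only [mul_assoc]
      _ = A.qd y (y + (p + 1)) (p + 1) * Dp A.vt y (p + 1) := by
          rw [A.vt_qd_aux y p p le_rfl, Dp_succ]
          simp only [qd, mul_assoc, ← add_assoc]

lemma Xp_qd_aux (x p q p' : ℕ) (h : p' ≤ p) :
    Xp A.vt x p q * A.qd (x + q) (x + q + p) p' = A.qd x (x + p + q) p' * Xp A.vt x p q := by
  induction p' with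
  | zero => simp [qd]
  | succ r ih =>
    have h1 : Xp A.vt x p q * A.rr (x + q + r) (x + q + p) =
        A.rr (x + r) (x + p + q) * Xp A.vt x p q := by
      rw [A.Xp_rr x p q _ _ (by omega), cx_hi x p q r (by omega),
        cx_fix x p q (x + q + p) (by omega), show x + q + p = x + p + q by omega]
    calc Xp A.vt x p q * A.qd (x + q) (x + q + p) (r + 1)
        = (Xp A.vt x p q * A.rr (x + q + r) (x + q + p)) * A.qd (x + q) (x + q + p) r := by
          simp only [qd, mul_assoc]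
      _ = A.rr (x + r) (x + p + q) * (Xp A.vt x p q * A.qd (x + q) (x + q + p) r) := by
          rw [h1, mul_assoc]
      _ = A.qd x (x + p + q) (r + 1) * Xp A.vt x p q := by
          rw [ih (by omega)]; simp only [qd, mul_assoc]

lemma Xp_pure (x p q : ℕ) : Xp A.sp x p q = A.RR x p (x + p) q * Xp A.vt x p q := by
  induction q with
  | zero => simp [RR]
  | succ q ih =>
    calc Xp A.sp x p (q + 1)
        = A.RR x p (x + p) q * (Xp A.vt x p q * A.qd (x + q) (x + q + p) p) *
            Dp A.vt (x + q) p := by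
          rw [Xp_succ, ih, A.Dp_pure]; simp only [mul_assoc]
      _ = A.RR x p (x + p) (q + 1) * Xp A.vt x p (q + 1) := by
          rw [A.Xp_qd_aux x p q p le_rfl, Xp_succ]
          simp only [RR, mul_assoc]

lemma T_T (x k : ℕ) : Xp A.vt x k k * Xp A.vt x k k = 1 :=
  Xp_inv A.cmp_vt_vt A.vt_vt x k k

lemma Xn_pure (hl : lam ≠ 0) (x k : ℕ) :
    Xp A.sn x k k = Xp A.vt x k k * A.RI x k (x + k) k := by
  have h1 : Xp A.sp x k k * Xp A.sn x k k = 1 := Xp_inv (A.cmp_sp_sp hl) (A.sp_sn hl) x k k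
  rw [A.Xp_pure] at h1
  have h2 : A.RI x k (x + k) k * A.RR x k (x + k) k = 1 := A.RI_RR hl x k (x + k) k le_rfl
  have h3 := A.T_T x k
  calc Xp A.sn x k k = Xp A.vt x k k * ((A.RI x k (x + k) k * A.RR x k (x + k) k) *
        Xp A.vt x k k) * Xp A.sn x k k := by rw [h2, one_mul, h3, one_mul]
    _ = Xp A.vt x k k * A.RI x k (x + k) k * (A.RR x k (x + k) k * Xp A.vt x k k *
        Xp A.sn x k k) := by simp only [mul_assoc]
    _ = _ := by rw [h1, mul_one]

end

end VA

end CO
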