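import Pool.Agent.H61.CO.V2

/-!
# Labels of products (row CO V5)

Proofs: induction.  `Dp c p l` has the letters `c i`, `p ≤ i < p + l`; `Xp c x p q` those with
`x ≤ i`, `i + 1 < x + p + q`; `Ap r c x k` those with `x ≤ i`, `i + 1 < x + k`.  The letter `sp i` (`sn i`,
`vt i`) has the labels `i`, `i + 1`.  So `A.bl k a` has labels in `[k * a.ix, k * a.ix + 2 k)`, `A.Y x k`
in `[x, x + k)`, `A.YY k m` in `[0, k * m)`, `A.YB k m` in `[k, k * (m + 1))`.
`BOk m w`: `a.ix + 1 < m` for all letters, so `k * a.ix + 2 k ≤ k * m` (`nlinarith` or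
`Nat.mul_le_mul_left`).
-/

namespace CO

open ZM

section

variable {R : Type} [Ring R] {K : Type} [Field K] [Algebra K R]

lemma Dp_mem (F : Subalgebra K R) {c : ℕ → R} {p l : ℕ}
    (h : ∀ i, p ≤ i → i < p + l → c i ∈ F) : Dp c p l ∈ F := by
  induction l with
  | zero => exact F.one_mem
  | succ l ih =>
    rw [Dp_succ]
    exact F.mul_mem (h _ (by omega) (by omega)) (ih fun i h1 h2 => h i h1 (by omega))

lemma Xp_mem (F : Subalgebra K R) {c : ℕ → R} {x p q : ℕ}
    (h : ∀ i, x ≤ i → i + 1 < x + p + q → c i ∈ F) : Xp c x p q ∈ F := by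
  induction q with
  | zero => exact F.one_mem
  | succ q ih =>
    rw [Xp_succ]
    exact F.mul_mem (ih fun i h1 h2 => h i h1 (by omega))
      (Dp_mem F fun i h1 h2 => h i (by omega) (by omega))

lemma Ap_mem (F : Subalgebra K R) (r : K) {c : ℕ → R} {x k : ℕ}
    (h : ∀ i, x ≤ i → i + 1 < x + k → c i ∈ F) : Ap r c x k ∈ F := by
  induction k with
  | zero => exact F.one_mem
  | succ k ih =>
    rw [Ap_succ]
    refine F.mul_mem (ih fun i h1 h2 => h i h1 (by omega))
      (F.sum_mem fun i hi => F.smul_mem ?_ _)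
    rw [Finset.mem_range] at hi
    exact Dp_mem F fun j h1 h2 => h j (by omega) (by omega)

end

namespace VA

section

variable {L : Type} [Field L] {lam : L} {n : ℕ} (A : VA L lam n)

lemma bl_mem (k : ℕ) (a : BL) (b : ℕ) (h : b < k * a.ix ∨ k * (a.ix + 2) ≤ b) :
    A.bl k a ∈ A.Fr b := by
  cases a with
  | sg i s =>
    have h' : b < k * i ∨ k * i + 2 * k ≤ b := by
      rcases h with h | h
      · exact Or.inl h
      · right
        have h2 : k * (i + 2) ≤ b := h
        have h3 : k * (i + 2) = k * i + 2 * k := by ring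
        omega
    cases s with
    | false =>
      refine Xp_mem (A.Fr b) fun j h1 h2 => A.sn_mem ?_ ?_
      · rcases h' with h' | h' <;> omega
      · rcases h' with h' | h' <;> omega
    | true =>
      refine Xp_mem (A.Fr b) fun j h1 h2 => A.sp_mem ?_ ?_
      · rcases h' with h' | h' <;> omega
      · rcases h' with h' | h' <;> omega
  | ta i =>
    have h' : b < k * i ∨ k * i + 2 * k ≤ b := by
      rcases h with h | h
      · exact Or.inl h
      · right
        have h2 : k * (i + 2) ≤ b := h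
        have h3 : k * (i + 2) = k * i + 2 * k := by ring
        omega
    refine Xp_mem (A.Fr b) fun j h1 h2 => A.vt_mem ?_ ?_
    · rcases h' with h' | h' <;> omega
    · rcases h' with h' | h' <;> omega

lemma bv_mem (k m : ℕ) {w : List BL} (hw : BOk m w) (b : ℕ) (h : k * m ≤ b) :
    A.bv k w ∈ A.Fr b := by
  induction w with
  | nil => exact (A.Fr b).one_mem
  | cons a w ih =>
    rw [bv_cons]
    refine (A.Fr b).mul_mem (A.bl_mem k a b (Or.inr ?_))
      (ih fun c hc => hw c (List.mem_cons_of_mem _ hc))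
    have h1 : a.ix + 1 < m := hw a List.mem_cons_self
    exact (Nat.mul_le_mul_left k (by omega)).trans h

lemma bv_mem_shift (k : ℕ) (w : List BL) (b : ℕ) (h : b < k) :
    A.bv k (w.map BL.shift) ∈ A.Fr b := by
  induction w with
  | nil => exact (A.Fr b).one_mem
  | cons a w ih =>
    rw [List.map_cons, bv_cons]
    refine (A.Fr b).mul_mem (A.bl_mem k a.shift b (Or.inl ?_)) ih
    have h1 : a.shift.ix = a.ix + 1 := by cases a <;> rfl
    rw [h1]
    exact h.trans_le (Nat.le_mul_of_pos_right k (Nat.succ_pos _))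

lemma Y_mem (x k b : ℕ) (h : b < x ∨ x + k ≤ b) : A.Y x k ∈ A.Fr b :=
  Ap_mem (A.Fr b) _ fun i h1 h2 => A.sp_mem (by omega) (by omega)

lemma YY_mem (k m b : ℕ) (h : k * m ≤ b) : A.YY k m ∈ A.Fr b := by
  induction m with
  | zero => exact (A.Fr b).one_mem
  | succ m ih =>
    have h1 : k * (m + 1) = k * m + k := by ring
    exact (A.Fr b).mul_mem (ih (by omega)) (A.Y_mem (k * m) k b (Or.inr (by omega)))

lemma YB_mem (k m b : ℕ) (h : b < k) : A.YB k m ∈ A.Fr b := by
  induction m with
  | zero => exact (A.Fr b).one_mem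
  | succ m ih =>
    exact (A.Fr b).mul_mem ih (A.Y_mem (k * (m + 1)) k b
      (Or.inl (h.trans_le (Nat.le_mul_of_pos_right k (Nat.succ_pos _)))))

end

end VA

end CO
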