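import Pool.Agent.H61.CO.PDefs
import Pool.Agent.H61.CO.V5

/-!
# Removing pure crossings, right version (row CO PC)

Proofs.
Membership: `qd y b p`, `qi y b p` have the labels `b` and `y, ..., y+p-1`; `RR x p b q`, `RI x p b q`
the labels `x, ..., x+p-1` and `b, ..., b+q-1` (induction, `rr_mem`, `ri_mem`).
`ex_qd`: induction on `p` (all `U`): with `d = qd y b p`, `i = qi y b p`:
`tr (U * (i * ri (y+p) b) * V * (rr (y+p) b * d)) = tr ((d * U * i) * ri (y+p) b * V * rr (y+p) b)` by
cyclicity; `d * U * i` is without `y+p` and `V` without `b`, so by `VA.ex` it is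
`tr (d * U * i * V) = tr (U * i * V * d)`; induction hypothesis.
`ex_RR`: induction on `q`: with `d = qd x (b+q) p`, `i = qi x (b+q) p`:
`tr (U * (i * RI q) * V * (RR q * d)) = tr (U * i * (RI q * V * RR q) * d)`, the element
`RI q * V * RR q` is without `b + q`; by `ex_qd` it is `tr (U * (RI q * V * RR q))`; induction
hypothesis.
-/

namespace CO

open ZM

namespace VA

section

variable {L : Type} [Field L] {lam : L} {n : ℕ} (A : VA L lam n)

lemma qd_mem (y b p l : ℕ) (h1 : l ≠ b) (h2 : l < y ∨ y + p ≤ l) (h3 : b < y ∨ y + p ≤ b) :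
    A.qd y b p ∈ A.Fr l := by
  induction p with
  | zero => exact one_mem _
  | succ p ih =>
    change A.rr (y + p) b * A.qd y b p ∈ A.Fr l
    exact mul_mem (A.rr_mem (by omega) h1.symm (by omega)) (ih (by omega) (by omega))

lemma qi_mem (y b p l : ℕ) (h1 : l ≠ b) (h2 : l < y ∨ y + p ≤ l) (h3 : b < y ∨ y + p ≤ b) :
    A.qi y b p ∈ A.Fr l := by
  induction p with
  | zero => exact one_mem _
  | succ p ih =>
    change A.qi y b p * A.ri (y + p) b ∈ A.Fr l
    exact mul_mem (ih (by omega) (by omega)) (A.ri_mem (by omega) h1.symm (by omega))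

lemma RR_mem (x p b q l : ℕ) (h1 : l < x ∨ x + p ≤ l) (h2 : l < b ∨ b + q ≤ l)
    (h3 : x + p ≤ b) : A.RR x p b q ∈ A.Fr l := by
  induction q with
  | zero => exact one_mem _
  | succ q ih =>
    change A.RR x p b q * A.qd x (b + q) p ∈ A.Fr l
    exact mul_mem (ih (by omega)) (A.qd_mem x (b + q) p l (by omega) h1 (by omega))

lemma RI_mem (x p b q l : ℕ) (h1 : l < x ∨ x + p ≤ l) (h2 : l < b ∨ b + q ≤ l)
    (h3 : x + p ≤ b) : A.RI x p b q ∈ A.Fr l := by
  induction q with
  | zero => exact one_mem _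
  | succ q ih =>
    change A.qi x (b + q) p * A.RI x p b q ∈ A.Fr l
    exact mul_mem (A.qi_mem x (b + q) p l (by omega) h1 (by omega)) (ih (by omega))

theorem ex_qd (hl : lam ≠ 0) (hn : 2 ≤ n) (hd : qint lam n ≠ 0) (y b p : ℕ)
    (h : b < y ∨ y + p ≤ b) {U V : A.R} (hU : ∀ a, y ≤ a → a < y + p → U ∈ A.Fr a)
    (hV : V ∈ A.Fr b) : A.tr (U * A.qi y b p * V * A.qd y b p) = A.tr (U * V) := by
  induction p with
  | zero =>
    change A.tr (U * 1 * V * 1) = A.tr (U * V)
    rw [mul_one, mul_one]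
  | succ p ih =>
    have hi := ih (by omega) (fun a h1 h2 => hU a h1 (by omega))
    change A.tr (U * (A.qi y b p * A.ri (y + p) b) * V * (A.rr (y + p) b * A.qd y b p)) = _
    rw [← hi]
    obtain ⟨d, hd'⟩ : ∃ d, d = A.qd y b p := ⟨_, rfl⟩
    obtain ⟨i, hi'⟩ : ∃ i, i = A.qi y b p := ⟨_, rfl⟩
    have hdm : d ∈ A.Fr (y + p) := by
      rw [hd']; exact A.qd_mem y b p (y + p) (by omega) (Or.inr le_rfl) (by omega)
    have him : i ∈ A.Fr (y + p) := by
      rw [hi']; exact A.qi_mem y b p (y + p) (by omega) (Or.inr le_rfl) (by omega)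
    have hUm : U ∈ A.Fr (y + p) := hU (y + p) (by omega) (by omega)
    rw [← hd', ← hi']
    have e1 : U * (i * A.ri (y + p) b) * V * (A.rr (y + p) b * d) =
        (U * i * A.ri (y + p) b * V * A.rr (y + p) b) * d := by
      simp only [mul_assoc]
    have e2 : d * (U * i * A.ri (y + p) b * V * A.rr (y + p) b) =
        (d * U * i) * A.ri (y + p) b * V * A.rr (y + p) b := by
      simp only [mul_assoc]
    rw [e1, A.cyc, e2, A.ex hl hn hd (by omega : y + p ≠ b) (mul_mem (mul_mem hdm hUm) him) hV]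
    have e3 : d * U * i * V = d * (U * i * V) := by simp only [mul_assoc]
    rw [e3, A.cyc]

theorem ex_RR (hl : lam ≠ 0) (hn : 2 ≤ n) (hd : qint lam n ≠ 0) (x p b q : ℕ)
    (h : x + p ≤ b) {U V : A.R} (hU : ∀ a, x ≤ a → a < x + p → U ∈ A.Fr a)
    (hV : ∀ a, b ≤ a → a < b + q → V ∈ A.Fr a) :
    A.tr (U * A.RI x p b q * V * A.RR x p b q) = A.tr (U * V) := by
  induction q with
  | zero =>
    change A.tr (U * 1 * V * 1) = A.tr (U * V)
    rw [mul_one, mul_one]
  | succ q ih =>
    have hi := ih (fun a h1 h2 => hV a h1 (by omega))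
    change A.tr (U * (A.qi x (b + q) p * A.RI x p b q) * V * (A.RR x p b q * A.qd x (b + q) p)) = _
    have hm : A.RI x p b q * V * A.RR x p b q ∈ A.Fr (b + q) :=
      mul_mem (mul_mem (A.RI_mem x p b q (b + q) (by omega) (by omega) h)
        (hV (b + q) (by omega) (by omega))) (A.RR_mem x p b q (b + q) (by omega) (by omega) h)
    have h1 := A.ex_qd hl hn hd x (b + q) p (by omega) hU hm
    have e1 : U * (A.qi x (b + q) p * A.RI x p b q) * V * (A.RR x p b q * A.qd x (b + q) p) =
        U * A.qi x (b + q) p * (A.RI x p b q * V * A.RR x p b q) * A.qd x (b + q) p := by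
      simp only [mul_assoc]
    rw [e1, h1, ← hi]
    congr 1
    simp only [mul_assoc]

end

end VA

end CO
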