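import Pool.Agent.H61.CO.PC

/-!
# Removing pure crossings, left version (row CO PD)

Proofs.
`qd_left`: `qd y b (p+1) = qd (y+1) b p * rr y b`, `qi y b (p+1) = ri y b * qi (y+1) b p`, and
`RR_left`: `RR x p b (q+1) = qd x b p * RR x p (b+1) q`, `RI x p b (q+1) = RI x p (b+1) q * qi x b p`:
induction (as `y + (p+1) = (y+1) + p`, `b + (q+1) = (b+1) + q`).
`ex_qd'`: induction on `p` (all `y`, `V`): `tr (U * (ri y b * i) * V * (d * rr y b)) =
tr (U * ri y b * (i * V * d) * rr y b)` with `i = qi (y+1) b p`, `d = qd (y+1) b p`; `U` is without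
`b`, `i * V * d` without `y`: by `VA.ex'` (with `p := y`) it is `tr (U * (i * V * d))`; induction
hypothesis.
`ex_RR'`: induction on `q` (all `b`, `U`): with `P = RR x p (b+1) q`, `Q = RI x p (b+1) q`:
`tr (U * (Q * qi x b p) * V * (qd x b p * P)) = tr ((P * U * Q) * qi x b p * V * qd x b p)`;
`P * U * Q` is without `b`, `V` is without `x, ..., x+p-1`: by `ex_qd'` it is `tr (P * U * Q * V) =
tr (U * Q * V * P)`; induction hypothesis.
-/

namespace CO

open ZM

namespace VA

section

variable {L : Type} [Field L] {lam : L} {n : ℕ} (A : VA L lam n)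

lemma qd_left (y b p : ℕ) : A.qd y b (p + 1) = A.qd (y + 1) b p * A.rr y b := by
  induction p with
  | zero =>
    change A.rr (y + 0) b * 1 = 1 * A.rr y b
    rw [mul_one, one_mul, add_zero]
  | succ p ih =>
    change A.rr (y + (p + 1)) b * A.qd y b (p + 1) = A.rr (y + 1 + p) b * A.qd (y + 1) b p * A.rr y b
    rw [ih, mul_assoc, show y + (p + 1) = y + 1 + p by omega]

lemma qi_left (y b p : ℕ) : A.qi y b (p + 1) = A.ri y b * A.qi (y + 1) b p := by
  induction p with
  | zero =>
    change 1 * A.ri (y + 0) b = A.ri y b * 1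
    rw [mul_one, one_mul, add_zero]
  | succ p ih =>
    change A.qi y b (p + 1) * A.ri (y + (p + 1)) b = A.ri y b * (A.qi (y + 1) b p * A.ri (y + 1 + p) b)
    rw [ih, mul_assoc, show y + (p + 1) = y + 1 + p by omega]

lemma RR_left (x p b q : ℕ) : A.RR x p b (q + 1) = A.qd x b p * A.RR x p (b + 1) q := by
  induction q with
  | zero =>
    change 1 * A.qd x (b + 0) p = A.qd x b p * 1
    rw [mul_one, one_mul, add_zero]
  | succ q ih =>
    change A.RR x p b (q + 1) * A.qd x (b + (q + 1)) p =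
      A.qd x b p * (A.RR x p (b + 1) q * A.qd x (b + 1 + q) p)
    rw [ih, mul_assoc, show b + (q + 1) = b + 1 + q by omega]

lemma RI_left (x p b q : ℕ) : A.RI x p b (q + 1) = A.RI x p (b + 1) q * A.qi x b p := by
  induction q with
  | zero =>
    change A.qi x (b + 0) p * 1 = 1 * A.qi x b p
    rw [mul_one, one_mul, add_zero]
  | succ q ih =>
    change A.qi x (b + (q + 1)) p * A.RI x p b (q + 1) =
      A.qi x (b + 1 + q) p * A.RI x p (b + 1) q * A.qi x b p
    rw [ih, mul_assoc, show b + (q + 1) = b + 1 + q by omega]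

theorem ex_qd' (hl : lam ≠ 0) (hn : 2 ≤ n) (hd : qint lam n ≠ 0) (y b p : ℕ)
    (h : b < y ∨ y + p ≤ b) {U V : A.R} (hU : U ∈ A.Fr b)
    (hV : ∀ a, y ≤ a → a < y + p → V ∈ A.Fr a) :
    A.tr (U * A.qi y b p * V * A.qd y b p) = A.tr (U * V) := by
  induction p generalizing y V with
  | zero =>
    change A.tr (U * 1 * V * 1) = _
    rw [mul_one, mul_one]
  | succ p ih =>
    rw [A.qi_left, A.qd_left]
    have e : U * (A.ri y b * A.qi (y + 1) b p) * V * (A.qd (y + 1) b p * A.rr y b) =
        U * A.ri y b * (A.qi (y + 1) b p * V * A.qd (y + 1) b p) * A.rr y b := by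
      simp only [mul_assoc]
    have hm : A.qi (y + 1) b p * V * A.qd (y + 1) b p ∈ A.Fr y :=
      Subalgebra.mul_mem _ (Subalgebra.mul_mem _
        (A.qi_mem (y + 1) b p y (by omega) (by omega) (by omega)) (hV y le_rfl (by omega)))
        (A.qd_mem (y + 1) b p y (by omega) (by omega) (by omega))
    rw [e, A.ex' hl hn hd (show y ≠ b by omega) hU hm, ← ih (y + 1) (by omega)
      (fun a h1 h2 => hV a (by omega) (by omega))]
    simp only [mul_assoc]

theorem ex_RR' (hl : lam ≠ 0) (hn : 2 ≤ n) (hd : qint lam n ≠ 0) (x p b q : ℕ)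
    (h : x + p ≤ b) {U V : A.R} (hU : ∀ a, b ≤ a → a < b + q → U ∈ A.Fr a)
    (hV : ∀ a, x ≤ a → a < x + p → V ∈ A.Fr a) :
    A.tr (U * A.RI x p b q * V * A.RR x p b q) = A.tr (U * V) := by
  induction q generalizing b U with
  | zero =>
    change A.tr (U * 1 * V * 1) = _
    rw [mul_one, mul_one]
  | succ q ih =>
    rw [A.RR_left, A.RI_left]
    have e : U * (A.RI x p (b + 1) q * A.qi x b p) * V * (A.qd x b p * A.RR x p (b + 1) q) =
        (U * A.RI x p (b + 1) q * A.qi x b p * V * A.qd x b p) * A.RR x p (b + 1) q := by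
      simp only [mul_assoc]
    have e2 : A.RR x p (b + 1) q * (U * A.RI x p (b + 1) q * A.qi x b p * V * A.qd x b p) =
        (A.RR x p (b + 1) q * U * A.RI x p (b + 1) q) * A.qi x b p * V * A.qd x b p := by
      simp only [mul_assoc]
    have hm : A.RR x p (b + 1) q * U * A.RI x p (b + 1) q ∈ A.Fr b :=
      Subalgebra.mul_mem _ (Subalgebra.mul_mem _
        (A.RR_mem x p (b + 1) q b (by omega) (by omega) (by omega)) (hU b le_rfl (by omega)))
        (A.RI_mem x p (b + 1) q b (by omega) (by omega) (by omega))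
    rw [e, A.cyc, e2, A.ex_qd' hl hn hd x b p (by omega) hm hV]
    have e3 : A.RR x p (b + 1) q * U * A.RI x p (b + 1) q * V =
        A.RR x p (b + 1) q * (U * A.RI x p (b + 1) q * V) := by
      simp only [mul_assoc]
    rw [e3, A.cyc]
    exact ih (b + 1) (by omega) (fun a h1 h2 => hU a (by omega) (by omega))

end

end VA

end CO
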