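import Pool.Agent.H61.CO.Hb

/-!
# Products of pure crossings (definitions)
-/

namespace CO

namespace VA

variable {L : Type} [Field L] {lam : L} {n : ℕ} (A : VA L lam n)

/-- `rr (y+p-1) b * ... * rr y b`. -/
def qd (y b : ℕ) : ℕ → A.R
  | 0 => 1
  | p + 1 => A.rr (y + p) b * qd y b p

/-- The inverse of `qd`. -/
def qi (y b : ℕ) : ℕ → A.R
  | 0 => 1
  | p + 1 => qi y b p * A.ri (y + p) b

/-- `qd x b p * qd x (b+1) p * ... * qd x (b+q-1) p`. -/
def RR (x p b : ℕ) : ℕ → A.R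
  | 0 => 1
  | q + 1 => RR x p b q * A.qd x (b + q) p

/-- The inverse of `RR`. -/
def RI (x p b : ℕ) : ℕ → A.R
  | 0 => 1
  | q + 1 => A.qi x (b + q) p * RI x p b q

end VA

end CO
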