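import Pool.Agent.H61.CO.PB
import Pool.Agent.H61.CO.PD

/-!
# The exchange moves for bundles (row CO PE)

Proofs.  `T = Xp A.vt x k k`, `T * T = 1` (`T_T`), `Xp A.sp x k k = RR * T`, `Xp A.sn x k k = T * RI`
(`Xp_pure`, `Xn_pure`).  So `tr (u * Xn * v * Xs) = tr (u * T * RI * v * RR * T) =
tr ((T * u * T) * RI * v * RR)`.
`exR_blk`: `u`, `v` are without the labels `x+k, ..., x+2k-1`; by `conj_T` and `cx_hi` (`q = k`)
`T * u * T` is without `x+i = cx x k k (x+k+i)` for `i < k`.  `ex_RR` with `p = q = k`, `b = x + k` gives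
`tr (T * u * T * v) = tr (u * T * v * T)`.
`exL_blk`: `u`, `v` are without the labels `x, ..., x+k-1`; by `conj_T` and `cx_lo` `T * u * T` is
without `x+k+j = cx x k k (x+j)`; `ex_RR'`.
-/

namespace CO

open ZM

namespace VA

section

variable {L : Type} [Field L] {lam : L} {n : ℕ} (A : VA L lam n)

private lemma pe_rot (x k : ℕ) (hl : lam ≠ 0) (u v : A.R) :
    A.tr (u * Xp A.sn x k k * v * Xp A.sp x k k) =
      A.tr (Xp A.vt x k k * u * Xp A.vt x k k * A.RI x k (x + k) k * v * A.RR x k (x + k) k) := by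
  rw [A.Xn_pure hl, A.Xp_pure, ← mul_assoc _ (A.RR x k (x + k) k), A.cyc]
  simp only [mul_assoc]

theorem exR_blk (hl : lam ≠ 0) (hn : 2 ≤ n) (hd : qint lam n ≠ 0) (x k : ℕ) {u v : A.R}
    (hu : ∀ a, x + k ≤ a → a < x + k + k → u ∈ A.Fr a)
    (hv : ∀ a, x + k ≤ a → a < x + k + k → v ∈ A.Fr a) :
    A.tr (u * Xp A.sn x k k * v * Xp A.sp x k k) =
      A.tr (u * Xp A.vt x k k * v * Xp A.vt x k k) := by
  rw [pe_rot A x k hl, A.ex_RR hl hn hd x k (x + k) k le_rfl ?_ hv]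
  · rw [A.cyc (u * Xp A.vt x k k * v)]
    simp only [mul_assoc]
  · intro a h1 h2
    obtain ⟨i, rfl⟩ : ∃ i, a = x + i := ⟨a - x, by omega⟩
    have := A.conj_T x k (x + k + i) (A.T_T x k) (hu (x + k + i) (by omega) (by omega))
    rwa [cx_hi x k k i (by omega)] at this

theorem exL_blk (hl : lam ≠ 0) (hn : 2 ≤ n) (hd : qint lam n ≠ 0) (x k : ℕ) {u v : A.R}
    (hu : ∀ a, x ≤ a → a < x + k → u ∈ A.Fr a)
    (hv : ∀ a, x ≤ a → a < x + k → v ∈ A.Fr a) :
    A.tr (u * Xp A.sn x k k * v * Xp A.sp x k k) =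
      A.tr (u * Xp A.vt x k k * v * Xp A.vt x k k) := by
  rw [pe_rot A x k hl, A.ex_RR' hl hn hd x k (x + k) k le_rfl ?_ hv]
  · rw [A.cyc (u * Xp A.vt x k k * v)]
    simp only [mul_assoc]
  · intro a h1 h2
    obtain ⟨j, rfl⟩ : ∃ j, a = x + k + j := ⟨a - (x + k), by omega⟩
    have := A.conj_T x k (x + j) (A.T_T x k) (hu (x + j) (by omega) (by omega))
    rwa [cx_lo x k k j (by omega)] at this

end

end VA

end CO
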