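import Pool.Agent.H61.CO.X1

/-!
# The symmetrizer is an eigenvector from the right (row CO S1; pure ring theory)

`Ap r c x (k+1) = Ap r c x k * ∑_{i ≤ k} r^i W_i`, `W_i = Dp c (x+k-i) i =
c (x+k-1) c (x+k-2) ... c (x+k-i)`.

Proof of `Ap_right` by induction on `k` (all `j`).  For `k + 1` and `x ≤ j ≤ x + k - 1` let
`i0 = x + k - 1 - j` (so `x + k - i0 = j + 1`).
(a) `i < i0`: `x + k - i ≥ j + 2`, so `W_i * c j = c j * W_i` (`Dp_far`), and `j + 1 < x + k`, so
`Ap k * (W_i * c j) = μ • Ap k * W_i` by the induction hypothesis.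
(b) `i = i0`: `W_i * c j = W_(i+1)` (`Dp_succ'`).
(c) `i = i0 + 1`: `W_i = W_(i0) * c j`, so `r • W_i * c j = W_(i0) * (r • (c j * c j)) =
μ • W_(i0) + (μ r - 1) • W_i`.
(d) `i > i0 + 1` (and `i ≤ k`): `x + k - i ≤ j - 1`, so `W_i * c j = c (j-1) * W_i` by `Dp_mv` (with
`i := j - 1`: `x + k - i ≤ j - 1`, `j < x + k`), and `Ap k * c (j-1) = μ • Ap k` by the induction
hypothesis (`x ≤ j - 1`, `j - 1 + 1 < x + k`).
The terms `i0`, `i0 + 1` together:
`r^i0 W_(i0+1) + r^i0 (μ W_(i0) + (μ r - 1) W_(i0+1)) = μ (r^i0 W_(i0) + r^(i0+1) W_(i0+1))`.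
So the sum times `c j`, multiplied by `Ap k` from the left, is `μ •` the sum.
(One way to organize it: write the sum over `range (k+1)` as the sum over `range i0`, the two terms
`i0`, `i0 + 1`, and the rest, with `Finset.sum_range_succ` / `Finset.sum_range_add`.. ; note that
`i0 + 1 ≤ k` as `x ≤ j`.)
`mul_Ap`: induction on `k`: `B * Ap (k+1) = (B * Ap k) * ∑ = N_k • ∑ r^i • (B * W_i)` and
`B * W_i = μ^i • B` (induction on `i`, with `Dp_succ`: the letters of `W_i` have index
`< x + k`, `≥ x`), so it is `N_k * ∑_{i ≤ k} (r μ)^i`.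
-/

namespace CO

lemma s1_sum {M : Type} [AddCommGroup M] (f g : ℕ → M) (i0 k : ℕ) (h : i0 + 1 ≤ k)
    (ha : ∀ i, i ≤ k → i ≠ i0 → i ≠ i0 + 1 → f i = g i)
    (hb : f i0 + f (i0 + 1) = g i0 + g (i0 + 1)) :
    ∑ i ∈ Finset.range (k + 1), f i = ∑ i ∈ Finset.range (k + 1), g i := by
  obtain ⟨m, hm⟩ : ∃ m, k + 1 = i0 + 2 + m := ⟨k - 1 - i0, by omega⟩
  rw [hm, Finset.sum_range_add f (i0 + 2) m, Finset.sum_range_add g (i0 + 2) m]
  congr 1
  · rw [Finset.sum_range_succ, Finset.sum_range_succ, Finset.sum_range_succ,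
      Finset.sum_range_succ, add_assoc, add_assoc, hb]
    congr 1
    refine Finset.sum_congr rfl fun i hi => ?_
    have hi' := Finset.mem_range.mp hi
    exact ha i (by omega) (by omega) (by omega)
  · refine Finset.sum_congr rfl fun i hi => ?_
    have hi' := Finset.mem_range.mp hi
    exact ha (i0 + 2 + i) (by omega) (by omega) (by omega)

section

variable {R : Type} [Ring R] {K : Type} [Field K] [Algebra K R] {c : ℕ → R} {r μ : K}

theorem Ap_right (hc : Cmp c c)
    (hq : ∀ i, r • (c i * c i) = μ • (1 : R) + (μ * r - 1) • c i) (x k j : ℕ) (h1 : x ≤ j)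
    (h2 : j + 1 < x + k) : Ap r c x k * c j = μ • Ap r c x k := by
  induction k generalizing j with
  | zero => omega
  | succ k ih =>
    obtain ⟨i0, hi0⟩ : ∃ i0, x + k = j + 1 + i0 := ⟨x + k - 1 - j, by omega⟩
    rw [Ap_succ, mul_assoc, Finset.sum_mul, Finset.mul_sum, Finset.mul_sum, Finset.smul_sum]
    apply s1_sum _ _ i0 k (by omega)
    · intro i hik hi1 hi2
      rw [smul_mul_assoc, mul_smul_comm, mul_smul_comm, smul_comm μ (r ^ i)]
      congr 1
      rcases Nat.lt_or_ge i i0 with hlt | hge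
      · rw [Dp_far hc (x + k - i) i j (by omega), ← mul_assoc, ih j h1 (by omega), smul_mul_assoc]
      · have h3 : Dp c (x + k - i) i * c j = c (j - 1) * Dp c (x + k - i) i := by
          have := Dp_mv hc (x + k - i) i (j - 1) (by omega) (by omega)
          rwa [show j - 1 + 1 = j by omega] at this
        rw [h3, ← mul_assoc, ih (j - 1) (by omega) (by omega), smul_mul_assoc]
    · have e0 : x + k - i0 = j + 1 := by omega
      have e1 : x + k - (i0 + 1) = j := by omega
      rw [e0, e1]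
      have h4 : Dp c (j + 1) i0 * c j = Dp c j (i0 + 1) := (Dp_succ' c j i0).symm
      have h5 : r • (Dp c j (i0 + 1) * c j) =
          μ • Dp c (j + 1) i0 + (μ * r - 1) • Dp c j (i0 + 1) := by
        rw [Dp_succ' c j i0, mul_assoc, ← mul_smul_comm, hq, mul_add, mul_smul_comm, mul_one,
          mul_smul_comm]
      rw [smul_mul_assoc, h4, smul_mul_assoc, pow_succ, mul_smul, h5]
      simp only [mul_smul_comm, mul_add, smul_add, sub_smul, one_smul, mul_smul, mul_sub, smul_sub]
      rw [smul_comm μ (r ^ i0), smul_comm μ (r ^ i0)]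
      abel

lemma mul_Dp {B : R} (x p l : ℕ) (hB : ∀ j, x ≤ j → j < p + l → B * c j = μ • B) (hp : x ≤ p) :
    B * Dp c p l = μ ^ l • B := by
  induction l with
  | zero => simp
  | succ l ih =>
    rw [Dp_succ, ← mul_assoc, hB (p + l) (by omega) (by omega), smul_mul_assoc,
      ih (fun j hj1 hj2 => hB j hj1 (by omega)), ← mul_smul, pow_succ']

lemma mul_Up {B : R} (x p l : ℕ) (hB : ∀ j, x ≤ j → j < p + l → B * c j = μ • B) (hp : x ≤ p) :
    B * Up c p l = μ ^ l • B := by
  induction l with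
  | zero => simp
  | succ l ih =>
    rw [Up_succ, ← mul_assoc, ih (fun j hj1 hj2 => hB j hj1 (by omega)), smul_mul_assoc,
      hB (p + l) (by omega) (by omega), ← mul_smul, pow_succ]

theorem mul_Ap {B : R} (x k : ℕ) (hB : ∀ j, x ≤ j → j + 1 < x + k → B * c j = μ • B) :
    B * Ap r c x k =
      (∏ j ∈ Finset.range k, ∑ i ∈ Finset.range (j + 1), (r * μ) ^ i) • B := by
  induction k with
  | zero => simp [Ap]
  | succ k ih =>
    rw [Ap_succ, ← mul_assoc, ih (fun j hj1 hj2 => hB j hj1 (by omega)), smul_mul_assoc,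
      Finset.prod_range_succ, mul_smul]
    congr 1
    rw [Finset.mul_sum, Finset.sum_smul]
    refine Finset.sum_congr rfl fun i hi => ?_
    have hi' := Finset.mem_range.mp hi
    rw [mul_smul_comm, mul_Dp (μ := μ) x (x + k - i) i
      (fun j hj1 hj2 => hB j hj1 (by omega)) (by omega), ← mul_smul, mul_pow]

end

end CO
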