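import Pool.Agent.H61.CO.S1

/-!
# The symmetrizer is an eigenvector from the left (row CO S2; pure ring theory)

Let `N = ∏_{j < k} ∑_{i ≤ j} (r μ)^i`.

Proof.  (1) In the opposite ring `Rᵐᵒᵖ` the letters `MulOpposite.op (c i)` satisfy the same
hypotheses (`Cmp`: the relation `b1` for `y = c` is `c(i+1) c i c(i+1) = c i (c(i+1) c i)`, i.e. the
braid relation, and `b2` too; read backwards it is again the braid relation).  One has
`op (Up c p l) = Dp (op ∘ c) p l` (induction on `l`), and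
`op (Bp r c x k) = Ap r (op ∘ c) x k` (induction on `k`; `op (∑ r^i • Up ..) = ∑ r^i • Dp ..`).
So `Ap_right` in `Rᵐᵒᵖ` gives `Bp_left`: `c j * Bp r c x k = μ • Bp r c x k`.
(2) `mul_Bp`: if `B * c j = μ • B` for the `j` in the range, then `B * Bp r c x k = N • B` (induction
on `k`, as `mul_Ap`, with `mul_Up`): `B * Bp (k+1) = (B * ∑ r^i • Up c (x+k-i) i) * Bp k =
(∑ (r μ)^i) • (B * Bp k)`.
(3) `Ap_mul`: if `c j * B = μ • B` for the `j` in the range, then `Ap r c x k * B = N • B`
(induction on `k`: `Ap (k+1) * B = Ap k * (∑ r^i • Dp c (x+k-i) i * B) = (∑ (r μ)^i) • Ap k * B`).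
(4) `Ap * Bp = N • Ap` by (2) and `Ap_right`; `Ap * Bp = N • Bp` by (3) and `Bp_left`.  As `N ≠ 0`,
`Ap = Bp`, so `Ap_left` is `Bp_left`.
`Ap_sq` is `mul_Ap` with `B = Ap`.
`Ap_mulD`, `Ap_mulU`: `c j * B = μ • B` for the letters gives `Dp c p l * B = μ^l • B`.
-/

namespace CO

section

variable {R : Type} [Ring R] {K : Type} [Field K] [Algebra K R] {c : ℕ → R} {r μ : K}

lemma s2_cmp (hc : Cmp c c) :
    Cmp (fun i => MulOpposite.op (c i)) (fun i => MulOpposite.op (c i)) where
  far i j h := by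
    have h1 := hc.far i j h
    simp only [← MulOpposite.op_mul]
    rw [h1]
  b1 i := by
    have h1 := hc.b1 i
    simp only [← MulOpposite.op_mul]
    congr 1
    rw [← mul_assoc, h1, mul_assoc]
  b2 i := by
    have h1 := hc.b2 i
    simp only [← MulOpposite.op_mul]
    congr 1
    rw [← mul_assoc, h1, mul_assoc]

lemma s2_opU (c : ℕ → R) (p l : ℕ) :
    MulOpposite.op (Up c p l) = Dp (fun i => MulOpposite.op (c i)) p l := by
  induction l with
  | zero => simp
  | succ l ih => rw [Up_succ, Dp_succ, MulOpposite.op_mul, ih]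

lemma s2_opB (r : K) (c : ℕ → R) (x k : ℕ) :
    MulOpposite.op (Bp r c x k) = Ap r (fun i => MulOpposite.op (c i)) x k := by
  induction k with
  | zero => simp [Ap, Bp]
  | succ k ih =>
    rw [Bp_succ, Ap_succ, MulOpposite.op_mul, ih]
    congr 1
    rw [Finset.op_sum]
    refine Finset.sum_congr rfl fun i _ => ?_
    rw [MulOpposite.op_smul, s2_opU]

lemma s2_Bp_left (hc : Cmp c c)
    (hq : ∀ i, r • (c i * c i) = μ • (1 : R) + (μ * r - 1) • c i) (x k j : ℕ) (h1 : x ≤ j)
    (h2 : j + 1 < x + k) : c j * Bp r c x k = μ • Bp r c x k := by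
  have h := Ap_right (r := r) (μ := μ) (c := fun i => MulOpposite.op (c i)) (s2_cmp hc)
    (fun i => by
      rw [← MulOpposite.op_mul, ← MulOpposite.op_smul, hq i, MulOpposite.op_add,
        MulOpposite.op_smul, MulOpposite.op_smul, MulOpposite.op_one]) x k j h1 h2
  rw [← s2_opB, ← MulOpposite.op_mul, ← MulOpposite.op_smul] at h
  exact MulOpposite.op_injective h

lemma s2_mul_Bp {B : R} (x k : ℕ) (hB : ∀ j, x ≤ j → j + 1 < x + k → B * c j = μ • B) :
    B * Bp r c x k =
      (∏ j ∈ Finset.range k, ∑ i ∈ Finset.range (j + 1), (r * μ) ^ i) • B := by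
  induction k with
  | zero => simp [Bp]
  | succ k ih =>
    have e : B * ∑ i ∈ Finset.range (k + 1), r ^ i • Up c (x + k - i) i =
        (∑ i ∈ Finset.range (k + 1), (r * μ) ^ i) • B := by
      rw [Finset.mul_sum, Finset.sum_smul]
      refine Finset.sum_congr rfl fun i hi => ?_
      have hi' : i ≤ k := Nat.lt_succ_iff.mp (Finset.mem_range.mp hi)
      rw [mul_smul_comm, mul_Up (c := c) (μ := μ) x (x + k - i) i
        (fun j h1 h2 => hB j h1 (by omega)) (by omega), smul_smul, mul_pow]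
    rw [Bp_succ, ← mul_assoc, e, smul_mul_assoc, ih fun j h1 h2 => hB j h1 (by omega), smul_smul,
      Finset.prod_range_succ, mul_comm]

lemma s2_Dp_mul {B : R} (x p l : ℕ) (hB : ∀ j, x ≤ j → j < p + l → c j * B = μ • B)
    (hp : x ≤ p) : Dp c p l * B = μ ^ l • B := by
  induction l with
  | zero => simp
  | succ l ih =>
    rw [Dp_succ, mul_assoc, ih fun j h1 h2 => hB j h1 (by omega), mul_smul_comm,
      hB (p + l) (by omega) (by omega), smul_smul, pow_succ]

lemma s2_Ap_mul {B : R} (x k : ℕ) (hB : ∀ j, x ≤ j → j + 1 < x + k → c j * B = μ • B) :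
    Ap r c x k * B =
      (∏ j ∈ Finset.range k, ∑ i ∈ Finset.range (j + 1), (r * μ) ^ i) • B := by
  induction k with
  | zero => simp [Ap]
  | succ k ih =>
    have e : (∑ i ∈ Finset.range (k + 1), r ^ i • Dp c (x + k - i) i) * B =
        (∑ i ∈ Finset.range (k + 1), (r * μ) ^ i) • B := by
      rw [Finset.sum_mul, Finset.sum_smul]
      refine Finset.sum_congr rfl fun i hi => ?_
      have hi' : i ≤ k := Nat.lt_succ_iff.mp (Finset.mem_range.mp hi)
      rw [smul_mul_assoc, s2_Dp_mul (c := c) (μ := μ) x (x + k - i) i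
        (fun j h1 h2 => hB j h1 (by omega)) (by omega), smul_smul, mul_pow]
    rw [Ap_succ, mul_assoc, e, mul_smul_comm, ih fun j h1 h2 => hB j h1 (by omega), smul_smul,
      Finset.prod_range_succ, mul_comm]

theorem Ap_left (hc : Cmp c c)
    (hq : ∀ i, r • (c i * c i) = μ • (1 : R) + (μ * r - 1) • c i) (x k j : ℕ) (h1 : x ≤ j)
    (h2 : j + 1 < x + k)
    (hN : ∏ j ∈ Finset.range k, ∑ i ∈ Finset.range (j + 1), (r * μ) ^ i ≠ 0) :
    c j * Ap r c x k = μ • Ap r c x k := by
  have e1 := s2_mul_Bp (r := r) (μ := μ) (c := c) (B := Ap r c x k) x k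
    (fun j h1 h2 => Ap_right hc hq x k j h1 h2)
  have e2 := s2_Ap_mul (r := r) (μ := μ) (c := c) (B := Bp r c x k) x k
    (fun j h1 h2 => s2_Bp_left hc hq x k j h1 h2)
  rw [e1] at e2
  have e3 : Ap r c x k = Bp r c x k := smul_right_injective R hN e2
  rw [e3]
  exact s2_Bp_left hc hq x k j h1 h2

theorem Ap_sq (hc : Cmp c c)
    (hq : ∀ i, r • (c i * c i) = μ • (1 : R) + (μ * r - 1) • c i) (x k : ℕ) :
    Ap r c x k * Ap r c x k =
      (∏ j ∈ Finset.range k, ∑ i ∈ Finset.range (j + 1), (r * μ) ^ i) • Ap r c x k :=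
  mul_Ap x k fun j h1 h2 => Ap_right hc hq x k j h1 h2

end

end CO
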