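import Pool.Agent.H61.CO.TDefs
import Pool.Agent.H75.ZM.BrTr4

/-!
# The normalized trace functional on words (row CO T1)

Proofs.  `t0_ok`: if `Ok m w` then all letters are valid, `bd w ≤ m` and `Ok (bd w) w`; `S.add`
`m - bd w` times.  All relations in context: if `u` or `v` contains an invalid letter both sides
are `0` (`t0_inv`).  Otherwise take `m` larger than all labels (`m = bd` of everything plus the labels
of the relation), rewrite all `t0` by `t0_ok` and use `S.cyc`, `cx_ss`, `cx_sl`, `cx_comm` (or `S.ee`),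
`cx_es`, `cx_esym`, `cx_ssym`, `cx_e2`, `cx_tri` of `Pool/Agent/H75/ZM/BrTr1.lean`.
-/

namespace CO

open ZM

section

variable {K : Type} [Field K] {lam : K} {n : ℕ} (S : TraceSys K lam n)

lemma t0_inv {w : List Lt} (h : ∃ a ∈ w, ¬ valL a) : t0 S w = 0 := by
  unfold t0
  refine if_neg ?_
  intro h2
  obtain ⟨a, ha, hn⟩ := h
  exact hn (h2 a ha)

lemma ok_of_val {w : List Lt} (h : ∀ a ∈ w, valL a) {m : ℕ} (hm : bd w ≤ m) : Ok m w := by
  induction w with
  | nil => exact brtr1_ok_nil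
  | cons a w ih =>
    have h1 : bdL a ≤ m := (le_max_left _ _).trans hm
    have h2 : bd w ≤ m := (le_max_right _ _).trans hm
    refine brtr1_ok_cons ?_ (ih (fun b hb => h b (List.mem_cons_of_mem _ hb)) h2)
    have hv := h a List.mem_cons_self
    cases a with
    | E i j =>
      have h3 : max i j + 1 ≤ m := h1
      exact ⟨lt_of_le_of_lt (le_max_left i j) h3, lt_of_le_of_lt (le_max_right i j) h3, hv⟩
    | S i j =>
      have h3 : max i j + 1 ≤ m := h1
      exact ⟨lt_of_le_of_lt (le_max_left i j) h3, lt_of_le_of_lt (le_max_right i j) h3⟩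

lemma t1_val {m : ℕ} {w : List Lt} (h : Ok m w) : ∀ a ∈ w, valL a := by
  intro a ha
  have h1 := h a ha
  cases a with
  | E i j => exact h1.2.2
  | S i j => trivial

lemma t1_bd {m : ℕ} {w : List Lt} (h : Ok m w) : bd w ≤ m := by
  induction w with
  | nil => exact Nat.zero_le _
  | cons a w ih =>
    refine max_le ?_ (ih fun b hb => h b (List.mem_cons_of_mem _ hb))
    have h1 := h a List.mem_cons_self
    cases a with
    | E i j => exact Nat.succ_le_of_lt (max_lt h1.1 h1.2.1)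
    | S i j => exact Nat.succ_le_of_lt (max_lt h1.1 h1.2)

lemma t1_mono {m m' : ℕ} (hm : m ≤ m') {w : List Lt} (h : Ok m w) : Ok m' w :=
  ok_of_val (t1_val h) ((t1_bd h).trans hm)

lemma t1_add {m : ℕ} {w : List Lt} (h : Ok m w) (k : ℕ) :
    S.tr (m + k) w = (qint lam n) ^ k * S.tr m w := by
  induction k with
  | zero => simp
  | succ k ih =>
    have h1 := S.add (m + k) w (t1_mono (Nat.le_add_right m k) h)
    rw [← add_assoc, h1, ih, pow_succ]
    ring

lemma t0_ok (hd : qint lam n ≠ 0) {m : ℕ} {w : List Lt} (h : Ok m w) :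
    t0 S w = ((qint lam n) ^ m)⁻¹ * S.tr m w := by
  obtain ⟨k, hk⟩ := Nat.exists_eq_add_of_le (t1_bd h)
  unfold t0
  rw [if_pos (t1_val h), hk, t1_add S (ok_of_val (t1_val h) (le_refl _)) k, pow_add]
  have h1 : (qint lam n) ^ bd w ≠ 0 := pow_ne_zero _ hd
  have h2 : (qint lam n) ^ k ≠ 0 := pow_ne_zero _ hd
  field_simp

lemma t0_nil : t0 S [] = 1 := by
  unfold t0
  rw [if_pos (by simp)]
  show ((qint lam n) ^ 0)⁻¹ * S.tr 0 [] = 1
  rw [S.one]
  simp

lemma t1_cases (u v : List Lt) (N : ℕ) :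
    (∀ x, t0 S (u ++ x ++ v) = 0) ∨ ∃ m, N ≤ m ∧ Ok m u ∧ Ok m v := by
  by_cases hu : ∀ a ∈ u, valL a
  · by_cases hv : ∀ a ∈ v, valL a
    · right
      exact ⟨N + bd u + bd v, by omega, ok_of_val hu (by omega), ok_of_val hv (by omega)⟩
    · left
      push Not at hv
      obtain ⟨a, ha, hn⟩ := hv
      intro x
      exact t0_inv S ⟨a, List.mem_append_right _ ha, hn⟩
  · left
    push Not at hu
    obtain ⟨a, ha, hn⟩ := hu
    intro x
    exact t0_inv S ⟨a, List.mem_append_left _ (List.mem_append_left _ ha), hn⟩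

lemma t1_key (hd : qint lam n ≠ 0) {m : ℕ} {u v x : List Lt} (hu : Ok m u) (hv : Ok m v)
    (hx : Ok m x) : t0 S (u ++ x ++ v) = ((qint lam n) ^ m)⁻¹ * S.tr m (u ++ x ++ v) :=
  t0_ok S hd (brtr1_ok_append (brtr1_ok_append hu hx) hv)

lemma t1_swap {i j a m : ℕ} (hi : i < m) (hj : j < m) (ha : a < m) : Equiv.swap i j a < m := by
  by_cases h1 : a = i
  · rw [h1, Equiv.swap_apply_left]; exact hj
  · by_cases h2 : a = j
    · rw [h2, Equiv.swap_apply_right]; exact hi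
    · rw [Equiv.swap_apply_of_ne_of_ne h1 h2]; exact ha

lemma t0_cyc (hd : qint lam n ≠ 0) (u v : List Lt) : t0 S (u ++ v) = t0 S (v ++ u) := by
  rcases t1_cases S u v 0 with h | ⟨m, hm, hu, hv⟩
  · have h1 : t0 S (u ++ v) = 0 := by simpa using h []
    rw [h1]
    by_cases hw : ∀ a ∈ v ++ u, valL a
    · have hw2 : Ok (bd (v ++ u)) (v ++ u) := ok_of_val hw (le_refl _)
      have hw3 : Ok (bd (v ++ u)) u := fun a ha => hw2 a (List.mem_append_right _ ha)
      have hw4 : Ok (bd (v ++ u)) v := fun a ha => hw2 a (List.mem_append_left _ ha)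
      rw [t0_ok S hd hw2, S.cyc _ v u hw4 hw3, ← t0_ok S hd (brtr1_ok_append hw3 hw4), h1]
    · push Not at hw
      exact (t0_inv S hw).symm
  · rw [t0_ok S hd (brtr1_ok_append hu hv), t0_ok S hd (brtr1_ok_append hv hu), S.cyc m u v hu hv]

lemma t0_ss (hd : qint lam n ≠ 0) (u v : List Lt) (i j : ℕ) :
    t0 S (u ++ [.S i j, .S i j] ++ v) = t0 S (u ++ v) := by
  rcases t1_cases S u v (i + j + 1) with h | ⟨m, hm, hu, hv⟩
  · have h1 : t0 S (u ++ v) = 0 := by simpa using h []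
    rw [h, h1]
  · have hi : i < m := by omega
    have hj : j < m := by omega
    rw [t1_key S hd hu hv (brtr1_ok_pair (a := .S i j) (b := .S i j) ⟨hi, hj⟩ ⟨hi, hj⟩),
      t0_ok S hd (brtr1_ok_append hu hv), cx_ss S hu hv hi hj]

lemma t0_sS (hd : qint lam n ≠ 0) (u v : List Lt) (i j a b : ℕ) :
    t0 S (u ++ [.S i j, .S a b] ++ v) =
      t0 S (u ++ [.S (Equiv.swap i j a) (Equiv.swap i j b), .S i j] ++ v) := by
  rcases t1_cases S u v (i + j + a + b + 1) with h | ⟨m, hm, hu, hv⟩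
  · rw [h, h]
  · have hi : i < m := by omega
    have hj : j < m := by omega
    have ha : a < m := by omega
    have hb : b < m := by omega
    rw [t1_key S hd hu hv (brtr1_ok_pair (a := .S i j) (b := .S a b) ⟨hi, hj⟩ ⟨ha, hb⟩),
      t1_key S hd hu hv (brtr1_ok_pair (a := .S (Equiv.swap i j a) (Equiv.swap i j b))
        (b := .S i j) ⟨t1_swap hi hj ha, t1_swap hi hj hb⟩ ⟨hi, hj⟩),
      cx_sl S hu hv hi hj (a := .S a b) ⟨ha, hb⟩]
    rfl

lemma t0_sE (hd : qint lam n ≠ 0) (u v : List Lt) (i j a b : ℕ) (h : a ≠ b) :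
    t0 S (u ++ [.S i j, .E a b] ++ v) =
      t0 S (u ++ [.E (Equiv.swap i j a) (Equiv.swap i j b), .S i j] ++ v) := by
  rcases t1_cases S u v (i + j + a + b + 1) with h0 | ⟨m, hm, hu, hv⟩
  · rw [h0, h0]
  · have hi : i < m := by omega
    have hj : j < m := by omega
    have ha : a < m := by omega
    have hb : b < m := by omega
    rw [t1_key S hd hu hv (brtr1_ok_pair (a := .S i j) (b := .E a b) ⟨hi, hj⟩ ⟨ha, hb, h⟩),
      t1_key S hd hu hv (brtr1_ok_pair (a := .E (Equiv.swap i j a) (Equiv.swap i j b))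
        (b := .S i j) ⟨t1_swap hi hj ha, t1_swap hi hj hb,
          fun h2 => h ((Equiv.swap i j).injective h2)⟩ ⟨hi, hj⟩),
      cx_sl S hu hv hi hj (a := .E a b) ⟨ha, hb, h⟩]
    rfl

lemma t0_ee (hd : qint lam n ≠ 0) (u v : List Lt) (i j a b : ℕ) (h1 : i ≠ j) (h2 : a ≠ b)
    (h3 : i ≠ a) (h4 : i ≠ b) (h5 : j ≠ a) (h6 : j ≠ b) :
    t0 S (u ++ [.E i j, .E a b] ++ v) = t0 S (u ++ [.E a b, .E i j] ++ v) := by
  rcases t1_cases S u v (i + j + a + b + 1) with h0 | ⟨m, hm, hu, hv⟩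
  · rw [h0, h0]
  · have hi : i < m := by omega
    have hj : j < m := by omega
    have ha : a < m := by omega
    have hb : b < m := by omega
    have o1 : (Lt.E i j).ok m := ⟨hi, hj, h1⟩
    have o2 : (Lt.E a b).ok m := ⟨ha, hb, h2⟩
    rw [t1_key S hd hu hv (brtr1_ok_pair o1 o2), t1_key S hd hu hv (brtr1_ok_pair o2 o1),
      cx_comm S hu hv o1 o2 ⟨h3, h4, h5, h6⟩]

lemma t0_es (hd : qint lam n ≠ 0) (u v : List Lt) (i j : ℕ) (h : i ≠ j) :
    t0 S (u ++ [.E i j, .S i j] ++ v) = t0 S (u ++ [.E i j] ++ v) := by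
  rcases t1_cases S u v (i + j + 1) with h0 | ⟨m, hm, hu, hv⟩
  · rw [h0, h0]
  · have hi : i < m := by omega
    have hj : j < m := by omega
    have o1 : (Lt.E i j).ok m := ⟨hi, hj, h⟩
    have o2 : (Lt.S i j).ok m := ⟨hi, hj⟩
    rw [t1_key S hd hu hv (brtr1_ok_pair o1 o2), t1_key S hd hu hv (brtr1_ok_sing o1),
      cx_es S hu hv hi hj h]

lemma t0_esym (hd : qint lam n ≠ 0) (u v : List Lt) (i j : ℕ) (h : i ≠ j) :
    t0 S (u ++ [.E i j] ++ v) = t0 S (u ++ [.E j i] ++ v) := by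
  rcases t1_cases S u v (i + j + 1) with h0 | ⟨m, hm, hu, hv⟩
  · rw [h0, h0]
  · have hi : i < m := by omega
    have hj : j < m := by omega
    have o1 : (Lt.E i j).ok m := ⟨hi, hj, h⟩
    have o2 : (Lt.E j i).ok m := ⟨hj, hi, h.symm⟩
    rw [t1_key S hd hu hv (brtr1_ok_sing o1), t1_key S hd hu hv (brtr1_ok_sing o2),
      cx_esym S hu hv hi hj h]

lemma t0_ssym (hd : qint lam n ≠ 0) (u v : List Lt) (i j : ℕ) :
    t0 S (u ++ [.S i j] ++ v) = t0 S (u ++ [.S j i] ++ v) := by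
  rcases t1_cases S u v (i + j + 1) with h0 | ⟨m, hm, hu, hv⟩
  · rw [h0, h0]
  · have hi : i < m := by omega
    have hj : j < m := by omega
    have o1 : (Lt.S i j).ok m := ⟨hi, hj⟩
    have o2 : (Lt.S j i).ok m := ⟨hj, hi⟩
    rw [t1_key S hd hu hv (brtr1_ok_sing o1), t1_key S hd hu hv (brtr1_ok_sing o2),
      cx_ssym S hu hv hi hj]

lemma t0_e2 (hd : qint lam n ≠ 0) (u v : List Lt) (i j : ℕ) (h : i ≠ j) :
    t0 S (u ++ [.E i j, .E i j] ++ v) = (lam + lam⁻¹) * t0 S (u ++ [.E i j] ++ v) := by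
  rcases t1_cases S u v (i + j + 1) with h0 | ⟨m, hm, hu, hv⟩
  · rw [h0, h0, mul_zero]
  · have hi : i < m := by omega
    have hj : j < m := by omega
    have o1 : (Lt.E i j).ok m := ⟨hi, hj, h⟩
    rw [t1_key S hd hu hv (brtr1_ok_pair o1 o1), t1_key S hd hu hv (brtr1_ok_sing o1),
      cx_e2 S hu hv hi hj h]
    ring

lemma t0_tri (hd : qint lam n ≠ 0) (u v : List Lt) (i j l : ℕ) (h1 : i ≠ j) (h2 : i ≠ l)
    (h3 : j ≠ l) :
    t0 S (u ++ [.E i j, .E j l, .E i j] ++ v) + t0 S (u ++ [.E j l] ++ v) =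
      t0 S (u ++ [.E j l, .E i j, .E j l] ++ v) + t0 S (u ++ [.E i j] ++ v) := by
  rcases t1_cases S u v (i + j + l + 1) with h0 | ⟨m, hm, hu, hv⟩
  · rw [h0, h0, h0, h0]
  · have hi : i < m := by omega
    have hj : j < m := by omega
    have hl : l < m := by omega
    have o1 : (Lt.E i j).ok m := ⟨hi, hj, h1⟩
    have o2 : (Lt.E j l).ok m := ⟨hj, hl, h3⟩
    rw [t1_key S hd hu hv (brtr1_ok_trip o1 o2 o1), t1_key S hd hu hv (brtr1_ok_trip o2 o1 o2),
      t1_key S hd hu hv (brtr1_ok_sing o1), t1_key S hd hu hv (brtr1_ok_sing o2),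
      ← mul_add, ← mul_add, cx_tri S hu hv hi hj hl h1 h2 h3]

end

end CO
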