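import Pool.Agent.H61.CO.T1

/-!
# Traces with a label which occurs once or twice (row CO T2)

`frL b a`: the letter `a` does not involve the label `b`.

Proofs.  If a word contains an invalid letter all terms are `0` (`t0_inv`).  Otherwise let `m` be larger
than all labels occurring (and `b`, `j`, `p`).  `S.tr (m+1)` is invariant under the exchange of the
labels `b` and `m` in the whole word (`tr_swap` of `Pool/Agent/H75/ZM/BrTr2.lean`), which fixes the words
without `b` (they do not contain `m` either) and turns `S j b` into `S j m`, `E p b` into `E p m`.  Then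
`S.addS`, `S.addE` (after `S.cyc`) and `exch` of `Pool/Agent/H75/ZM/BrTr4.lean`, and `t0_ok` with
`m + 1` for words with the label `m`, with `m` for the others.
-/

namespace CO

open ZM

lemma t2_map {b m : ℕ} {w : List Lt} (hw : Ok m w) (hf : ∀ a ∈ w, frL b a) :
    w.map (Lt.map (Equiv.swap b m)) = w := by
  have h : ∀ a ∈ w, Lt.map (Equiv.swap b m) a = a := by
    intro a ha
    have h1 := hw a ha
    have h2 := hf a ha
    cases a with
    | E i j =>
      obtain ⟨k1, k2, _⟩ := h1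
      obtain ⟨k3, k4⟩ := h2
      simp only [Lt.map]
      rw [Equiv.swap_apply_of_ne_of_ne k3 k1.ne, Equiv.swap_apply_of_ne_of_ne k4 k2.ne]
    | S i j =>
      obtain ⟨k1, k2⟩ := h1
      obtain ⟨k3, k4⟩ := h2
      simp only [Lt.map]
      rw [Equiv.swap_apply_of_ne_of_ne k3 k1.ne, Equiv.swap_apply_of_ne_of_ne k4 k2.ne]
  rw [List.map_congr_left h, List.map_id']

lemma t2_mono {m m' : ℕ} (h : m ≤ m') {w : List Lt} (hw : Ok m w) : Ok m' w := by
  intro a ha
  have h1 := hw a ha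
  cases a with
  | E i j => exact ⟨lt_of_lt_of_le h1.1 h, lt_of_lt_of_le h1.2.1 h, h1.2.2⟩
  | S i j => exact ⟨lt_of_lt_of_le h1.1 h, lt_of_lt_of_le h1.2 h⟩

lemma t2_app {m : ℕ} {u v : List Lt} (hu : Ok m u) (hv : Ok m v) : Ok m (u ++ v) := by
  intro a ha
  rcases List.mem_append.1 ha with h | h
  · exact hu a h
  · exact hv a h

lemma t2_sing {m : ℕ} {a : Lt} (ha : a.ok m) : Ok m [a] := by
  intro b hb
  rw [List.mem_singleton.1 hb]
  exact ha

section

variable {K : Type} [Field K] {lam : K} {n : ℕ} (S : TraceSys K lam n)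

lemma t0_trS (hd : qint lam n ≠ 0) (b j : ℕ) (w : List Lt) (hj : j ≠ b)
    (hw : ∀ a ∈ w, frL b a) : t0 S (w ++ [.S j b]) = (qint lam n)⁻¹ * t0 S w := by
  by_cases hv : ∀ a ∈ w, valL a
  swap
  · push Not at hv
    obtain ⟨a, ha, hna⟩ := hv
    rw [t0_inv S ⟨a, List.mem_append_left _ ha, hna⟩, t0_inv S ⟨a, ha, hna⟩, mul_zero]
  obtain ⟨m, hm⟩ : ∃ m, m = max (bd w) (max (b + 1) (j + 1)) := ⟨_, rfl⟩
  have hb : b < m := by omega
  have hjm : j < m := by omega
  have ow : Ok m w := ok_of_val hv (by omega)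
  have ow1 : Ok (m + 1) w := t2_mono (Nat.le_succ m) ow
  have o1 : Ok (m + 1) (w ++ [.S j b]) := t2_app ow1 (t2_sing ⟨by omega, by omega⟩)
  have e1 : S.tr (m + 1) (w ++ [.S j b]) = S.tr (m + 1) (w ++ [.S j m]) := by
    rw [← tr_swap S o1 (i := b) (j := m) (by omega) (by omega), List.map_append, t2_map ow hw]
    simp only [List.map_cons, List.map_nil, Lt.map]
    rw [Equiv.swap_apply_of_ne_of_ne hj hjm.ne, Equiv.swap_apply_left]
  have e2 : S.tr (m + 1) (w ++ [.S j m]) = S.tr m w := by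
    rw [S.cyc (m + 1) w [.S j m] ow1 (t2_sing ⟨by omega, by omega⟩)]
    exact S.addS m j w hjm ow
  rw [t0_ok S hd o1, t0_ok S hd ow, e1, e2, pow_succ, mul_inv]
  ring

lemma t0_trE (hd : qint lam n ≠ 0) (b j : ℕ) (w : List Lt) (hj : j ≠ b)
    (hw : ∀ a ∈ w, frL b a) :
    t0 S (w ++ [.E j b]) = (qint lam n)⁻¹ * qint lam (n - 1) * t0 S w := by
  by_cases hv : ∀ a ∈ w, valL a
  swap
  · push Not at hv
    obtain ⟨a, ha, hna⟩ := hv
    rw [t0_inv S ⟨a, List.mem_append_left _ ha, hna⟩, t0_inv S ⟨a, ha, hna⟩, mul_zero]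
  obtain ⟨m, hm⟩ : ∃ m, m = max (bd w) (max (b + 1) (j + 1)) := ⟨_, rfl⟩
  have hb : b < m := by omega
  have hjm : j < m := by omega
  have ow : Ok m w := ok_of_val hv (by omega)
  have ow1 : Ok (m + 1) w := t2_mono (Nat.le_succ m) ow
  have o1 : Ok (m + 1) (w ++ [.E j b]) := t2_app ow1 (t2_sing ⟨by omega, by omega, hj⟩)
  have e1 : S.tr (m + 1) (w ++ [.E j b]) = S.tr (m + 1) (w ++ [.E j m]) := by
    rw [← tr_swap S o1 (i := b) (j := m) (by omega) (by omega), List.map_append, t2_map ow hw]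
    simp only [List.map_cons, List.map_nil, Lt.map]
    rw [Equiv.swap_apply_of_ne_of_ne hj hjm.ne, Equiv.swap_apply_left]
  have e2 : S.tr (m + 1) (w ++ [.E j m]) = qint lam (n - 1) * S.tr m w := by
    rw [S.cyc (m + 1) w [.E j m] ow1 (t2_sing ⟨by omega, by omega, hjm.ne⟩)]
    exact S.addE m j w hjm ow
  rw [t0_ok S hd o1, t0_ok S hd ow, e1, e2, pow_succ, mul_inv]
  ring

lemma t0_exch (hd : qint lam n ≠ 0) (b p : ℕ) (x y : List Lt) (hp : p ≠ b)
    (hx : ∀ a ∈ x, frL b a) (hy : ∀ a ∈ y, frL b a) :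
    t0 S (x ++ [.E p b] ++ y ++ [.E p b]) =
      (qint lam n)⁻¹ * qint lam (n - 2) * t0 S (x ++ y) +
        t0 S (x ++ [.S p b] ++ y ++ [.S p b]) := by
  by_cases hv : ∀ a ∈ x ++ y, valL a
  swap
  · push Not at hv
    obtain ⟨a, ha, hna⟩ := hv
    have k1 : t0 S (x ++ [.E p b] ++ y ++ [.E p b]) = 0 := by
      refine t0_inv S ⟨a, ?_, hna⟩
      rcases List.mem_append.1 ha with h | h <;> simp [h]
    have k2 : t0 S (x ++ [.S p b] ++ y ++ [.S p b]) = 0 := by
      refine t0_inv S ⟨a, ?_, hna⟩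
      rcases List.mem_append.1 ha with h | h <;> simp [h]
    rw [k1, k2, t0_inv S ⟨a, ha, hna⟩, mul_zero, add_zero]
  obtain ⟨m, hm⟩ : ∃ m, m = max (bd x) (max (bd y) (max (b + 1) (p + 1))) := ⟨_, rfl⟩
  have hb : b < m := by omega
  have hpm : p < m := by omega
  have ox : Ok m x := ok_of_val (fun a ha => hv a (List.mem_append_left _ ha)) (by omega)
  have oy : Ok m y := ok_of_val (fun a ha => hv a (List.mem_append_right _ ha)) (by omega)
  have ox1 : Ok (m + 1) x := t2_mono (Nat.le_succ m) ox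
  have oy1 : Ok (m + 1) y := t2_mono (Nat.le_succ m) oy
  have oE : Ok (m + 1) [.E p b] := t2_sing ⟨by omega, by omega, hp⟩
  have oS : Ok (m + 1) [.S p b] := t2_sing ⟨by omega, by omega⟩
  have o1 : Ok (m + 1) (x ++ [.E p b] ++ y ++ [.E p b]) := t2_app (t2_app (t2_app ox1 oE) oy1) oE
  have o2 : Ok (m + 1) (x ++ [.S p b] ++ y ++ [.S p b]) := t2_app (t2_app (t2_app ox1 oS) oy1) oS
  have e1 : S.tr (m + 1) (x ++ [.E p b] ++ y ++ [.E p b]) =
      S.tr (m + 1) (x ++ [.E p m] ++ y ++ [.E p m]) := by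
    rw [← tr_swap S o1 (i := b) (j := m) (by omega) (by omega)]
    simp only [List.map_append, t2_map ox hx, t2_map oy hy, List.map_cons, List.map_nil, Lt.map]
    rw [Equiv.swap_apply_of_ne_of_ne hp hpm.ne, Equiv.swap_apply_left]
  have e2 : S.tr (m + 1) (x ++ [.S p b] ++ y ++ [.S p b]) =
      S.tr (m + 1) (x ++ [.S p m] ++ y ++ [.S p m]) := by
    rw [← tr_swap S o2 (i := b) (j := m) (by omega) (by omega)]
    simp only [List.map_append, t2_map ox hx, t2_map oy hy, List.map_cons, List.map_nil, Lt.map]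
    rw [Equiv.swap_apply_of_ne_of_ne hp hpm.ne, Equiv.swap_apply_left]
  rw [t0_ok S hd o1, t0_ok S hd o2, t0_ok S hd (t2_app ox oy), e1, e2, exch S hpm ox oy, pow_succ,
    mul_inv]
  ring

end

end CO
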