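import Pool.Agent.H61.CO.Defs

/-!
# The normalized trace functional on words (definitions)
-/

namespace CO

open ZM

/-- One more than the largest label of a letter. -/
def bdL : Lt → ℕ
  | .E i j => max i j + 1
  | .S i j => max i j + 1

/-- A number of strands which is large enough for the word. -/
def bd : List Lt → ℕ
  | [] => 0
  | a :: w => max (bdL a) (bd w)

/-- The letters `E i i` are excluded. -/
def valL : Lt → Prop
  | .E i j => i ≠ j
  | .S _ _ => True

/-- The letter does not involve the label `b`. -/
def frL (b : ℕ) : Lt → Prop
  | .E i j => i ≠ b ∧ j ≠ b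
  | .S i j => i ≠ b ∧ j ≠ b

open Classical in
/-- The normalized trace of a word. -/
noncomputable def t0 {K : Type} [Field K] {lam : K} {n : ℕ} (S : TraceSys K lam n)
    (w : List Lt) : K :=
  if ∀ a ∈ w, valL a then ((qint lam n) ^ bd w)⁻¹ * S.tr (bd w) w else 0

/-- The element of a letter. -/
def VA.lL {K : Type} [Field K] {lam : K} {n : ℕ} (A : VA K lam n) : Lt → A.R
  | .E i j => A.E i j
  | .S i j => A.S i j

end CO
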