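import Pool.Agent.H61.CO.Hb

/-!
# Crossings in the algebra of virtual webs (row CO V1)

`A : VA L lam n`; `cr i j = lam^-n (lam - E)`, `ci i j = lam^n (lam⁻¹ - E)`, `sp i = cr i (i+1)`,
`sn i = ci i (i+1)`, `vt i = S i (i+1)`.

Proofs.
`SE`: `S i j * E i j = E j i * S i j` (`sE`, swap) `= E i j * S i j = E i j` (`esym`, `es`).
`cr_ci`: `(lam - E)(lam⁻¹ - E) = 1 - (lam + lam⁻¹) E + E^2 = 1` by `e2`; the same for `ci_cr`.
`vt_vt` is `ss`.  `rr_ri`: `cr * S * (S * ci) = 1`, `ri_rr` the same.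
`S_cr`, `S_ci`: from `sE` (a scalar commutes).
`vt_sp`: `S * (lam - E) = (lam - E) * S` by `SE` and `es`.
`hecke`: `sp i * sp i`: with `b = lam⁻¹ ^ n`: `sp^2 = b^2 (lam^2 - 2 lam E + (lam + lam⁻¹) E) =
b^2 (lam^2 - (lam - lam⁻¹) E)`, and `E = lam - lam^n sp`.  So
`sp^2 = b^2 (lam^2 - lam (lam - lam⁻¹)) + b (lam - lam⁻¹) sp = b^2 + b (lam - lam⁻¹) sp`.  Multiply by
`cc = - lam⁻¹ lam^n`: `cc b^2 = - lam⁻¹ b = mu` and `cc b (lam - lam⁻¹) = -lam⁻¹ (lam - lam⁻¹) =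
lam⁻² - 1 = mu cc - 1`.
`absorb`: `sp i * x = mu • x` means `lam^-n (lam - E) x = - lam^-n lam⁻¹ x`, so
`E x = (lam + lam⁻¹) x`; then `(lam + lam⁻¹) vt i * x = vt i * E * x = E * x = (lam + lam⁻¹) x`.
`absorb'` the same from the right.
`sn_eig`: multiply `sp i * x = mu • x` by `sn i`: `x = mu • sn i * x`.
-/

namespace CO

namespace VA

section

variable {L : Type} [Field L] {lam : L} {n : ℕ} (A : VA L lam n)

lemma SE (i j : ℕ) (h : i ≠ j) : A.S i j * A.E i j = A.E i j := by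
  have h1 := A.sE i j i j h
  rw [Equiv.swap_apply_left, Equiv.swap_apply_right, ← A.esym i j h, A.es i j h] at h1
  exact h1

lemma cr_ci (hl : lam ≠ 0) (i j : ℕ) (h : i ≠ j) : A.cr i j * A.ci i j = 1 := by
  have hn : (lam⁻¹) ^ n * lam ^ n = 1 := by
    rw [← mul_pow, inv_mul_cancel₀ hl, one_pow]
  have h1 : lam * lam⁻¹ = 1 := mul_inv_cancel₀ hl
  have key : (lam • (1 : A.R) - A.E i j) * (lam⁻¹ • (1 : A.R) - A.E i j) = 1 := by
    rw [sub_mul, mul_sub, mul_sub, smul_mul_smul_comm, h1, one_mul, one_smul, smul_mul_assoc,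
      one_mul, mul_smul_comm, mul_one, A.e2 i j h, add_smul]
    abel
  rw [cr, ci, smul_mul_smul_comm, hn, one_smul, key]

lemma ci_cr (hl : lam ≠ 0) (i j : ℕ) (h : i ≠ j) : A.ci i j * A.cr i j = 1 := by
  have hn : lam ^ n * (lam⁻¹) ^ n = 1 := by
    rw [← mul_pow, mul_inv_cancel₀ hl, one_pow]
  have h1 : lam⁻¹ * lam = 1 := inv_mul_cancel₀ hl
  have key : (lam⁻¹ • (1 : A.R) - A.E i j) * (lam • (1 : A.R) - A.E i j) = 1 := by
    rw [sub_mul, mul_sub, mul_sub, smul_mul_smul_comm, h1, one_mul, one_smul, smul_mul_assoc,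
      one_mul, mul_smul_comm, mul_one, A.e2 i j h, add_smul]
    abel
  rw [cr, ci, smul_mul_smul_comm, hn, one_smul, key]

lemma sp_sn (hl : lam ≠ 0) (i : ℕ) : A.sp i * A.sn i = 1 := by
  exact A.cr_ci hl i (i + 1) (by omega)

lemma sn_sp (hl : lam ≠ 0) (i : ℕ) : A.sn i * A.sp i = 1 := by
  exact A.ci_cr hl i (i + 1) (by omega)

lemma vt_vt (i : ℕ) : A.vt i * A.vt i = 1 := by
  exact A.ss i (i + 1)

lemma rr_ri (hl : lam ≠ 0) (i j : ℕ) (h : i ≠ j) : A.rr i j * A.ri i j = 1 := by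
  rw [rr, ri, mul_assoc, ← mul_assoc (A.S i j), A.ss, one_mul, A.cr_ci hl i j h]

lemma ri_rr (hl : lam ≠ 0) (i j : ℕ) (h : i ≠ j) : A.ri i j * A.rr i j = 1 := by
  rw [rr, ri, mul_assoc, ← mul_assoc (A.ci i j), A.ci_cr hl i j h, one_mul, A.ss]

lemma S_cr (i j a b : ℕ) (h : a ≠ b) :
    A.S i j * A.cr a b = A.cr (Equiv.swap i j a) (Equiv.swap i j b) * A.S i j := by
  rw [cr, cr, mul_smul_comm, smul_mul_assoc, mul_sub, sub_mul, A.sE i j a b h, mul_smul_comm,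
    smul_mul_assoc, mul_one, one_mul]

lemma S_ci (i j a b : ℕ) (h : a ≠ b) :
    A.S i j * A.ci a b = A.ci (Equiv.swap i j a) (Equiv.swap i j b) * A.S i j := by
  rw [ci, ci, mul_smul_comm, smul_mul_assoc, mul_sub, sub_mul, A.sE i j a b h, mul_smul_comm,
    smul_mul_assoc, mul_one, one_mul]

lemma S_rr (i j a b : ℕ) (h : a ≠ b) :
    A.S i j * A.rr a b = A.rr (Equiv.swap i j a) (Equiv.swap i j b) * A.S i j := by
  rw [rr, rr, ← mul_assoc, A.S_cr i j a b h, mul_assoc, A.sS i j a b, ← mul_assoc]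

lemma rr_symm (i j : ℕ) (h : i ≠ j) : A.rr i j = A.rr j i := by
  rw [rr, rr, cr, cr, A.esym i j h, A.ssym i j]

lemma ri_symm (i j : ℕ) (h : i ≠ j) : A.ri i j = A.ri j i := by
  rw [ri, ri, ci, ci, A.esym i j h, A.ssym i j]

lemma vt_sp (i : ℕ) : A.vt i * A.sp i = A.sp i * A.vt i := by
  have h : i ≠ i + 1 := by omega
  rw [vt, sp, cr, mul_smul_comm, smul_mul_assoc, mul_sub, sub_mul, A.SE i (i + 1) h,
    A.es i (i + 1) h, mul_smul_comm, smul_mul_assoc, mul_one, one_mul]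

lemma vt_sn (i : ℕ) : A.vt i * A.sn i = A.sn i * A.vt i := by
  have h : i ≠ i + 1 := by omega
  rw [vt, sn, ci, mul_smul_comm, smul_mul_assoc, mul_sub, sub_mul, A.SE i (i + 1) h,
    A.es i (i + 1) h, mul_smul_comm, smul_mul_assoc, mul_one, one_mul]

lemma hecke (hl : lam ≠ 0) (i : ℕ) : cc lam n • (A.sp i * A.sp i) =
    mu lam n • (1 : A.R) + (mu lam n * cc lam n - 1) • A.sp i := by
  have h : i ≠ i + 1 := by omega
  obtain ⟨E, hE⟩ : ∃ E, E = A.E i (i + 1) := ⟨_, rfl⟩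
  have e2 : E * E = (lam + lam⁻¹) • E := by
    rw [hE]
    exact A.e2 i (i + 1) h
  have hs : A.sp i = (lam⁻¹) ^ n • (lam • (1 : A.R) - E) := by
    rw [hE]
    rfl
  have hb : lam ^ n * (lam⁻¹) ^ n = 1 := by
    rw [← mul_pow, mul_inv_cancel₀ hl, one_pow]
  have h1 : lam * lam⁻¹ = 1 := mul_inv_cancel₀ hl
  have sq : (lam • (1 : A.R) - E) * (lam • (1 : A.R) - E) =
      (lam * lam) • (1 : A.R) - (lam - lam⁻¹) • E := by
    rw [sub_mul, mul_sub, mul_sub, smul_mul_smul_comm, one_mul, smul_mul_assoc,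
      one_mul, mul_smul_comm, mul_one, e2, add_smul, sub_smul]
    abel
  rw [hs, smul_mul_smul_comm, sq, cc, mu]
  obtain ⟨b, hb'⟩ : ∃ b, b = (lam⁻¹) ^ n := ⟨_, rfl⟩
  obtain ⟨c, hc⟩ : ∃ c, c = lam ^ n := ⟨_, rfl⟩
  obtain ⟨v, hv⟩ : ∃ v, v = lam⁻¹ := ⟨_, rfl⟩
  rw [← hb', ← hc] at hb
  rw [← hb', ← hc, ← hv]
  rw [← hv] at h1
  have k1 : -v * c * (b * b) * (lam * lam) = -v * b + (-v * b * (-v * c) - 1) * (b * lam) := by
    linear_combination (-v * b * lam * lam - v * v * b * lam) * hb + (-b * lam - b * v) * h1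
  have k2 : -v * c * (b * b) * (lam - v) = (-v * b * (-v * c) - 1) * b := by
    linear_combination (-v * b * (lam - v) - v * v * b) * hb - b * h1
  calc (-v * c) • (b * b) • ((lam * lam) • (1 : A.R) - (lam - v) • E)
      = (-v * c * (b * b) * (lam * lam)) • (1 : A.R) - (-v * c * (b * b) * (lam - v)) • E := by
        rw [smul_sub, smul_sub, smul_smul, smul_smul, smul_smul, smul_smul]
    _ = (-v * b + (-v * b * (-v * c) - 1) * (b * lam)) • (1 : A.R) -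
        ((-v * b * (-v * c) - 1) * b) • E := by rw [k1, k2]
    _ = (-v * b) • (1 : A.R) + (-v * b * (-v * c) - 1) • b • (lam • (1 : A.R) - E) := by
        rw [add_smul, smul_sub, smul_sub, smul_smul, smul_smul, smul_smul, add_sub_assoc]
        congr 2
        congr 1
        ring

lemma v1_mu (hl : lam ≠ 0) : mu lam n ≠ 0 := by
  have h : lam⁻¹ ≠ 0 := inv_ne_zero hl
  exact mul_ne_zero (neg_ne_zero.mpr h) (pow_ne_zero n h)

lemma v1_E (hl : lam ≠ 0) {x : A.R} (i : ℕ) (h : A.sp i * x = mu lam n • x) :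
    A.E i (i + 1) * x = (lam + lam⁻¹) • x := by
  have hb : lam ^ n * (lam⁻¹) ^ n = 1 := by
    rw [← mul_pow, mul_inv_cancel₀ hl, one_pow]
  have h2 : lam ^ n • (A.sp i * x) = lam • x - A.E i (i + 1) * x := by
    rw [sp, cr, smul_mul_assoc, smul_smul, hb, one_smul, sub_mul, smul_mul_assoc, one_mul]
  have h3 : lam ^ n * mu lam n = -lam⁻¹ := by
    rw [mu]
    linear_combination (-lam⁻¹) * hb
  rw [h, smul_smul, h3, neg_smul] at h2
  rw [add_smul]
  have h4 : A.E i (i + 1) * x = lam • x - (lam • x - A.E i (i + 1) * x) := by abel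
  rw [h4, ← h2]
  abel

lemma v1_E' (hl : lam ≠ 0) {x : A.R} (i : ℕ) (h : x * A.sp i = mu lam n • x) :
    x * A.E i (i + 1) = (lam + lam⁻¹) • x := by
  have hb : lam ^ n * (lam⁻¹) ^ n = 1 := by
    rw [← mul_pow, mul_inv_cancel₀ hl, one_pow]
  have h2 : lam ^ n • (x * A.sp i) = lam • x - x * A.E i (i + 1) := by
    rw [sp, cr, mul_smul_comm, smul_smul, hb, one_smul, mul_sub, mul_smul_comm, mul_one]
  have h3 : lam ^ n * mu lam n = -lam⁻¹ := by
    rw [mu]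
    linear_combination (-lam⁻¹) * hb
  rw [h, smul_smul, h3, neg_smul] at h2
  rw [add_smul]
  have h4 : x * A.E i (i + 1) = lam • x - (lam • x - x * A.E i (i + 1)) := by abel
  rw [h4, ← h2]
  abel

lemma absorb (hl : lam ≠ 0) (h2 : lam + lam⁻¹ ≠ 0) {x : A.R} (i : ℕ)
    (h : A.sp i * x = mu lam n • x) : A.vt i * x = x := by
  have hE := A.v1_E hl i h
  have h1 : i ≠ i + 1 := by omega
  have h3 : A.vt i * (A.E i (i + 1) * x) = A.E i (i + 1) * x := by
    rw [← mul_assoc, vt, A.SE i (i + 1) h1]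
  rw [hE, mul_smul_comm] at h3
  have h4 := congrArg (fun y => (lam + lam⁻¹)⁻¹ • y) h3
  simpa only [smul_smul, inv_mul_cancel₀ h2, one_smul] using h4

lemma absorb' (hl : lam ≠ 0) (h2 : lam + lam⁻¹ ≠ 0) {x : A.R} (i : ℕ)
    (h : x * A.sp i = mu lam n • x) : x * A.vt i = x := by
  have hE := A.v1_E' hl i h
  have h1 : i ≠ i + 1 := by omega
  have h3 : x * A.E i (i + 1) * A.vt i = x * A.E i (i + 1) := by
    rw [mul_assoc, vt, A.es i (i + 1) h1]
  rw [hE, smul_mul_assoc] at h3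
  have h4 := congrArg (fun y => (lam + lam⁻¹)⁻¹ • y) h3
  simpa only [smul_smul, inv_mul_cancel₀ h2, one_smul] using h4

lemma sn_eig (hl : lam ≠ 0) {x : A.R} (i : ℕ) (h : A.sp i * x = mu lam n • x) :
    A.sn i * x = (mu lam n)⁻¹ • x := by
  have hm := v1_mu (n := n) hl
  have h1 : A.sn i * (A.sp i * x) = x := by
    rw [← mul_assoc, A.sn_sp hl i, one_mul]
  rw [h, mul_smul_comm] at h1
  have h4 := congrArg (fun y => (mu lam n)⁻¹ • y) h1
  simpa only [smul_smul, inv_mul_cancel₀ hm, one_smul] using h4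

lemma sn_eig' (hl : lam ≠ 0) {x : A.R} (i : ℕ) (h : x * A.sp i = mu lam n • x) :
    x * A.sn i = (mu lam n)⁻¹ • x := by
  have hm := v1_mu (n := n) hl
  have h1 : x * A.sp i * A.sn i = x := by
    rw [mul_assoc, A.sp_sn hl i, mul_one]
  rw [h, smul_mul_assoc] at h1
  have h4 := congrArg (fun y => (mu lam n)⁻¹ • y) h1
  simpa only [smul_smul, inv_mul_cancel₀ hm, one_smul] using h4

end

end VA

end CO
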