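import Pool.Agent.H61.CO.V1

/-!
# Elements without a label, traces of single crossings (row CO V2)

`A.Fr b = Algebra.adjoin L (frGen A.E A.S b)` is the subalgebra of the elements without `b`.

Proofs.
Membership: `Algebra.subset_adjoin` for `E i j`, `S i j`, then closure (`smul_mem`, `sub_mem`,
`one_mem`, `mul_mem`).
`tr_sp`: `tr (x * sp j) = lam^-n (lam tr x - tr (x * E j (j+1)))`; `trE` with `b = j + 1`
(`δ = qint lam n ≠ 0`) gives `lam^-n (lam - δ⁻¹ [n-1]) tr x`, and `lam [n] - [n-1] = lam^n`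
(`qint_up`): so it is `δ⁻¹ tr x`.  `tr_sn`: `lam^n (lam⁻¹ - δ⁻¹ [n-1])`, `lam⁻¹ [n] - [n-1] = lam^-n`.
`tr_vt` is `trS`.
`qint_up`, `qint_dn`: `qint lam r = lam * lam⁻¹^r * ∑_{i<r} (lam^2)^i`; write `n = m + 1`,
use `Finset.sum_range_succ` resp. `Finset.sum_range_succ'`.
`conj_mem`: `s = S p b`; `s * U * s` is without `b` if `U` is without `p`: conjugation by `s` is
multiplicative (`s * s = 1`) and maps the generators without `p` to generators without `b` (`sE`,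
`sS`, `ss`; the swap of `i ≠ p` is `≠ b`): `Algebra.adjoin_induction`.
`ex`: (`p ≠ b`, `U` without `p`, `V` without `b`).  Put `s = S p b`, `x = s * U * s`.
With `ri p b = s * ci p b`, `rr p b = cr p b * s`:
`tr (U * ri * V * rr) = tr (U * s * ci * V * cr * s) = tr ((s * U * s) * ci * V * cr) =
tr (x * ci * V * cr)` and `ci = lam^n (lam⁻¹ - E)`, `cr = lam^-n (lam - E)`, so this is
`tr (x V) - lam⁻¹ tr (x V E) - lam tr (x E V) + tr (x E V E)`.  By `trE` both middle traces are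
`δ⁻¹ [n-1] tr (x V)` (`tr (x E V) = tr (V x E)`, `tr (V x) = tr (x V)`), and by `exch` the last one is
`δ⁻¹ [n-2] tr (x V) + tr (x s V s)`.  The coefficient of `tr (x V)` is
`δ⁻¹ ([n] - (lam + lam⁻¹) [n-1] + [n-2]) = 0` (lemma `ZM.qint_id3` of
`Pool/Agent/H75/ZM/BrEx.lean` proves it; copy its 20 lines here as a private lemma, or use
`qint_up` and `qint_dn` for `n` and `n - 1`).  Finally
`tr (x s V s) = tr (s U s s V s) = tr (s U V s) = tr (U V)`.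
`ex'`: `U` without `b`, `V` without `p`: `ex` with `p`, `b` exchanged and `rr_symm`, `ri_symm`.
-/

namespace CO

open ZM

namespace VA

private lemma v2_id3 {K : Type} [Field K] {lam : K} {n : ℕ} (hne : lam ≠ 0) (hn : 2 ≤ n) :
    qint lam n - (lam + lam⁻¹) * qint lam (n - 1) + qint lam (n - 2) = 0 := by
  obtain ⟨m, rfl⟩ : ∃ m, n = m + 2 := ⟨n - 2, by omega⟩
  have e1 : m + 2 - 1 = m + 1 := by omega
  have e2 : m + 2 - 2 = m := by omega
  rw [e1, e2]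
  unfold qint
  obtain ⟨μ, hμ⟩ : ∃ μ, μ = lam⁻¹ := ⟨_, rfl⟩
  have h : lam * μ = 1 := by rw [hμ]; exact mul_inv_cancel₀ hne
  rw [← hμ, Finset.sum_range_succ, Finset.sum_range_succ]
  obtain ⟨s, hs⟩ : ∃ s, s = ∑ i ∈ Finset.range m, (lam ^ 2) ^ i := ⟨_, rfl⟩
  obtain ⟨P, hP⟩ : ∃ P, P = (lam ^ 2) ^ m := ⟨_, rfl⟩
  have e3 : (lam ^ 2) ^ (m + 1) = P * lam ^ 2 := by rw [hP, pow_succ]
  rw [e3, ← hs, ← hP]
  linear_combination (lam * μ ^ m) * (lam * μ * P - s) * h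

section

variable {L : Type} [Field L] {lam : L} {n : ℕ} (A : VA L lam n)

lemma E_mem {b i j : ℕ} (hi : i ≠ b) (hj : j ≠ b) (h : i ≠ j) : A.E i j ∈ A.Fr b :=
  Algebra.subset_adjoin ⟨i, j, hi, hj, Or.inl ⟨h, rfl⟩⟩

lemma S_mem {b i j : ℕ} (hi : i ≠ b) (hj : j ≠ b) : A.S i j ∈ A.Fr b :=
  Algebra.subset_adjoin ⟨i, j, hi, hj, Or.inr rfl⟩

private lemma v2_cr_mem {b i j : ℕ} (hi : i ≠ b) (hj : j ≠ b) (h : i ≠ j) : A.cr i j ∈ A.Fr b := by
  unfold cr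
  exact Subalgebra.smul_mem _ (sub_mem (Subalgebra.smul_mem _ (one_mem _) _) (A.E_mem hi hj h)) _

private lemma v2_ci_mem {b i j : ℕ} (hi : i ≠ b) (hj : j ≠ b) (h : i ≠ j) : A.ci i j ∈ A.Fr b := by
  unfold ci
  exact Subalgebra.smul_mem _ (sub_mem (Subalgebra.smul_mem _ (one_mem _) _) (A.E_mem hi hj h)) _

lemma rr_mem {b i j : ℕ} (hi : i ≠ b) (hj : j ≠ b) (h : i ≠ j) : A.rr i j ∈ A.Fr b :=
  mul_mem (A.v2_cr_mem hi hj h) (A.S_mem hi hj)

lemma ri_mem {b i j : ℕ} (hi : i ≠ b) (hj : j ≠ b) (h : i ≠ j) : A.ri i j ∈ A.Fr b :=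
  mul_mem (A.S_mem hi hj) (A.v2_ci_mem hi hj h)

lemma sp_mem {b i : ℕ} (hi : i ≠ b) (hj : i + 1 ≠ b) : A.sp i ∈ A.Fr b :=
  A.v2_cr_mem hi hj (by omega)

lemma sn_mem {b i : ℕ} (hi : i ≠ b) (hj : i + 1 ≠ b) : A.sn i ∈ A.Fr b :=
  A.v2_ci_mem hi hj (by omega)

lemma vt_mem {b i : ℕ} (hi : i ≠ b) (hj : i + 1 ≠ b) : A.vt i ∈ A.Fr b :=
  A.S_mem hi hj

lemma qint_up (hl : lam ≠ 0) (hn : 1 ≤ n) : lam * qint lam n - qint lam (n - 1) = lam ^ n := by
  obtain ⟨m, rfl⟩ : ∃ m, n = m + 1 := ⟨n - 1, by omega⟩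
  rw [Nat.add_sub_cancel]
  unfold qint
  obtain ⟨μ, hμ⟩ : ∃ μ, μ = lam⁻¹ := ⟨_, rfl⟩
  have h : lam * μ = 1 := by rw [hμ]; exact mul_inv_cancel₀ hl
  have hm : μ ^ m * lam ^ m = 1 := by rw [← mul_pow, mul_comm, h, one_pow]
  rw [← hμ, Finset.sum_range_succ]
  obtain ⟨s, hs⟩ : ∃ s, s = ∑ i ∈ Finset.range m, (lam ^ 2) ^ i := ⟨_, rfl⟩
  rw [← hs]
  have e3 : (lam ^ 2) ^ m = lam ^ m * lam ^ m := by rw [← pow_mul, mul_comm, pow_mul, sq]
  rw [e3]
  linear_combination (lam * μ ^ m) * (s + lam ^ m * lam ^ m) * h + lam * lam ^ m * hm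

lemma qint_dn (hl : lam ≠ 0) (hn : 1 ≤ n) :
    lam⁻¹ * qint lam n - qint lam (n - 1) = (lam⁻¹) ^ n := by
  obtain ⟨m, rfl⟩ : ∃ m, n = m + 1 := ⟨n - 1, by omega⟩
  rw [Nat.add_sub_cancel]
  unfold qint
  obtain ⟨μ, hμ⟩ : ∃ μ, μ = lam⁻¹ := ⟨_, rfl⟩
  have h : lam * μ = 1 := by rw [hμ]; exact mul_inv_cancel₀ hl
  rw [← hμ, Finset.sum_range_succ']
  obtain ⟨s, hs⟩ : ∃ s, s = ∑ i ∈ Finset.range m, (lam ^ 2) ^ i := ⟨_, rfl⟩
  have e3 : ∑ i ∈ Finset.range m, (lam ^ 2) ^ (i + 1) = lam ^ 2 * s := by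
    rw [hs, Finset.mul_sum]
    exact Finset.sum_congr rfl fun i _ => pow_succ' _ _
  rw [e3, ← hs, pow_zero]
  linear_combination (μ ^ m) * (lam * s + lam * s * (lam * μ) + μ) * h

lemma tr_sp (hl : lam ≠ 0) (hn : 1 ≤ n) (hd : qint lam n ≠ 0) (j : ℕ) {x : A.R}
    (hx : x ∈ A.Fr (j + 1)) : A.tr (x * A.sp j) = (qint lam n)⁻¹ * A.tr x := by
  have h1 := A.trE (j + 1) j x (by omega) hx
  have h2 := qint_up (n := n) hl hn
  have h3 : (lam⁻¹) ^ n * lam ^ n = 1 := by rw [← mul_pow, inv_mul_cancel₀ hl, one_pow]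
  have h4 : (qint lam n)⁻¹ * qint lam n = 1 := inv_mul_cancel₀ hd
  show A.tr (x * ((lam⁻¹) ^ n • (lam • (1 : A.R) - A.E j (j + 1)))) = _
  rw [mul_smul_comm, mul_sub, mul_smul_comm, mul_one, map_smul, map_sub, map_smul, h1]
  simp only [smul_eq_mul]
  linear_combination ((lam⁻¹) ^ n * A.tr x * (qint lam n)⁻¹) * h2 +
    (A.tr x * (qint lam n)⁻¹) * h3 - ((lam⁻¹) ^ n * A.tr x * lam) * h4

lemma tr_sn (hl : lam ≠ 0) (hn : 1 ≤ n) (hd : qint lam n ≠ 0) (j : ℕ) {x : A.R}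
    (hx : x ∈ A.Fr (j + 1)) : A.tr (x * A.sn j) = (qint lam n)⁻¹ * A.tr x := by
  have h1 := A.trE (j + 1) j x (by omega) hx
  have h2 := qint_dn (n := n) hl hn
  have h3 : lam ^ n * (lam⁻¹) ^ n = 1 := by rw [← mul_pow, mul_inv_cancel₀ hl, one_pow]
  have h4 : (qint lam n)⁻¹ * qint lam n = 1 := inv_mul_cancel₀ hd
  show A.tr (x * (lam ^ n • (lam⁻¹ • (1 : A.R) - A.E j (j + 1)))) = _
  rw [mul_smul_comm, mul_sub, mul_smul_comm, mul_one, map_smul, map_sub, map_smul, h1]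
  simp only [smul_eq_mul]
  linear_combination (lam ^ n * A.tr x * (qint lam n)⁻¹) * h2 +
    (A.tr x * (qint lam n)⁻¹) * h3 - (lam ^ n * A.tr x * lam⁻¹) * h4

lemma tr_vt (j : ℕ) {x : A.R} (hx : x ∈ A.Fr (j + 1)) :
    A.tr (x * A.vt j) = (qint lam n)⁻¹ * A.tr x :=
  A.trS (j + 1) j x (by omega) hx

private lemma v2_swap_ne {p b i : ℕ} (hi : i ≠ p) : Equiv.swap p b i ≠ b := by
  intro h1
  apply hi
  have := congrArg (Equiv.swap p b) h1
  rwa [Equiv.swap_apply_self, Equiv.swap_apply_right] at this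

lemma conj_mem {p b : ℕ} (h : p ≠ b) {U : A.R} (hU : U ∈ A.Fr p) :
    A.S p b * U * A.S p b ∈ A.Fr b := by
  have hss := A.ss p b
  induction hU using Algebra.adjoin_induction with
  | mem x hx =>
    obtain ⟨i, j, hi, hj, hx⟩ := hx
    rcases hx with ⟨hij, rfl⟩ | rfl
    · rw [A.sE p b i j hij, mul_assoc, hss, mul_one]
      exact A.E_mem (v2_swap_ne hi) (v2_swap_ne hj) ((Equiv.swap p b).injective.ne hij)
    · rw [A.sS p b i j, mul_assoc, hss, mul_one]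
      exact A.S_mem (v2_swap_ne hi) (v2_swap_ne hj)
  | algebraMap r =>
    rw [← Algebra.commutes, mul_assoc, hss, mul_one]
    exact Subalgebra.algebraMap_mem _ _
  | add x y _ _ hx hy =>
    rw [mul_add, add_mul]
    exact add_mem hx hy
  | mul x y _ _ hx hy =>
    have e : A.S p b * (x * y) * A.S p b =
        (A.S p b * x * A.S p b) * (A.S p b * y * A.S p b) := by
      calc A.S p b * (x * y) * A.S p b
          = A.S p b * x * 1 * y * A.S p b := by rw [mul_one, mul_assoc (A.S p b) x y]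
        _ = A.S p b * x * (A.S p b * A.S p b) * y * A.S p b := by rw [hss]
        _ = _ := by simp only [mul_assoc]
    rw [e]
    exact mul_mem hx hy

theorem ex (hl : lam ≠ 0) (hn : 2 ≤ n) (hd : qint lam n ≠ 0) {p b : ℕ} (h : p ≠ b) {U V : A.R}
    (hU : U ∈ A.Fr p) (hV : V ∈ A.Fr b) :
    A.tr (U * A.ri p b * V * A.rr p b) = A.tr (U * V) := by
  have hss := A.ss p b
  obtain ⟨s, hs⟩ : ∃ s, s = A.S p b := ⟨_, rfl⟩
  obtain ⟨E, hE⟩ : ∃ E, E = A.E p b := ⟨_, rfl⟩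
  obtain ⟨x, hx⟩ : ∃ x, x = s * U * s := ⟨_, rfl⟩
  rw [← hs] at hss
  have hxm : x ∈ A.Fr b := by rw [hx, hs]; exact A.conj_mem h hU
  have e0 : A.tr (U * A.ri p b * V * A.rr p b) = A.tr (x * A.ci p b * V * A.cr p b) := by
    have e1 : U * A.ri p b * V * A.rr p b = (U * s * A.ci p b * V * A.cr p b) * s := by
      rw [ri, rr, hs]; simp only [mul_assoc]
    have e2 : x * A.ci p b * V * A.cr p b = s * (U * s * A.ci p b * V * A.cr p b) := by
      rw [hx]; simp only [mul_assoc]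
    rw [e1, e2, A.cyc]
  have h1 : A.tr (x * V * E) = (qint lam n)⁻¹ * qint lam (n - 1) * A.tr (x * V) := by
    rw [hE]; exact A.trE b p (x * V) h (mul_mem hxm hV)
  have h2 : A.tr (x * E * V) = (qint lam n)⁻¹ * qint lam (n - 1) * A.tr (x * V) := by
    rw [A.cyc (x * E) V, ← mul_assoc, A.cyc x V, hE]
    exact A.trE b p (V * x) h (mul_mem hV hxm)
  have h3 : A.tr (x * E * V * E) =
      (qint lam n)⁻¹ * qint lam (n - 2) * A.tr (x * V) + A.tr (U * V) := by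
    rw [hE, A.exch b p x V h hxm hV, ← hs]
    congr 1
    have e3 : x * s * V * s = s * (U * V * s) := by
      rw [hx]
      calc s * U * s * s * V * s = s * U * (s * s) * V * s := by simp only [mul_assoc]
        _ = s * (U * V * s) := by rw [hss, mul_one]; simp only [mul_assoc]
    rw [e3, A.cyc, mul_assoc, hss, mul_one]
  have h4 : (lam⁻¹) ^ n * lam ^ n = 1 := by rw [← mul_pow, inv_mul_cancel₀ hl, one_pow]
  have h5 := v2_id3 (n := n) hl hn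
  have h6 : (qint lam n)⁻¹ * qint lam n = 1 := inv_mul_cancel₀ hd
  have h7 : lam * lam⁻¹ = 1 := mul_inv_cancel₀ hl
  have e4 : x * A.ci p b * V * A.cr p b = ((lam⁻¹) ^ n * lam ^ n) •
      (((lam * lam⁻¹) • (x * V) - lam • (x * E * V)) - (lam⁻¹ • (x * V * E) - x * E * V * E)) := by
    rw [ci, cr, ← hE]
    simp only [mul_smul_comm, smul_mul_assoc, mul_sub, sub_mul, mul_one, smul_sub, smul_smul]
    congr 1 <;> congr 1 <;> congr 1 <;> ring
  rw [e0, e4, h4, h7, one_smul, one_smul, map_sub, map_sub, map_sub, map_smul, map_smul, h1, h2, h3]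
  simp only [smul_eq_mul]
  linear_combination ((qint lam n)⁻¹ * A.tr (x * V)) * h5 - A.tr (x * V) * h6

theorem ex' (hl : lam ≠ 0) (hn : 2 ≤ n) (hd : qint lam n ≠ 0) {p b : ℕ} (h : p ≠ b) {U V : A.R}
    (hU : U ∈ A.Fr b) (hV : V ∈ A.Fr p) :
    A.tr (U * A.ri p b * V * A.rr p b) = A.tr (U * V) := by
  rw [A.ri_symm p b h, A.rr_symm p b h]
  exact A.ex hl hn hd h.symm hU hV

end

end VA

end CO
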