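import Pool.Agent.H61.CO.S2
import Pool.Agent.H61.CO.X2
import Pool.Agent.H61.CO.V6

/-!
# The antisymmetrizers (row CO V3)

`A.Y x k = Ap (cc lam n) A.sp x k`.  `mu * cc = lam⁻²`, and `nk (-lam⁻¹) k = ∏_{j<k} ∑_{i≤j}
((-lam⁻¹)^2)^i` is the product in `S1`, `S2` with `r μ = cc mu = (-lam⁻¹)^2` (`cc_mu`).

Proofs.
`Y_sp`: `Ap_right`; `sp_Y`: `Ap_left`; both with `hecke`.  `Y_sn`, `sn_Y`: `sn_eig'`, `sn_eig`.
`Y_vt`, `vt_Y`: `absorb'`, `absorb`.  `Y_sq`: `Ap_sq`.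
`H_Y`: `Hp A.vt x k * A.Y x k = A.Y x k`: prove `Hp A.vt x k' * B = B` for `k' ≤ k` by induction on
`k'` where `B = A.Y x k`, with `Dp A.vt x l * B = B` for `l + 1 ≤ k` (induction on `l`).
`X_Y1`: `Xp c x k k * A.Y (x+k) k = A.Y x k * Xp c x k k` for the three kinds `c` of letters: `tw_A`
with `y1 = fun i => A.sp (i + k)`, `y2 = A.sp`, `Xp_mv1`, and `Ap_shift`.
`X_Y0`: `Xp c x k k * A.Y x k = A.Y (x+k) k * Xp c x k k`: `tw_A` with `y1 = A.sp`,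
`y2 = fun i => A.sp (i+k)`, `Xp_mv2`.
`Y_comm_far`: `y j * A.Y x k = A.Y x k * y j` if `y j` commutes with the `sp i`, `x ≤ i < x + k - 1`:
`tw_A`.
`YY_comm`: `A.Y x k * A.Y x' k' = A.Y x' k' * A.Y x k` if `x + k ≤ x'`: `tw_A` twice (far letters
commute; `cmp_sp_sp`).
-/

namespace CO

open ZM

namespace VA

section

variable {L : Type} [Field L] {lam : L} {n : ℕ} (A : VA L lam n)

lemma cc_mu (hl : lam ≠ 0) : cc lam n * mu lam n = (-lam⁻¹) ^ 2 := by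
  unfold cc mu
  have h : lam ^ n * (lam⁻¹) ^ n = 1 := by rw [← mul_pow, mul_inv_cancel₀ hl, one_pow]
  linear_combination (lam⁻¹) ^ 2 * h

lemma mu_ne (hl : lam ≠ 0) : mu lam n ≠ 0 := by
  unfold mu
  exact mul_ne_zero (neg_ne_zero.2 (inv_ne_zero hl)) (pow_ne_zero _ (inv_ne_zero hl))

lemma v3_nk (hl : lam ≠ 0) (k : ℕ) :
    ∏ j ∈ Finset.range k, ∑ i ∈ Finset.range (j + 1), (cc lam n * mu lam n) ^ i = nk (-lam⁻¹) k := by
  rw [cc_mu hl]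
  rfl

lemma Y_sp (hl : lam ≠ 0) (x k j : ℕ) (h1 : x ≤ j) (h2 : j + 1 < x + k) :
    A.Y x k * A.sp j = mu lam n • A.Y x k := Ap_right (A.cmp_sp_sp hl) (A.hecke hl) x k j h1 h2

lemma sp_Y (hl : lam ≠ 0) (x k j : ℕ) (h1 : x ≤ j) (h2 : j + 1 < x + k)
    (hN : nk (-lam⁻¹) k ≠ 0) : A.sp j * A.Y x k = mu lam n • A.Y x k := Ap_left (A.cmp_sp_sp hl) (A.hecke hl) x k j h1 h2 (by rw [v3_nk hl]; exact hN)

lemma Y_sn (hl : lam ≠ 0) (x k j : ℕ) (h1 : x ≤ j) (h2 : j + 1 < x + k) :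
    A.Y x k * A.sn j = (mu lam n)⁻¹ • A.Y x k := A.sn_eig' hl j (A.Y_sp hl x k j h1 h2)

lemma sn_Y (hl : lam ≠ 0) (x k j : ℕ) (h1 : x ≤ j) (h2 : j + 1 < x + k)
    (hN : nk (-lam⁻¹) k ≠ 0) : A.sn j * A.Y x k = (mu lam n)⁻¹ • A.Y x k := A.sn_eig hl j (A.sp_Y hl x k j h1 h2 hN)

lemma Y_vt (hl : lam ≠ 0) (h2' : lam + lam⁻¹ ≠ 0) (x k j : ℕ) (h1 : x ≤ j)
    (h2 : j + 1 < x + k) : A.Y x k * A.vt j = A.Y x k := A.absorb' hl h2' j (A.Y_sp hl x k j h1 h2)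

lemma vt_Y (hl : lam ≠ 0) (h2' : lam + lam⁻¹ ≠ 0) (x k j : ℕ) (h1 : x ≤ j)
    (h2 : j + 1 < x + k) (hN : nk (-lam⁻¹) k ≠ 0) : A.vt j * A.Y x k = A.Y x k := A.absorb hl h2' j (A.sp_Y hl x k j h1 h2 hN)

lemma Y_sq (hl : lam ≠ 0) (x k : ℕ) : A.Y x k * A.Y x k = nk (-lam⁻¹) k • A.Y x k := by
  have h := Ap_sq (A.cmp_sp_sp hl) (A.hecke hl) x k
  rw [v3_nk hl] at h
  exact h

lemma H_Y (hl : lam ≠ 0) (h2' : lam + lam⁻¹ ≠ 0) (x k : ℕ) (hN : nk (-lam⁻¹) k ≠ 0) :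
    Hp A.vt x k * A.Y x k = A.Y x k := by
  have hD : ∀ l, l + 1 ≤ k → Dp A.vt x l * A.Y x k = A.Y x k := by
    intro l
    induction l with
    | zero => intro _; rw [Dp_zero, one_mul]
    | succ l ih =>
      intro h
      rw [Dp_succ, mul_assoc, ih (by omega)]
      exact A.vt_Y hl h2' x k (x + l) (by omega) (by omega) hN
  have hH : ∀ l, l ≤ k → Hp A.vt x l * A.Y x k = A.Y x k := by
    intro l
    induction l with
    | zero => intro _; exact one_mul _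
    | succ l ih =>
      intro h
      rw [Hp_succ, mul_assoc, hD l h, ih (by omega)]
  exact hH k le_rfl

lemma X_Y1 {c : ℕ → A.R} (hc : Cmp c A.sp) (x k : ℕ) :
    Xp c x k k * A.Y (x + k) k = A.Y x k * Xp c x k k := by
  have h := tw_A (g := Xp c x k k) (y1 := fun i => A.sp (i + k)) (y2 := A.sp) (lo := x)
    (hi := x + k - 1) (cc lam n) (fun i h1 h2 => Xp_mv1 hc x k k i h1 (by omega)) x k le_rfl (by omega)
  rw [Ap_shift] at h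
  exact h

lemma X_Y0 {c : ℕ → A.R} (hcc : Cmp c c) (hc : Cmp c A.sp) (x k : ℕ) :
    Xp c x k k * A.Y x k = A.Y (x + k) k * Xp c x k k := by
  have h := tw_A (g := Xp c x k k) (y1 := A.sp) (y2 := fun i => A.sp (i + k)) (lo := x)
    (hi := x + k - 1) (cc lam n) (fun i h1 h2 => Xp_mv2 hcc hc x k k i h1 (by omega)) x k le_rfl
    (by omega)
  rw [Ap_shift] at h
  exact h

lemma Y_comm_far {g : A.R} (x k : ℕ)
    (h : ∀ i, x ≤ i → i + 1 < x + k → g * A.sp i = A.sp i * g) :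
    g * A.Y x k = A.Y x k * g := tw_A (g := g) (y1 := A.sp) (y2 := A.sp) (lo := x) (hi := x + k - 1) (cc lam n)
    (fun i h1 h2 => h i h1 (by omega)) x k le_rfl (by omega)

lemma YY_comm (hl : lam ≠ 0) (x k x' k' : ℕ) (h : x + k ≤ x') :
    A.Y x k * A.Y x' k' = A.Y x' k' * A.Y x k := A.Y_comm_far x' k' (fun i h1 _ => (A.Y_comm_far x k (fun j _ h4 =>
    (A.cmp_sp_sp hl).far i j (Or.inr (by omega)))).symm)

end

end VA

end CO
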