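import Pool.Agent.H61.CO.V2
import Pool.Agent.H61.CO.V3
import Pool.Agent.H61.CO.V5

/-!
# Closing a bundle (row CO V4)

Proof of `close`.  `c` is one of `sp`, `sn`, `vt` (only the stated properties are used), `δ = qint
lam n`.  Claim for `q ≤ k`: `tr (y * Xp c x k q) = (δ⁻¹ * m^(k-1))^q * tr y`, by induction on `q`.
Step: `Xp c x k (q+1) = Xp c x k q * Dp c (x+q) k`, `k = l + 1`,
`Dp c (x+q) (l+1) = c (x+q+l) * Dp c (x+q) l`.  So the trace is
`tr ((Dp c (x+q) l * y * Xp c x k q) * c (x+q+l))` (cyclicity), and the element in parentheses is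
without the label `b = x + q + l + 1`: `y` by hypothesis (`b ≥ x + k`), `Dp c (x+q) l` has
letters with index `≤ x + q + l - 1`, labels `≤ x + q + l < b`; `Xp c x k q` has letters with index
`≤ x + k + q - 2 = x + q + l - 1`.  (`Dp_mem`, `Xp_mem` of V5.)  By `hm` it is
`δ⁻¹ * tr (Dp c (x+q) l * y * Xp c x k q) = δ⁻¹ * tr (y * (Xp c x k q * Dp c (x+q) l))`.
Now `Xp c x k q * Dp c (x+q) l = Dp c x l * Xp c x k q` (`tw_D` with `y1 = fun i => c (i+q)`, `y2 = c`,
`Xp_mv1`, and `Dp_shift`; the letters have index in `[x, x+l)` and `i + 1 < x + k` holds for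
`i < x + l`), and
`y * Dp c x l = m^l • y` (`mul_Dp` of S1, or induction).  So it is
`δ⁻¹ * m^l * tr (y * Xp c x k q)`.
-/

namespace CO

open ZM

namespace VA

section

variable {L : Type} [Field L] {lam : L} {n : ℕ} (A : VA L lam n)

theorem close {c : ℕ → A.R} (hcc : Cmp c c)
    (hf : ∀ b i, i ≠ b → i + 1 ≠ b → c i ∈ A.Fr b)
    (hm : ∀ j x, x ∈ A.Fr (j + 1) → A.tr (x * c j) = (qint lam n)⁻¹ * A.tr x)
    (x k : ℕ) (hk : 1 ≤ k) {y : A.R} {m : L} (hy : ∀ b, x + k ≤ b → y ∈ A.Fr b)
    (hym : ∀ j, x ≤ j → j + 1 < x + k → y * c j = m • y) :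
    A.tr (y * Xp c x k k) = ((qint lam n)⁻¹ * m ^ (k - 1)) ^ k * A.tr y := by
  obtain ⟨l, rfl⟩ : ∃ l, k = l + 1 := ⟨k - 1, by omega⟩
  rw [Nat.add_sub_cancel]
  have hD : ∀ l', l' ≤ l → y * Dp c x l' = m ^ l' • y := by
    intro l' hl'
    induction l' with
    | zero => simp
    | succ l' ih =>
      rw [Dp_succ, ← mul_assoc, hym (x + l') (by omega) (by omega), smul_mul_assoc,
        ih (by omega), smul_smul, pow_succ, mul_comm]
  have key : ∀ q, q ≤ l + 1 →
      A.tr (y * Xp c x (l + 1) q) = ((qint lam n)⁻¹ * m ^ l) ^ q * A.tr y := by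
    intro q hq
    induction q with
    | zero => simp
    | succ q ih =>
      have hX : Xp c x (l + 1) q * Dp c (x + q) l = Dp c x l * Xp c x (l + 1) q := by
        have h1 : ∀ i, x ≤ i → i < x + l → Xp c x (l + 1) q * (fun i => c (i + q)) i =
            c i * Xp c x (l + 1) q := fun i hi1 hi2 =>
          Xp_mv1 hcc x (l + 1) q i hi1 (by omega)
        have h2 := tw_D h1 x l le_rfl le_rfl
        rwa [Dp_shift] at h2
      have hmem : Dp c (x + q) l * (y * Xp c x (l + 1) q) ∈ A.Fr (x + q + l + 1) := by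
        refine mul_mem (Dp_mem _ fun i h1 h2 => hf _ i (by omega) (by omega))
          (mul_mem (hy _ (by omega)) (Xp_mem _ fun i h1 h2 => hf _ i (by omega) (by omega)))
      calc A.tr (y * Xp c x (l + 1) (q + 1))
          = A.tr ((y * Xp c x (l + 1) q * c (x + q + l)) * Dp c (x + q) l) := by
            rw [Xp_succ, Dp_succ]
            congr 1
            simp only [mul_assoc]
        _ = A.tr (Dp c (x + q) l * (y * Xp c x (l + 1) q) * c (x + q + l)) := by
            rw [A.cyc]
            congr 1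
            simp only [mul_assoc]
        _ = (qint lam n)⁻¹ * A.tr (Dp c (x + q) l * (y * Xp c x (l + 1) q)) := hm _ _ hmem
        _ = (qint lam n)⁻¹ * A.tr (y * (Xp c x (l + 1) q * Dp c (x + q) l)) := by
            rw [A.cyc, mul_assoc]
        _ = (qint lam n)⁻¹ * (m ^ l * A.tr (y * Xp c x (l + 1) q)) := by
            rw [hX, ← mul_assoc, hD l le_rfl, smul_mul_assoc, map_smul, smul_eq_mul]
        _ = ((qint lam n)⁻¹ * m ^ l) ^ (q + 1) * A.tr y := by
            rw [ih (by omega), pow_succ]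
            ring
  exact key (l + 1) le_rfl

end

end VA

end CO
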