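import Pool.Agent.H61.CO.V3
import Pool.Agent.H61.CO.V5

/-!
# Bundle crossings and the product of the antisymmetrizers; local relations (row CO W1)

Proofs.
`bl_Y` (for `a.ix + 1 < m`): `A.bl k a` commutes with `A.YY k m`.  For the block `j` (with
`x = k j`): if `j ≠ i, i+1` (`i = a.ix`), `bl k a` commutes with `Y (k j) k` (`Y_comm_far`: `bl k a` has
the letters with index in `[k i, k i + 2k - 1)`, those of `Y (k j) k` are in `[k j, k j + k - 1)`; far
letters commute by `Cmp.far` (`cmp_*_sp`); use `Xp_far` with `y = sp` from X1); `bl k a * Y (k i) k =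
Y (k(i+1)) k * bl k a` and `bl k a * Y (k(i+1)) k = Y (k i) k * bl k a` by `X_Y0`, `X_Y1`; and the `Y`
commute (`YY_comm`).  Write `YY k m` for `m ≥ i + 2` by induction on `m`: `m = i + 2`:
`YY k (i+2) = YY k i * Y (k i) k * Y (k (i+1)) k`, and `bl k a` commutes with `YY k i`
(induction on the number of factors); larger `m`: one more factor `Y (k m) k`, far.
`bv_YY`: induction on the word.
`YY_AB`: `A.YY k (m+1) = A.Y 0 k * A.YB k m`: induction on `m`, definitions (`k * 0 = 0`).
`bl_*`: `Loc` relations for bundles.  `canc`: `Xp_inv`, `Xp_inv'`.  `tt`: `Xp_inv`.  `far`: `tw_X` and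
`Xp_far` (indices of `bl k (letter i)` in `[k i, k i + 2k - 1)`, of `bl k (letter j)` in
`[k j, k j + 2k-1)`, `i + 2 ≤ j`, so the difference of two indices is at least `2`).
`r3`, `v3`, `mix`: `Xp c x k k * Xp c (x+k) k k = Xp c x k (k+k)` (`Xp_add`) and
`Xp c x k (k+k) * y i = y (i+k) * Xp c x k (k+k)` for `x ≤ i`, `i + 1 < x + 2k` (`Xp_mv2`); by `tw_X`
(`y1 = y`, `y2 = fun i => y (i+k)`) and `Xp_shift`
`(Xp c x k k * Xp c (x+k) k k) * Xp y x k k = Xp y (x+k) k k * (Xp c x k k * Xp c (x+k) k k)`.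
With `x = k i`, `x + k = k (i+1)`.  `r3` and `v3`: `c = y`; `mix`: `c = vt`, `y = sp` or `sn`.
`bv_loc`: case distinction on `Loc`, `bv_append`, and the above.
`wr_loc`: case distinction.  `wr_append`: induction.
-/

namespace CO

open ZM

lemma w1_wr_cons (a : BL) (u : List BL) : wr (a :: u) = wr [a] + wr u := by
  rcases a with ⟨i, s⟩ | i
  · cases s
    · simp only [wr]; ring
    · simp only [wr]; ring
  · simp only [wr]; ring

lemma wr_append (u v : List BL) : wr (u ++ v) = wr u + wr v := by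
  induction u with
  | nil => simp [wr]
  | cons a u ih => rw [List.cons_append, w1_wr_cons, ih, w1_wr_cons a u]; ring

lemma wr_loc {x y : List BL} (h : Loc x y) : wr x = wr y := by
  cases h with
  | far a b h => rw [w1_wr_cons a [b], w1_wr_cons b [a]]; ring
  | canc i s => cases s <;> rfl
  | tt i => rfl
  | r3 i => rfl
  | v3 i => rfl
  | mix i s => cases s <;> rfl

lemma wr_shift (u : List BL) : wr (u.map BL.shift) = wr u := by
  induction u with
  | nil => rfl
  | cons a u ih =>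
    rw [List.map_cons, w1_wr_cons, ih, w1_wr_cons a u]
    congr 1
    rcases a with ⟨i, s⟩ | i
    · cases s <;> rfl
    · rfl

section

variable {R : Type} [Ring R] {c y : ℕ → R}

lemma w1_braid (hc : Cmp c c) (h : Cmp c y) (x k : ℕ) :
    Xp c x k k * (Xp c (x + k) k k * Xp y x k k) =
      Xp y (x + k) k k * (Xp c x k k * Xp c (x + k) k k) := by
  have e := Xp_add c x k k k
  rw [← mul_assoc, ← e]
  have h1 := tw_X (g := Xp c x k (k + k)) (y1 := y) (y2 := fun i => y (i + k)) (lo := x)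
    (hi := x + k + k - 1) (fun i h1 h2 => Xp_mv2 hc h x k (k + k) i h1 (by omega)) x k k le_rfl
    (by omega)
  rw [h1, Xp_shift]

end

namespace VA

section

variable {L : Type} [Field L] {lam : L} {n : ℕ} (A : VA L lam n)

/-- The kind of a letter. -/
def w1_cf : BL → ℕ → A.R
  | .sg _ true => A.sp
  | .sg _ false => A.sn
  | .ta _ => A.vt

lemma w1_bl (k : ℕ) (a : BL) : A.bl k a = Xp (A.w1_cf a) (k * a.ix) k k := by
  rcases a with ⟨i, s⟩ | i
  · cases s <;> rfl
  · rfl

lemma w1_cmp_sp (hl : lam ≠ 0) (a : BL) : Cmp (A.w1_cf a) A.sp := by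
  rcases a with ⟨i, s⟩ | i
  · cases s
    · exact A.cmp_sn_sp hl
    · exact A.cmp_sp_sp hl
  · exact A.cmp_vt_sp

lemma w1_cmp_self (hl : lam ≠ 0) (a : BL) : Cmp (A.w1_cf a) (A.w1_cf a) := by
  rcases a with ⟨i, s⟩ | i
  · cases s
    · exact A.cmp_sn_sn hl
    · exact A.cmp_sp_sp hl
  · exact A.cmp_vt_vt

lemma w1_far (hl : lam ≠ 0) (a b : BL) (i j : ℕ) (h : i + 2 ≤ j ∨ j + 2 ≤ i) :
    A.w1_cf a i * A.w1_cf b j = A.w1_cf b j * A.w1_cf a i := by
  rcases a with ⟨i1, s⟩ | i1
  · cases s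
    · rcases b with ⟨i2, s⟩ | i2
      · cases s
        · exact (A.cmp_sn_sn hl).far i j h
        · exact (A.cmp_sn_sp hl).far i j h
      · exact A.sn_vt_far i j h
    · rcases b with ⟨i2, s⟩ | i2
      · cases s
        · exact (A.cmp_sp_sn hl).far i j h
        · exact (A.cmp_sp_sp hl).far i j h
      · exact A.sp_vt_far i j h
  · rcases b with ⟨i2, s⟩ | i2
    · cases s
      · exact A.cmp_vt_sn.far i j h
      · exact A.cmp_vt_sp.far i j h
    · exact A.cmp_vt_vt.far i j h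

lemma w1_bl_far (hl : lam ≠ 0) (k : ℕ) (a b : BL) (h : a.ix + 2 ≤ b.ix) :
    A.bl k a * A.bl k b = A.bl k b * A.bl k a := by
  rw [A.w1_bl k a, A.w1_bl k b]
  have hk : k * (a.ix + 2) ≤ k * b.ix := Nat.mul_le_mul_left k h
  have hk' : k * (a.ix + 2) = k * a.ix + k + k := by ring
  refine tw_X (lo := k * b.ix) (hi := k * b.ix + k + k - 1) (fun i h1 h2 => ?_) _ k k le_rfl
    (by omega)
  refine (tw_X (g := A.w1_cf b i) (lo := k * a.ix) (hi := k * a.ix + k + k - 1)
    (fun j h3 h4 => ?_) _ k k le_rfl (by omega)).symm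
  exact A.w1_far hl b a i j (by omega)

lemma w1_bl_Y (hl : lam ≠ 0) (k : ℕ) (a : BL) (j : ℕ) (h : j < a.ix ∨ a.ix + 2 ≤ j) :
    A.bl k a * A.Y (k * j) k = A.Y (k * j) k * A.bl k a := by
  refine A.Y_comm_far (k * j) k (fun l h1 h2 => ?_)
  rw [A.w1_bl k a]
  refine Xp_far (A.w1_cmp_sp hl a) (k * a.ix) k k l ?_
  rcases h with h | h
  · right
    have hk : k * (j + 1) ≤ k * a.ix := Nat.mul_le_mul_left k h
    have hk' : k * (j + 1) = k * j + k := by ring
    omega
  · left
    have hk : k * (a.ix + 2) ≤ k * j := Nat.mul_le_mul_left k h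
    have hk' : k * (a.ix + 2) = k * a.ix + k + k := by ring
    omega

lemma w1_YY_succ (k m : ℕ) : A.YY k (m + 1) = A.YY k m * A.Y (k * m) k := rfl

lemma w1_bl_YY_low (hl : lam ≠ 0) (k : ℕ) (a : BL) (m : ℕ) (h : m ≤ a.ix) :
    A.bl k a * A.YY k m = A.YY k m * A.bl k a := by
  induction m with
  | zero => simp [YY, AA]
  | succ m ih =>
    rw [w1_YY_succ, ← mul_assoc, ih (by omega), mul_assoc, A.w1_bl_Y hl k a m (Or.inl (by omega)),
      mul_assoc]

lemma bl_YY (hl : lam ≠ 0) (k m : ℕ) (a : BL) (h : a.ix + 1 < m) :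
    A.bl k a * A.YY k m = A.YY k m * A.bl k a := by
  obtain ⟨d, rfl⟩ : ∃ d, m = a.ix + 2 + d := ⟨m - (a.ix + 2), by omega⟩
  clear h
  induction d with
  | zero =>
    have e1 : A.bl k a * A.Y (k * a.ix) k = A.Y (k * (a.ix + 1)) k * A.bl k a := by
      rw [A.w1_bl k a]
      have := A.X_Y0 (A.w1_cmp_self hl a) (A.w1_cmp_sp hl a) (k * a.ix) k
      rw [this, show k * (a.ix + 1) = k * a.ix + k by ring]
    have e2 : A.bl k a * A.Y (k * (a.ix + 1)) k = A.Y (k * a.ix) k * A.bl k a := by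
      rw [A.w1_bl k a]
      have := A.X_Y1 (A.w1_cmp_sp hl a) (k * a.ix) k
      rw [show k * (a.ix + 1) = k * a.ix + k by ring, this]
    have e3 : A.Y (k * a.ix) k * A.Y (k * (a.ix + 1)) k =
        A.Y (k * (a.ix + 1)) k * A.Y (k * a.ix) k :=
      A.YY_comm hl _ _ _ _ (le_of_eq (by ring))
    have e4 := A.w1_bl_YY_low hl k a a.ix le_rfl
    have e5 : A.YY k (a.ix + 2 + 0) =
        A.YY k a.ix * (A.Y (k * a.ix) k * A.Y (k * (a.ix + 1)) k) := by
      rw [← mul_assoc]; rfl
    rw [e5]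
    calc A.bl k a * (A.YY k a.ix * (A.Y (k * a.ix) k * A.Y (k * (a.ix + 1)) k))
        = A.bl k a * A.YY k a.ix * A.Y (k * a.ix) k * A.Y (k * (a.ix + 1)) k := by
          simp only [mul_assoc]
      _ = A.YY k a.ix * (A.bl k a * A.Y (k * a.ix) k) * A.Y (k * (a.ix + 1)) k := by
          rw [e4]; simp only [mul_assoc]
      _ = A.YY k a.ix * A.Y (k * (a.ix + 1)) k * (A.bl k a * A.Y (k * (a.ix + 1)) k) := by
          rw [e1]; simp only [mul_assoc]
      _ = A.YY k a.ix * (A.Y (k * (a.ix + 1)) k * A.Y (k * a.ix) k) * A.bl k a := by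
          rw [e2]; simp only [mul_assoc]
      _ = A.YY k a.ix * (A.Y (k * a.ix) k * A.Y (k * (a.ix + 1)) k) * A.bl k a := by
          rw [e3]
  | succ d ih =>
    rw [show a.ix + 2 + (d + 1) = a.ix + 2 + d + 1 by ring, w1_YY_succ, ← mul_assoc, ih,
      mul_assoc, A.w1_bl_Y hl k a _ (Or.inr (by omega)), mul_assoc]

lemma bv_YY (hl : lam ≠ 0) (k m : ℕ) {w : List BL} (hw : BOk m w) :
    A.bv k w * A.YY k m = A.YY k m * A.bv k w := by
  induction w with
  | nil => simp
  | cons a w ih =>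
    have h1 : BOk m w := fun b hb => hw b (List.mem_cons_of_mem _ hb)
    have h2 : a.ix + 1 < m := hw a List.mem_cons_self
    rw [A.bv_cons, mul_assoc, ih h1, ← mul_assoc, A.bl_YY hl k m a h2, mul_assoc]

lemma YY_AB (k m : ℕ) : A.YY k (m + 1) = A.Y 0 k * A.YB k m := by
  induction m with
  | zero =>
    rw [w1_YY_succ]
    simp [YY, AA, YB, AB]
  | succ m ih =>
    rw [w1_YY_succ, ih, mul_assoc]
    rfl

theorem bv_loc (hl : lam ≠ 0) (k : ℕ) {x y : List BL} (h : Loc x y) : A.bv k x = A.bv k y := by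
  cases h with
  | far a b h =>
    simp only [bv_cons, bv_nil, mul_one]
    exact A.w1_bl_far hl k a b h
  | canc i s =>
    simp only [bv_cons, bv_nil, mul_one]
    cases s
    · exact Xp_inv (A.cmp_sn_sn hl) (fun i => A.sn_sp hl i) _ k k
    · exact Xp_inv (A.cmp_sp_sp hl) (fun i => A.sp_sn hl i) _ k k
  | tt i =>
    simp only [bv_cons, bv_nil, mul_one]
    exact Xp_inv A.cmp_vt_vt (fun i => A.vt_vt i) _ k k
  | r3 i =>
    simp only [bv_cons, bv_nil, mul_one]
    have := w1_braid (A.cmp_sp_sp hl) (A.cmp_sp_sp hl) (k * i) k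
    rw [show k * i + k = k * (i + 1) by ring] at this
    exact this
  | v3 i =>
    simp only [bv_cons, bv_nil, mul_one]
    have := w1_braid A.cmp_vt_vt A.cmp_vt_vt (k * i) k
    rw [show k * i + k = k * (i + 1) by ring] at this
    exact this
  | mix i s =>
    simp only [bv_cons, bv_nil, mul_one]
    cases s
    · have := w1_braid A.cmp_vt_vt A.cmp_vt_sn (k * i) k
      rw [show k * i + k = k * (i + 1) by ring] at this
      exact this
    · have := w1_braid A.cmp_vt_vt A.cmp_vt_sp (k * i) k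
      rw [show k * i + k = k * (i + 1) by ring] at this
      exact this

end

end VA

end CO
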