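import Pool.Agent.H61.CO.V4
import Pool.Agent.H61.CO.W1

/-!
# Invariance under stabilization (row CO W2)

Proof of `G_stab`, `G_stabv`.  Let `x = k m`, `c` one of `sp`, `sn`, `vt` and `X = Xp c x k k`, `μ_c` the
eigenvalue: `Y x k * c j = μ_c • Y x k` for `x ≤ j`, `j + 1 < x + k` (`mu`, `mu⁻¹`, `1`;
`Y_sp`, `Y_sn`, `Y_vt`).  `YY k (m+2) = YY k m * Y x k * Y (x+k) k`.  As `X * Y (x+k) k = Y x k * X`
(`X_Y1`) and the `Y` commute (`YY_comm`, also `Y (x+k) k` commutes with `YY k (m+1)`),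
`bv w * X * YY k (m+2) = bv w * X * Y (x+k) k * YY k (m+1) = bv w * Y x k * X * YY k (m+1)`, so by
cyclicity the trace is `tr (y * X)`, `y = YY k (m+1) * bv w * Y x k`.  `y` is without the
labels `≥ x + k` (V5), and `y * c j = μ_c • y`.  `close` (with `hm` from `tr_sp`, `tr_sn`,
`tr_vt`) gives `(δ⁻¹ * μ_c^(k-1))^k * tr y`, and
`tr y = tr (bv w * Y x k * YY k (m+1)) = nk * tr (bv w * YY k (m+1))`
(`Y x k * YY k m * Y x k = YY k m * (Y x k * Y x k)`, `Y_sq`).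
So with `N = nk (-lam⁻¹) k`, `κ = (lam^n * (-lam⁻¹)⁻¹)^(k(k-1))`, `wr (w ++ [a]) = wr w + e`
(`e = 1, -1, 0`):
`G (m+2, w ++ [a]) = (N^(m+2))⁻¹ * δ^(k(m+2)) * κ^(wr w + e) * (δ⁻¹ * μ_c^(k-1))^k * N *
tr (bv w * YY k (m+1))`, and `(δ⁻¹)^k * δ^(k(m+2)) = δ^(k(m+1))`, `κ * mu^((k-1) k) = 1` as
`lam^n * (-lam⁻¹)⁻¹ = mu⁻¹`.  So it is `G (m+1, w)`.
-/

namespace CO

open ZM

namespace VA

section

variable {L : Type} [Field L] {lam : L} {n : ℕ} (A : VA L lam n)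

private lemma w2_succ (k m : ℕ) : A.YY k (m + 1) = A.YY k m * A.Y (k * m) k := rfl

private lemma w2_comm (hl : lam ≠ 0) (k m x : ℕ) (h : k * m ≤ x) :
    A.YY k m * A.Y x k = A.Y x k * A.YY k m := by
  induction m with
  | zero =>
    have h0 : A.YY k 0 = 1 := rfl
    rw [h0, one_mul, mul_one]
  | succ m ih =>
    have h1 : k * m + k ≤ x := by rw [Nat.mul_succ] at h; exact h
    rw [w2_succ, mul_assoc, A.YY_comm hl (k * m) k x k h1, ← mul_assoc, ih (by omega), mul_assoc]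

private theorem w2_core (hl : lam ≠ 0) (k : ℕ) (hk : 1 ≤ k)
    {m : ℕ} {w : List BL} (hw : BOk (m + 1) w) {c : ℕ → A.R} {μ : L}
    (hcc : Cmp c c) (hcs : Cmp c A.sp)
    (hf : ∀ b i, i ≠ b → i + 1 ≠ b → c i ∈ A.Fr b)
    (hm : ∀ j x, x ∈ A.Fr (j + 1) → A.tr (x * c j) = (qint lam n)⁻¹ * A.tr x)
    (hY : ∀ x j, x ≤ j → j + 1 < x + k → A.Y x k * c j = μ • A.Y x k) :
    A.tr (A.bv k w * Xp c (k * m) k k * A.YY k (m + 2)) =
      ((qint lam n)⁻¹ * μ ^ (k - 1)) ^ k *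
        (nk (-lam⁻¹) k * A.tr (A.bv k w * A.YY k (m + 1))) := by
  have hx : k * (m + 1) = k * m + k := Nat.mul_succ k m
  have h1 : A.YY k (m + 2) = A.Y (k * m + k) k * A.YY k (m + 1) := by
    rw [← hx, ← w2_comm A hl k (m + 1) (k * (m + 1)) le_rfl]
    rfl
  have h2 : A.bv k w * Xp c (k * m) k k * A.YY k (m + 2) =
      A.bv k w * A.Y (k * m) k * Xp c (k * m) k k * A.YY k (m + 1) := by
    rw [h1, ← mul_assoc, mul_assoc (A.bv k w), A.X_Y1 hcs, ← mul_assoc (A.bv k w)]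
  have h3 : A.tr (A.bv k w * Xp c (k * m) k k * A.YY k (m + 2)) =
      A.tr (A.YY k (m + 1) * (A.bv k w * A.Y (k * m) k) * Xp c (k * m) k k) := by
    rw [h2, A.cyc, ← mul_assoc]
  have h4 := A.close (m := μ) (y := A.YY k (m + 1) * (A.bv k w * A.Y (k * m) k)) hcc hf hm
    (k * m) k hk (by
      intro b hb
      refine (A.Fr b).mul_mem (A.YY_mem k (m + 1) b (by omega))
        ((A.Fr b).mul_mem (A.bv_mem k (m + 1) hw b (by omega)) (A.Y_mem _ _ _ (Or.inr hb)))) (by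
      intro j hj1 hj2
      rw [mul_assoc, mul_assoc, hY _ _ hj1 hj2, mul_smul_comm, mul_smul_comm])
  rw [h3, h4]
  congr 1
  have h5 : A.Y (k * m) k * A.YY k (m + 1) = nk (-lam⁻¹) k • A.YY k (m + 1) := by
    rw [w2_succ, ← mul_assoc, ← w2_comm A hl k m (k * m) le_rfl, mul_assoc, A.Y_sq hl,
      mul_smul_comm]
  rw [A.cyc, mul_assoc, h5, mul_smul_comm, map_smul, smul_eq_mul]

private lemma w2_mu (hl : lam ≠ 0) : lam ^ n * (-lam⁻¹)⁻¹ = (mu lam n)⁻¹ := by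
  unfold mu
  rw [mul_inv, ← inv_pow, inv_inv, mul_comm]

private lemma w2_scal {N δ κ t μ : L} (hN : N ≠ 0) (hδ : δ ≠ 0) (hκ : κ ≠ 0) (k m : ℕ) (a e : ℤ)
    (he : κ ^ e * (μ ^ (k - 1)) ^ k = 1) :
    (N ^ (m + 2))⁻¹ * δ ^ (k * (m + 2)) * κ ^ (a + e) * ((δ⁻¹ * μ ^ (k - 1)) ^ k * (N * t)) =
      (N ^ (m + 1))⁻¹ * δ ^ (k * (m + 1)) * κ ^ a * t := by
  have h1 : δ ^ (k * (m + 2)) = δ ^ (k * (m + 1)) * δ ^ k := by
    rw [← pow_add]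
    congr 1
  have h2 : (N ^ (m + 2))⁻¹ * N = (N ^ (m + 1))⁻¹ := by
    rw [pow_succ N (m + 1), mul_inv, mul_assoc, inv_mul_cancel₀ hN, mul_one]
  have h3 : δ ^ k * (δ⁻¹) ^ k = 1 := by
    rw [← mul_pow, mul_inv_cancel₀ hδ, one_pow]
  rw [h1, zpow_add₀ hκ, mul_pow, ← h2]
  linear_combination ((N ^ (m + 2))⁻¹ * N * δ ^ (k * (m + 1)) * κ ^ a * t) * he +
    ((N ^ (m + 2))⁻¹ * N * δ ^ (k * (m + 1)) * κ ^ a * t * κ ^ e * (μ ^ (k - 1)) ^ k) * h3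

private lemma w2_pow (μ : L) (hμ : μ ≠ 0) (k : ℕ) :
    (μ⁻¹ ^ (k * (k - 1))) * (μ ^ (k - 1)) ^ k = 1 := by
  rw [← pow_mul, mul_comm (k - 1) k, ← mul_pow, inv_mul_cancel₀ hμ, one_pow]

theorem G_stab (hl : lam ≠ 0) (hn : 2 ≤ n) (hd : qint lam n ≠ 0) (k : ℕ) (hk : 1 ≤ k)
    (hN : nk (-lam⁻¹) k ≠ 0) {m : ℕ} {w : List BL} (hw : BOk (m + 1) w) (s : Bool) :
    A.G k (m + 2, w ++ [.sg m s]) = A.G k (m + 1, w) := by
  have hμ : mu lam n ≠ 0 := mu_ne hl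
  have hκ : ((mu lam n)⁻¹) ^ (k * (k - 1)) ≠ 0 := pow_ne_zero _ (inv_ne_zero hμ)
  unfold G
  simp only
  rw [wr_append, bv_append, bv_cons, bv_nil, mul_one, w2_mu hl]
  cases s
  · have h1 : wr [BL.sg m false] = -1 := rfl
    have h2 : A.bl k (.sg m false) = Xp A.sn (k * m) k k := rfl
    rw [h1, h2, w2_core A hl k hk hw (μ := (mu lam n)⁻¹) (A.cmp_sn_sn hl) (A.cmp_sn_sp hl)
      (fun b i h3 h4 => A.sn_mem h3 h4) (fun j x hx => A.tr_sn hl (by omega) hd j hx)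
      (fun x j h3 h4 => A.Y_sn hl x k j h3 h4)]
    apply w2_scal hN hd hκ
    rw [zpow_neg_one]
    have h5 := w2_pow (mu lam n)⁻¹ (inv_ne_zero hμ) k
    rw [inv_inv] at h5
    rw [← inv_pow, inv_inv]
    exact h5
  · have h1 : wr [BL.sg m true] = 1 := rfl
    have h2 : A.bl k (.sg m true) = Xp A.sp (k * m) k k := rfl
    rw [h1, h2, w2_core A hl k hk hw (μ := mu lam n) (A.cmp_sp_sp hl) (A.cmp_sp_sp hl)
      (fun b i h3 h4 => A.sp_mem h3 h4) (fun j x hx => A.tr_sp hl (by omega) hd j hx)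
      (fun x j h3 h4 => A.Y_sp hl x k j h3 h4)]
    apply w2_scal hN hd hκ
    rw [zpow_one]
    exact w2_pow (mu lam n) hμ k

theorem G_stabv (hl : lam ≠ 0) (h2 : lam + lam⁻¹ ≠ 0) (hd : qint lam n ≠ 0) (k : ℕ)
    (hk : 1 ≤ k) (hN : nk (-lam⁻¹) k ≠ 0) {m : ℕ} {w : List BL} (hw : BOk (m + 1) w) :
    A.G k (m + 2, w ++ [.ta m]) = A.G k (m + 1, w) := by
  have hμ : mu lam n ≠ 0 := mu_ne hl
  have hκ : ((mu lam n)⁻¹) ^ (k * (k - 1)) ≠ 0 := pow_ne_zero _ (inv_ne_zero hμ)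
  unfold G
  simp only
  rw [wr_append, bv_append, bv_cons, bv_nil, mul_one, w2_mu hl]
  have h1 : wr [BL.ta m] = 0 := rfl
  have h3 : A.bl k (.ta m) = Xp A.vt (k * m) k k := rfl
  rw [h1, h3, w2_core A hl k hk hw (μ := 1) A.cmp_vt_vt A.cmp_vt_sp
    (fun b i h3 h4 => A.vt_mem h3 h4) (fun j x hx => A.tr_vt j hx)
    (fun x j h3 h4 => by rw [A.Y_vt hl h2 x k j h3 h4, one_smul])]
  apply w2_scal hN hd hκ
  rw [zpow_zero, one_pow, one_pow, one_mul]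

end

end VA

end CO
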