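import Pool.Agent.H61.CO.PE
import Pool.Agent.H61.CO.W1

/-!
# Invariance under the exchange moves (row CO W3)

Proofs.  `wr` of both sides is equal (`wr_append`, `wr_shift`), so it is a statement on the traces.
`G_exR`: `x = k m`, `YY k (m+2) = YY k (m+1) * Y (x+k) k` (`x + k = k (m+1)`), and for `X = Xp c x k k`
(`c = sp` or `vt`): `X * Y (x+k) k = Y x k * X` (`X_Y1`); `Y (x+k) k` commutes with `YY k (m+1)`
(`YY_comm`), so `tr (bv u * X' * bv v * X * YY k (m+2)) =
tr (bv u * X' * bv v * (X * Y (x+k) k) * YY k (m+1)) =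
tr ((YY k (m+1) * bv u) * X' * (bv v * Y x k) * X)`.  Both `YY k (m+1) * bv u` and `bv v * Y x k` are
without the labels `≥ x + k` (V5), so `exR_blk` applies (`X' = Xp sn`, `X = Xp sp` resp. `X' = X =
Xp vt`).
`G_exL`: `x = 0`.  `YY k (m+2) = Y 0 k * YB k (m+1)` (`YY_AB`), and `X * Y 0 k = Y k k * X` (`X_Y0`).  So the
trace is `tr (bv u' * X' * bv v' * (Y k k * X) * YB k (m+1)) =
tr ((YB k (m+1) * bv u') * X' * (bv v' * Y k k) * X)` with `u' = u.map shift`, `v' = v.map shift`, and both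
factors are without the labels `< k` (`bv_mem_shift`, `YB_mem`, `Y_mem`); `exL_blk`.
(`k * 0 = 0`.)
-/

namespace CO

open ZM

namespace VA

section

variable {L : Type} [Field L] {lam : L} {n : ℕ} (A : VA L lam n)

lemma w3_YYc (hl : lam ≠ 0) (k M j : ℕ) (h : j ≤ M) :
    A.YY k j * A.Y (k * M) k = A.Y (k * M) k * A.YY k j := by
  induction j with
  | zero => simp [YY, AA]
  | succ j ih =>
    have e : A.YY k (j + 1) = A.YY k j * A.Y (k * j) k := rfl
    have e2 : A.Y (k * j) k * A.Y (k * M) k = A.Y (k * M) k * A.Y (k * j) k := by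
      refine A.YY_comm hl _ _ _ _ ?_
      have : k * (j + 1) ≤ k * M := Nat.mul_le_mul_left k h
      have : k * (j + 1) = k * j + k := by ring
      omega
    rw [e, mul_assoc, e2, ← mul_assoc, ih (by omega), mul_assoc]

lemma w3_R (hl : lam ≠ 0) (k m : ℕ) {U V X' X : A.R}
    (hX : X * A.Y (k * m + k) k = A.Y (k * m) k * X) :
    A.tr (U * X' * V * X * A.YY k (m + 2)) =
      A.tr ((A.YY k (m + 1) * U) * X' * (V * A.Y (k * m) k) * X) := by
  have e : A.YY k (m + 2) = A.Y (k * m + k) k * A.YY k (m + 1) := by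
    have e1 := A.w3_YYc hl k (m + 1) (m + 1) le_rfl
    rw [show k * m + k = k * (m + 1) by ring, ← e1]
    rfl
  calc A.tr (U * X' * V * X * A.YY k (m + 2))
      = A.tr (U * X' * V * (X * A.Y (k * m + k) k) * A.YY k (m + 1)) := by
        rw [e]; simp only [mul_assoc]
    _ = A.tr (A.YY k (m + 1) * (U * X' * V * (A.Y (k * m) k * X))) := by
        rw [hX, A.cyc]
    _ = _ := by simp only [mul_assoc]

lemma w3_L (k m : ℕ) {U V X' X : A.R}
    (hX : X * A.Y 0 k = A.Y k k * X) :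
    A.tr (U * X' * V * X * A.YY k (m + 2)) =
      A.tr ((A.YB k (m + 1) * U) * X' * (V * A.Y k k) * X) := by
  have e : A.YY k (m + 2) = A.Y 0 k * A.YB k (m + 1) := A.YY_AB k (m + 1)
  calc A.tr (U * X' * V * X * A.YY k (m + 2))
      = A.tr (U * X' * V * (X * A.Y 0 k) * A.YB k (m + 1)) := by
        rw [e]; simp only [mul_assoc]
    _ = A.tr (A.YB k (m + 1) * (U * X' * V * (A.Y k k * X))) := by
        rw [hX, A.cyc]
    _ = _ := by simp only [mul_assoc]

lemma w3_wr (u v : List BL) (i j : ℕ) :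
    wr (u ++ [.sg i false] ++ v ++ [.sg j true]) = wr (u ++ [.ta i] ++ v ++ [.ta j]) := by
  simp only [wr_append, wr]
  ring

theorem G_exR (hl : lam ≠ 0) (hn : 2 ≤ n) (hd : qint lam n ≠ 0) (k : ℕ) {m : ℕ}
    {u v : List BL} (hu : BOk (m + 1) u) (hv : BOk (m + 1) v) :
    A.G k (m + 2, u ++ [.sg m false] ++ v ++ [.sg m true]) =
      A.G k (m + 2, u ++ [.ta m] ++ v ++ [.ta m]) := by
  unfold G
  dsimp only
  rw [w3_wr]
  congr 1
  simp only [bv_append, bv_cons, bv_nil, mul_one]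
  have hX1 : A.bl k (.sg m true) * A.Y (k * m + k) k = A.Y (k * m) k * A.bl k (.sg m true) :=
    A.X_Y1 (A.cmp_sp_sp hl) (k * m) k
  have hX2 : A.bl k (.ta m) * A.Y (k * m + k) k = A.Y (k * m) k * A.bl k (.ta m) :=
    A.X_Y1 A.cmp_vt_sp (k * m) k
  rw [A.w3_R hl k m hX1, A.w3_R hl k m hX2]
  have hm : k * (m + 1) = k * m + k := by ring
  refine A.exR_blk hl hn hd (k * m) k (fun a h1 h2 => ?_) (fun a h1 h2 => ?_)
  · exact mul_mem (A.YY_mem k (m + 1) a (by omega)) (A.bv_mem k (m + 1) hu a (by omega))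
  · exact mul_mem (A.bv_mem k (m + 1) hv a (by omega)) (A.Y_mem _ k a (Or.inr (by omega)))

theorem G_exL (hl : lam ≠ 0) (hn : 2 ≤ n) (hd : qint lam n ≠ 0) (k : ℕ) {m : ℕ}
    {u v : List BL} (hu : BOk (m + 1) u) (hv : BOk (m + 1) v) :
    A.G k (m + 2, u.map BL.shift ++ [.sg 0 false] ++ v.map BL.shift ++ [.sg 0 true]) =
      A.G k (m + 2, u.map BL.shift ++ [.ta 0] ++ v.map BL.shift ++ [.ta 0]) := by
  have _h1 := hu
  have _h2 := hv
  unfold G
  dsimp only
  rw [w3_wr]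
  congr 1
  simp only [bv_append, bv_cons, bv_nil, mul_one]
  have hX1 : A.bl k (.sg 0 true) * A.Y 0 k = A.Y k k * A.bl k (.sg 0 true) := by
    have := A.X_Y0 (A.cmp_sp_sp hl) (A.cmp_sp_sp hl) 0 k
    rw [Nat.zero_add] at this
    exact this
  have hX2 : A.bl k (.ta 0) * A.Y 0 k = A.Y k k * A.bl k (.ta 0) := by
    have := A.X_Y0 A.cmp_vt_vt A.cmp_vt_sp 0 k
    rw [Nat.zero_add] at this
    exact this
  rw [A.w3_L k m hX1, A.w3_L k m hX2]
  refine A.exL_blk hl hn hd 0 k (fun a h1 h2 => ?_) (fun a h1 h2 => ?_)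
  · exact mul_mem (A.YB_mem k (m + 1) a (by omega)) (A.bv_mem_shift k u a (by omega))
  · exact mul_mem (A.bv_mem_shift k v a (by omega)) (A.Y_mem _ k a (Or.inl (by omega)))

end

end VA

end CO
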