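import Pool.Agent.H61.CO.W2
import Pool.Agent.H61.CO.W3
import Pool.Agent.H61.CO.H2

/-!
# Invariance under all moves (row CO W4)

Proofs.
`G_loc`: `bv_append`, `bv_loc`, `wr_append`, `wr_loc`.
`G_conj`: `tr (bv u * bv v * YY) = tr (bv v * YY * bv u) = tr (bv v * bv u * YY)` (`bv_YY` for `u`; a
sub-word of an `BOk` word is `BOk`).
`G_virt`: `tr (bv u * B * bv v * YY k m)` with `B = bl k (sg i s)` and `T = bl k (ta i)`; the other
side has `T * B * T` for `B`.  As `YY k m` commutes with `bv v`, both are `tr (bv u * B * YY k m * bv v)`.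
`YY k m = Q * Z` with `Q = Y (k i) k * Y (k(i+1)) k` and `Z` the product of the other `Y`
(prove: for `i + 2 ≤ m` there is `Z` with `YY k m = Q * Z`, induction on `m`; `Q` commutes with
`YY k i` by `YY_comm`).  `zblock` with `x = k i` (`x + k = k (i+1)`), `s = sp` or `sn`, `t = vt`,
`A0 = Y (k i) k`, `A1 = Y (k(i+1)) k`: hypotheses by `cmp_*`, `vt_vt`, `vt_sp`, `vt_sn`, `H_Y`, `YY_comm`,
and `hS`: `X * Y x k * Y (x+k) k = Y (x+k) k * X * Y (x+k) k = Y (x+k) k * Y x k * X` (`X_Y0`, `X_Y1`).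
`wr` is the same.
`G_move`: case distinction on `Move` (`m ≥ 1` not needed).  `G_step`.
-/

namespace CO

open ZM

namespace VA

section

variable {L : Type} [Field L] {lam : L} {n : ℕ} (A : VA L lam n)

lemma w4_bv_append (k : ℕ) (u v : List BL) : A.bv k (u ++ v) = A.bv k u * A.bv k v := by
  unfold bv
  rw [List.map_append, List.prod_append]

lemma w4_bv_one (k : ℕ) (a : BL) : A.bv k [a] = A.bl k a := by
  unfold bv
  simp

lemma w4_BOk_left {m : ℕ} {u v : List BL} (h : BOk m (u ++ v)) : BOk m u :=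
  fun a ha => h a (List.mem_append_left _ ha)

lemma w4_BOk_right {m : ℕ} {u v : List BL} (h : BOk m (u ++ v)) : BOk m v :=
  fun a ha => h a (List.mem_append_right _ ha)

lemma w4_G_loc (hl : lam ≠ 0) (k m : ℕ) (u v x y : List BL) (h : Loc x y) :
    A.G k (m, u ++ x ++ v) = A.G k (m, u ++ y ++ v) := by
  have h1 : wr (u ++ x ++ v) = wr (u ++ y ++ v) := by
    rw [wr_append, wr_append, wr_append, wr_append, wr_loc h]
  have h2 : A.bv k (u ++ x ++ v) = A.bv k (u ++ y ++ v) := by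
    rw [A.w4_bv_append, A.w4_bv_append, A.w4_bv_append, A.w4_bv_append, A.bv_loc hl k h]
  unfold G
  simp only
  rw [h1, h2]

lemma w4_G_conj (hl : lam ≠ 0) (k : ℕ) {m : ℕ} {u v : List BL} (h : BOk m (u ++ v)) :
    A.G k (m, u ++ v) = A.G k (m, v ++ u) := by
  have h1 : wr (u ++ v) = wr (v ++ u) := by
    rw [wr_append, wr_append, add_comm]
  have h2 : A.tr (A.bv k (u ++ v) * A.YY k m) = A.tr (A.bv k (v ++ u) * A.YY k m) := by
    rw [A.w4_bv_append, A.w4_bv_append, mul_assoc, A.cyc, mul_assoc, mul_assoc,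
      A.bv_YY hl k m (w4_BOk_left h)]
  unfold G
  simp only
  rw [h1, h2]

lemma w4_comm (hl : lam ≠ 0) (k m j : ℕ) (h : m ≤ j) :
    A.YY k m * A.Y (k * j) k = A.Y (k * j) k * A.YY k m := by
  induction m with
  | zero =>
    show (1 : A.R) * A.Y (k * j) k = A.Y (k * j) k * 1
    rw [one_mul, mul_one]
  | succ m ih =>
    have e : A.YY k (m + 1) = A.YY k m * A.Y (k * m) k := rfl
    have h2 : k * m + k ≤ k * j := by
      have := Nat.mul_le_mul_left k h
      rw [Nat.mul_succ] at this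
      exact this
    rw [e, mul_assoc, A.YY_comm hl (k * m) k (k * j) k h2, ← mul_assoc, ih (by omega), mul_assoc]

lemma w4_YY (hl : lam ≠ 0) (k i m : ℕ) (h : i + 2 ≤ m) :
    ∃ Z, A.YY k m = A.Y (k * i) k * A.Y (k * i + k) k * Z := by
  induction m, h using Nat.le_induction with
  | base =>
    refine ⟨A.YY k i, ?_⟩
    have e : A.YY k (i + 2) = A.YY k i * A.Y (k * i) k * A.Y (k * (i + 1)) k := rfl
    rw [e, A.w4_comm hl k i i le_rfl, mul_assoc, A.w4_comm hl k i (i + 1) (by omega), Nat.mul_succ,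
      mul_assoc]
  | succ m hm ih =>
    obtain ⟨Z, hZ⟩ := ih
    refine ⟨Z * A.Y (k * m) k, ?_⟩
    have e : A.YY k (m + 1) = A.YY k m * A.Y (k * m) k := rfl
    rw [e, hZ, mul_assoc]

lemma w4_hS (hl : lam ≠ 0) {c : ℕ → A.R} (hcc : Cmp c c) (hc : Cmp c A.sp) (x k : ℕ) :
    Xp c x k k * (A.Y x k * A.Y (x + k) k) = A.Y x k * A.Y (x + k) k * Xp c x k k := by
  rw [← mul_assoc, A.X_Y0 hcc hc, mul_assoc, A.X_Y1 hc, ← mul_assoc,
    A.YY_comm hl x k (x + k) k le_rfl]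

lemma w4_block (hl : lam ≠ 0) (h2 : lam + lam⁻¹ ≠ 0) (k : ℕ) (hN : nk (-lam⁻¹) k ≠ 0) (i m : ℕ)
    (s : Bool) (h : i + 2 ≤ m) :
    A.bl k (.ta i) * A.bl k (.sg i s) * A.bl k (.ta i) * A.YY k m =
      A.bl k (.sg i s) * A.YY k m := by
  obtain ⟨Z, hZ⟩ := A.w4_YY hl k i m h
  have key : A.bl k (.ta i) * A.bl k (.sg i s) * A.bl k (.ta i) *
      (A.Y (k * i) k * A.Y (k * i + k) k) =
      A.bl k (.sg i s) * (A.Y (k * i) k * A.Y (k * i + k) k) := by
    cases s with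
    | true =>
      exact zblock A.cmp_vt_vt A.cmp_vt_sp (A.cmp_sp_sp hl) A.vt_vt A.vt_sp k (k * i)
        (A.H_Y hl h2 (k * i) k hN) (A.H_Y hl h2 (k * i + k) k hN)
        (A.YY_comm hl (k * i) k (k * i + k) k le_rfl)
        (A.w4_hS hl (A.cmp_sp_sp hl) (A.cmp_sp_sp hl) (k * i) k)
    | false =>
      exact zblock A.cmp_vt_vt A.cmp_vt_sn (A.cmp_sn_sn hl) A.vt_vt A.vt_sn k (k * i)
        (A.H_Y hl h2 (k * i) k hN) (A.H_Y hl h2 (k * i + k) k hN)
        (A.YY_comm hl (k * i) k (k * i + k) k le_rfl)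
        (A.w4_hS hl (A.cmp_sn_sn hl) (A.cmp_sn_sp hl) (k * i) k)
  rw [hZ, ← mul_assoc, key, mul_assoc]

theorem G_virt (hl : lam ≠ 0) (h2 : lam + lam⁻¹ ≠ 0) (k : ℕ) (hN : nk (-lam⁻¹) k ≠ 0) {m : ℕ}
    {u v : List BL} {i : ℕ} {s : Bool} (hw : BOk m (u ++ [.sg i s] ++ v)) :
    A.G k (m, u ++ [.sg i s] ++ v) = A.G k (m, u ++ [.ta i, .sg i s, .ta i] ++ v) := by
  have hv : BOk m v := w4_BOk_right hw
  have hi : i + 2 ≤ m := by
    have := hw (.sg i s) (by simp)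
    simp only [BL.ix] at this
    omega
  have h1 : wr (u ++ [.sg i s] ++ v) = wr (u ++ [.ta i, .sg i s, .ta i] ++ v) := by
    rw [wr_append, wr_append, wr_append, wr_append]
    cases s <;> simp [wr]
  have e3 : A.bv k [.ta i, .sg i s, .ta i] =
      A.bl k (.ta i) * A.bl k (.sg i s) * A.bl k (.ta i) := by
    unfold bv
    simp [mul_assoc]
  have h3 : A.bv k (u ++ [.sg i s] ++ v) * A.YY k m =
      A.bv k (u ++ [.ta i, .sg i s, .ta i] ++ v) * A.YY k m := by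
    have h4 : ∀ X : A.R, A.bv k u * X * A.bv k v * A.YY k m =
        A.bv k u * (X * A.YY k m) * A.bv k v := by
      intro X
      rw [mul_assoc _ (A.bv k v), A.bv_YY hl k m hv]
      simp only [mul_assoc]
    rw [A.w4_bv_append, A.w4_bv_append, A.w4_bv_append, A.w4_bv_append, A.w4_bv_one, e3, h4, h4,
      A.w4_block hl h2 k hN i m s hi]
  unfold G
  simp only
  rw [h1, h3]

theorem G_move (hl : lam ≠ 0) (h2 : lam + lam⁻¹ ≠ 0) (hn : 2 ≤ n) (hd : qint lam n ≠ 0) (k : ℕ)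
    (hk : 1 ≤ k) (hN : nk (-lam⁻¹) k ≠ 0) {D D' : ℕ × List BL} (hD : BOk D.1 D.2)
    (hD' : BOk D'.1 D'.2) (h : Move D D') : A.G k D = A.G k D' := by
  cases h with
  | loc m u v x y h => exact A.w4_G_loc hl k m u v x y h
  | conj m u v => exact A.w4_G_conj hl k hD
  | stab m w hw s => exact (A.G_stab hl hn hd k hk hN hw s).symm
  | stabv m w hw => exact (A.G_stabv hl h2 hd k hk hN hw).symm
  | exR m u v hu hv => exact A.G_exR hl hn hd k hu hv
  | exL m u v hu hv => exact A.G_exL hl hn hd k hu hv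
  | virt m u v i s => exact A.G_virt hl h2 k hN hD

theorem G_step (hl : lam ≠ 0) (h2 : lam + lam⁻¹ ≠ 0) (hn : 2 ≤ n) (hd : qint lam n ≠ 0) (k : ℕ)
    (hk : 1 ≤ k) (hN : nk (-lam⁻¹) k ≠ 0) {D D' : ℕ × List BL} (h : ZEquiv D D') :
    A.G k D = A.G k D' := by
  induction h with
  | refl => rfl
  | tail _ h ih =>
    obtain ⟨-, -, hD, hD', h | h⟩ := h
    · exact ih.trans (A.G_move hl h2 hn hd k hk hN hD hD' h)
    · exact ih.trans (A.G_move hl h2 hn hd k hk hN hD' hD h).symm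

end

end VA

end CO
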