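import Pool.Agent.H61.CO.Hb

/-!
# Moving letters through runs and crossings (row CO X1; pure ring theory)

`Cmp c y` (Defs) says: `c i`, `y j` commute for `|i - j| ≥ 2`,
`c (i+1) c i y (i+1) = y i c (i+1) c i` and `c i c (i+1) y i = y (i+1) c i c (i+1)`.

Proofs.
`Dp_far`, `Up_far`, `Xp_far`: induction, all indices of `Dp c x p` are in `[x, x+p)`, those of
`Xp c x p q` are in `[x, x+p+q-1)`.
`Dp_mv`: induction on `p`.  For `p + 1`: `Dp c x (p+1) = c (x+p) * Dp c x p`.  If `i + 1 < x + p`: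
induction hypothesis, then `c (x+p)` commutes with `y i` (as `i + 2 ≤ x + p`).  If `i + 1 = x + p`
(so `p ≥ 1`, `p = p' + 1`, `i = x + p'`): `Dp c x (p'+2) = c (i+1) * (c i * Dp c x p')`, `y (i+1)`
commutes with `Dp c x p'` (indices `< i`), and `c (i+1) c i y (i+1) = y i c (i+1) c i`.
`Up_mv`: the same with `Up_succ`: `Up c x (p+1) = Up c x p * c (x+p)`.  If `i + 1 < x + p`: `c (x+p)`
commutes with `y i`, then the induction hypothesis.  If `i + 1 = x + p`, `p = p' + 1`:
`Up c x p' * c i * c (i+1) * y i = Up c x p' * (y (i+1) * (c i * c (i+1)))` and `y (i+1)` commutes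
with `Up c x p'` (indices `< i`).
`Xp_mv1`: induction on `q`: `Xp c x p (q+1) * y (i+q+1) = Xp c x p q * (Dp c (x+q) p * y (i+q+1))
= Xp c x p q * y (i+q) * Dp c (x+q) p` by `Dp_mv` (with `x + q`, `i + q`), then the induction
hypothesis.
`DD_mv`: induction on `p`, see below.  For `p = 0` all runs are `1`.  `p + 1`:
`Dp c x (p+1) * Dp c (x+1) (p+1) = c (x+p) * Dp c x p * c (x+1+p) * Dp c (x+1) p =
c (x+p) * c (x+p+1) * (Dp c x p * Dp c (x+1) p)` since `c (x+p+1)` commutes with `Dp c x p`; so by the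
induction hypothesis it moves `y x` to `c (x+p) c (x+p+1) y (x+p) = y (x+p+1) c (x+p) c (x+p+1)`.
`Xp_mv2`: induction on `q`.  For `q + 1` and `i + 1 < x + q`: `Dp c (x+q) p` commutes with `y i`
(`i + 2 ≤ x + q`), then the induction hypothesis.  For `i + 1 = x + q`, `q = q' + 1`, `i = x + q'`:
`Xp c x p (q'+2) = Xp c x p q' * (Dp c i p * Dp c (i+1) p)`; `DD_mv` with `x = i`; and
`y (i+p)` commutes with `Xp c x p q'` (indices `< x + p + q' - 1 = i + p - 1`; use `Xp_far`).
`Xp_add`: induction on `r`.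
-/

namespace CO

section

variable {R : Type} [Ring R] {c y : ℕ → R}

lemma Dp_far (h : Cmp c y) (x p j : ℕ) (hj : x + p + 1 ≤ j ∨ j + 2 ≤ x) :
    Dp c x p * y j = y j * Dp c x p := by
  induction p with
  | zero => simp
  | succ p ih =>
    rw [Dp_succ, mul_assoc, ih (by omega), ← mul_assoc, h.far (x + p) j (by omega), mul_assoc]

lemma Up_far (h : Cmp c y) (x p j : ℕ) (hj : x + p + 1 ≤ j ∨ j + 2 ≤ x) :
    Up c x p * y j = y j * Up c x p := by
  induction p with
  | zero => simp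
  | succ p ih =>
    rw [Up_succ, mul_assoc, h.far (x + p) j (by omega), ← mul_assoc, ih (by omega), mul_assoc]

lemma Xp_far (h : Cmp c y) (x p q j : ℕ) (hj : x + p + q ≤ j ∨ j + 2 ≤ x) :
    Xp c x p q * y j = y j * Xp c x p q := by
  induction q with
  | zero => simp
  | succ q ih =>
    rw [Xp_succ, mul_assoc, Dp_far h (x + q) p j (by omega), ← mul_assoc, ih (by omega), mul_assoc]

lemma Dp_mv (h : Cmp c y) (x p i : ℕ) (h1 : x ≤ i) (h2 : i + 1 < x + p) :
    Dp c x p * y (i + 1) = y i * Dp c x p := by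
  induction p with
  | zero => omega
  | succ p ih =>
    by_cases h3 : i + 1 < x + p
    · rw [Dp_succ, mul_assoc, ih h3, ← mul_assoc, h.far (x + p) i (by omega), mul_assoc]
    · obtain ⟨q, rfl⟩ : ∃ q, p = q + 1 := ⟨p - 1, by omega⟩
      obtain rfl : i = x + q := by omega
      rw [Dp_succ, Dp_succ, mul_assoc, mul_assoc, Dp_far h x q (x + q + 1) (by omega),
        ← mul_assoc (c (x + q)), ← mul_assoc, ← mul_assoc, ← Nat.add_assoc, h.b1 (x + q), mul_assoc,
        mul_assoc]

lemma Up_mv (h : Cmp c y) (x p i : ℕ) (h1 : x ≤ i) (h2 : i + 1 < x + p) :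
    Up c x p * y i = y (i + 1) * Up c x p := by
  induction p with
  | zero => omega
  | succ p ih =>
    by_cases h3 : i + 1 < x + p
    · rw [Up_succ, mul_assoc, h.far (x + p) i (by omega), ← mul_assoc, ih h3, mul_assoc]
    · obtain ⟨q, rfl⟩ : ∃ q, p = q + 1 := ⟨p - 1, by omega⟩
      obtain rfl : i = x + q := by omega
      have e : c (x + q) * (c (x + q + 1) * y (x + q)) =
          y (x + q + 1) * (c (x + q) * c (x + q + 1)) := by
        rw [← mul_assoc, h.b2 (x + q)]
      rw [Up_succ, Up_succ, ← Nat.add_assoc, mul_assoc, mul_assoc, e, ← mul_assoc,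
        Up_far h x q (x + q + 1) (by omega), mul_assoc, ← mul_assoc (Up c x q)]

lemma Xp_mv1 (h : Cmp c y) (x p q i : ℕ) (h1 : x ≤ i) (h2 : i + 1 < x + p) :
    Xp c x p q * y (i + q) = y i * Xp c x p q := by
  induction q with
  | zero => simp
  | succ q ih =>
    rw [Xp_succ, mul_assoc, ← Nat.add_assoc, Dp_mv h (x + q) p (i + q) (by omega) (by omega),
      ← mul_assoc, ih, mul_assoc]

lemma DD_mv (hc : Cmp c c) (h : Cmp c y) (x p : ℕ) :
    Dp c x p * Dp c (x + 1) p * y x = y (x + p) * (Dp c x p * Dp c (x + 1) p) := by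
  induction p with
  | zero => simp
  | succ p ih =>
    have e : Dp c x (p + 1) * Dp c (x + 1) (p + 1) =
        c (x + p) * c (x + p + 1) * (Dp c x p * Dp c (x + 1) p) := by
      rw [Dp_succ, Dp_succ, show x + 1 + p = x + p + 1 by omega, mul_assoc,
        ← mul_assoc (Dp c x p), Dp_far hc x p (x + p + 1) (by omega), mul_assoc, mul_assoc]
    rw [e, mul_assoc, ih, ← mul_assoc, h.b2 (x + p), mul_assoc, ← Nat.add_assoc]

lemma Xp_mv2 (hc : Cmp c c) (h : Cmp c y) (x p q i : ℕ) (h1 : x ≤ i) (h2 : i + 1 < x + q) :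
    Xp c x p q * y i = y (i + p) * Xp c x p q := by
  induction q with
  | zero => omega
  | succ q ih =>
    by_cases h3 : i + 1 < x + q
    · rw [Xp_succ, mul_assoc, Dp_far h (x + q) p i (by omega), ← mul_assoc, ih h3, mul_assoc]
    · obtain ⟨r, rfl⟩ : ∃ r, q = r + 1 := ⟨q - 1, by omega⟩
      obtain rfl : i = x + r := by omega
      rw [Xp_succ, Xp_succ, ← Nat.add_assoc, mul_assoc (Xp c x p r), mul_assoc (Xp c x p r),
        DD_mv hc h (x + r) p, ← mul_assoc, Xp_far h x p r (x + r + p) (by omega), mul_assoc]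

lemma Xp_add (c : ℕ → R) (x p q r : ℕ) :
    Xp c x p (q + r) = Xp c x p q * Xp c (x + q) p r := by
  induction r with
  | zero => simp
  | succ r ih =>
    rw [← Nat.add_assoc, Xp_succ, ih, Xp_succ, mul_assoc, Nat.add_assoc x q r]

end

end CO
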